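import Pool.Agent.Helper79.SlicedRules

/-!
A checker for sequences of moves between sliced diagrams.
-/

set_option autoImplicit false

namespace Pool.Agent.Helper79.Sliced

variable {S : Type} {Λ : List Piece → S} {n m k : ℕ} {x y w u v : List Piece}

/-! ### Variants of the third Reidemeister move -/

/-- a crossing of either kind -/
def cr (s : Bool) (i : ℕ) : Piece := ⟨if s then .pos else .neg, i⟩

theorem strands_cr (s : Bool) (i n : ℕ) (h : i + 2 ≤ n) : strands [cr s i] n = some n := by
  cases s
  · exact strands_neg i n h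
  · exact strands_pos i n h

theorem eqv_cr (hΛ : Reg Λ) (s : Bool) (i n : ℕ) (h : i + 2 ≤ n) :
    EqvW Λ n n [cr s i, cr (!s) i] [] := by
  cases s
  · exact eqv_r2' hΛ i n h
  · exact eqv_r2 hΛ i n h

theorem eqv_cr' (hΛ : Reg Λ) (s : Bool) (i n : ℕ) (h : i + 2 ≤ n) :
    EqvW Λ n n [cr (!s) i, cr s i] [] := by
  cases s
  · exact eqv_r2 hΛ i n h
  · exact eqv_r2' hΛ i n h

/-- If `x ++ [a]` and `[b] ++ y` agree, then `[b⁻¹] ++ x` and `y ++ [a⁻¹]` agree. -/
theorem eqv_turn (hΛ : Reg Λ) (s t : Bool) (i j : ℕ) (hi : i + 2 ≤ n) (hj : j + 2 ≤ n)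
    (hx : strands x n = some n) (hy : strands y n = some n)
    (h : EqvW Λ n n (x ++ [cr s i]) ([cr t j] ++ y)) :
    EqvW Λ n n ([cr (!t) j] ++ x) (y ++ [cr (!s) i]) := by
  have hjj := strands_cr (!t) j n hj
  have hii := strands_cr (!s) i n hi
  have h1 := (((eqv_cr hΛ s i n hi).symm.append_left hx).append_left hjj)
  have h2 := (h.append_left hjj).append_right hii
  have h3 := (eqv_cr' hΛ t j n hj).append_right (strands_append_some hy hii)
  refine EqvW.trans (y := [cr (!t) j] ++ (x ++ [cr s i, cr (!s) i])) (by simpa using h1)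
    (EqvW.trans (y := [cr (!t) j] ++ ([cr t j] ++ y) ++ [cr (!s) i]) (by simpa using h2)
    (by simpa using h3))

/-- All variants of the third Reidemeister move. -/
theorem eqv_r3_all (hΛ : Reg Λ) (s t r : Bool) (i n : ℕ) (h : i + 3 ≤ n)
    (hs : ¬ (s = r ∧ s ≠ t)) :
    EqvW Λ n n [cr s i, cr t (i + 1), cr r i] [cr r (i + 1), cr t i, cr s (i + 1)] := by
  have st : ∀ (s t : Bool) (i j : ℕ), i + 2 ≤ n → j + 2 ≤ n →
      strands [cr s i, cr t j] n = some n := by
    intro s t i j hi hj
    exact strands_append_some (u := [cr s i]) (strands_cr s i n hi) (strands_cr t j n hj)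
  have h1 : EqvW Λ n n [cr true i, cr true (i + 1), cr true i]
      [cr true (i + 1), cr true i, cr true (i + 1)] := eqv_r3 hΛ i n h
  -- `a b A = B a b`
  have h2 := (eqv_turn hΛ true true (i + 1) i (by omega) (by omega)
    (st true true (i + 1) i (by omega) (by omega)) (st true true (i + 1) i (by omega) (by omega))
    (x := [cr true (i + 1), cr true i]) (y := [cr true (i + 1), cr true i])
    (by simpa using h1.symm))
  have h3 := (eqv_turn hΛ true true i (i + 1) (by omega) (by omega)
    (st true true i (i + 1) (by omega) (by omega)) (st true true i (i + 1) (by omega) (by omega))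
    (x := [cr true i, cr true (i + 1)]) (y := [cr true i, cr true (i + 1)])
    (by simpa using h1))
  simp only [Bool.not_true, List.cons_append, List.nil_append] at h2 h3
  -- h2 : A b a = b a B,  h3 : B a b = a b A
  have h4 := eqv_turn hΛ true true i (i + 1) (by omega) (by omega)
    (st false true i (i + 1) (by omega) (by omega)) (st true false i (i + 1) (by omega) (by omega))
    (x := [cr false i, cr true (i + 1)]) (y := [cr true i, cr false (i + 1)])
    (by simpa using h2)
  have h5 := eqv_turn hΛ true true (i + 1) i (by omega) (by omega)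
    (st false true (i + 1) i (by omega) (by omega)) (st true false (i + 1) i (by omega) (by omega))
    (x := [cr false (i + 1), cr true i]) (y := [cr true (i + 1), cr false i])
    (by simpa using h3)
  simp only [Bool.not_true, List.cons_append, List.nil_append] at h4 h5
  -- h4 : B A b = a B A, h5 : A B a = b A B
  have h6 := eqv_turn hΛ true true i (i + 1) (by omega) (by omega)
    (st false false i (i + 1) (by omega) (by omega))
    (st false false i (i + 1) (by omega) (by omega))
    (x := [cr false i, cr false (i + 1)]) (y := [cr false i, cr false (i + 1)])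
    (by simpa using h5)
  simp only [Bool.not_true, List.cons_append, List.nil_append] at h6
  -- h6 : B A B = A B A
  cases s <;> cases t <;> cases r
  · exact h6.symm
  · exact h5
  · exact absurd ⟨rfl, by simp⟩ hs
  · exact h2
  · exact h4.symm
  · exact absurd ⟨rfl, by simp⟩ hs
  · exact h3.symm
  · exact h1

/-! ### Isotopies -/

open Classical in
/-- the indicator function of an isotopy class -/
noncomputable def isoInd (D₀ D : List Piece) : Laur := if Isotopic D D₀ then 1 else 0

theorem reg_isoInd (D₀ : List Piece) : Reg (isoInd D₀) := by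
  intro D D' h
  have h1 : Isotopic D D' := Relation.EqvGen.rel _ _
    ⟨h.1, h.2.1, by
      obtain ⟨u, l, r, v, hm, e1, e2⟩ := h.2.2
      exact ⟨u, l, r, v, Or.inl hm, e1, e2⟩⟩
  have h2 : Isotopic D D₀ ↔ Isotopic D' D₀ :=
    ⟨fun h => (Relation.EqvGen.symm _ _ h1).trans _ _ _ h, fun h => h1.trans _ _ _ h⟩
  unfold isoInd
  by_cases h3 : Isotopic D' D₀
  · rw [if_pos h3, if_pos (h2.2 h3)]
  · rw [if_neg h3, if_neg fun h => h3 (h2.1 h)]

theorem isotopic_of_eqv (h : ∀ Λ : List Piece → Laur, Reg Λ → EqvW Λ n m x y)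
    (pre C : List Piece) (hC : C ≠ []) (h1 : strands pre 0 = some n)
    (h2 : strands C m = some 0) : Isotopic (pre ++ x ++ C) (pre ++ y ++ C) := by
  have h3 := (h _ (reg_isoInd (pre ++ y ++ C))).val pre C hC h1 h2
  have h4 : isoInd (pre ++ y ++ C) (pre ++ y ++ C) = 1 := by
    rw [isoInd, if_pos]
    exact Relation.EqvGen.refl _
  rw [h4, isoInd] at h3
  by_contra hcon
  rw [if_neg hcon] at h3
  exact zero_ne_one h3

/-! ### Codes for moves -/

/-- Codes for the moves. -/
inductive Code
  | far (a b : Kind) (i k : ℕ)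
  | zigR (i : ℕ)
  | zigL (i : ℕ)
  | rotCup (s : Bool) (i : ℕ)
  | rotCap (s : Bool) (i : ℕ)
  | r2 (s : Bool) (i : ℕ)
  | r3 (s t r : Bool) (i : ℕ)
  | curlCap (s : Bool) (i : ℕ)
  | curlCup (s : Bool) (i : ℕ)

/-- the left side of a move -/
def Code.lhs : Code → List Piece
  | far a b i k => [⟨a, i⟩, ⟨b, i + a.out + k⟩]
  | zigR i => [cup i, cap (i + 1)]
  | zigL i => [cup (i + 1), cap i]
  | rotCup s i => [cup i, cr s (i + 1)]
  | rotCap s i => [cr s (i + 1), cap i]
  | r2 s i => [cr s i, cr (!s) i]
  | r3 s t r i => [cr s i, cr t (i + 1), cr r i]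
  | curlCap s i => [cr s i, cap i]
  | curlCup s i => [cup i, cr s i]

/-- the right side of a move -/
def Code.rhs : Code → List Piece
  | far a b i k => [⟨b, i + a.inn + k⟩, ⟨a, i⟩]
  | zigR _ => []
  | zigL _ => []
  | rotCup s i => [cup (i + 1), cr (!s) i]
  | rotCap s i => [cr (!s) i, cap (i + 1)]
  | r2 _ _ => []
  | r3 s t r i => [cr r (i + 1), cr t i, cr s (i + 1)]
  | curlCap _ i => [cap i]
  | curlCup _ i => [cup i]

/-- which codes are admissible -/
def Code.good : Code → Bool
  | r3 s t r _ => !(s == r && s != t)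
  | _ => true

theorem strands_some_append {u v : List Piece} {n k : ℕ} (h : strands (u ++ v) n = some k) :
    ∃ m, strands u n = some m ∧ strands v m = some k := by
  rw [strands_append] at h
  simpa [Option.bind_eq_some_iff] using h

theorem isotopic_code (c : Code) (hc : c.good = true) (pre C : List Piece)
    (h1 : IsDiagram (pre ++ c.lhs ++ C)) (h2 : IsDiagram (pre ++ c.rhs ++ C)) :
    Isotopic (pre ++ c.lhs ++ C) (pre ++ c.rhs ++ C) := by
  have key : ∀ l r : List Piece, RegularMove l r ∨ CurlMove l r →
      IsDiagram (pre ++ l ++ C) → IsDiagram (pre ++ r ++ C) →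
      Isotopic (pre ++ l ++ C) (pre ++ r ++ C) := fun l r h h1 h2 =>
    Relation.EqvGen.rel _ _ ⟨h1, h2, pre, l, r, C, h, rfl, rfl⟩
  cases c with
  | far a b i k => exact key _ _ (Or.inl (.far a b i k)) h1 h2
  | zigR i => exact key _ _ (Or.inl (.straighten_right i)) h1 h2
  | zigL i => exact key _ _ (Or.inl (.straighten_left i)) h1 h2
  | rotCup s i =>
    cases s
    · exact key _ _ (Or.inl (.rotate_cup_neg i)) h1 h2
    · exact key _ _ (Or.inl (.rotate_cup_pos i)) h1 h2
  | rotCap s i =>
    cases s
    · exact key _ _ (Or.inl (.rotate_cap_neg i)) h1 h2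
    · exact key _ _ (Or.inl (.rotate_cap_pos i)) h1 h2
  | r2 s i =>
    cases s
    · exact key _ _ (Or.inl (.reidemeister_two' i)) h1 h2
    · exact key _ _ (Or.inl (.reidemeister_two i)) h1 h2
  | r3 s t r i =>
    obtain ⟨m, hm, hC⟩ := strands_some_append h1.2
    obtain ⟨n, hn, hx⟩ := strands_some_append hm
    have hin : i + 3 ≤ n ∧ m = n := by
      simp only [Code.lhs, strands, cr] at hx
      cases s <;> cases t <;> cases r <;> simp [Kind.inn, Kind.out] at hx <;> omega
    obtain ⟨hin, rfl⟩ := hin
    have hC' : C ≠ [] := by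
      rintro rfl
      simp only [strands, Option.some.injEq] at hC
      omega
    exact isotopic_of_eqv (fun Λ hΛ => eqv_r3_all hΛ s t r i m hin (by
      rintro ⟨h3, h4⟩
      simp [Code.good, h3] at hc
      exact h4 (h3.trans hc))) pre C hC' hn hC
  | curlCap s i =>
    cases s
    · exact key _ _ (Or.inr (.cap_neg i)) h1 h2
    · exact key _ _ (Or.inr (.cap_pos i)) h1 h2
  | curlCup s i =>
    cases s
    · exact key _ _ (Or.inr (.cup_neg i)) h1 h2
    · exact key _ _ (Or.inr (.cup_pos i)) h1 h2

/-- Boolean test for being a diagram. -/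
def diag (D : List Piece) : Bool := D != [] && strands D 0 == some 0

theorem diag_iff (D : List Piece) : diag D = true ↔ IsDiagram D := by
  simp [diag, IsDiagram]

/-- one step of a path: position, code, direction -/
def stepTo (D : List Piece) (s : ℕ × Code × Bool) : Option (List Piece) :=
  let l := if s.2.2 then s.2.1.lhs else s.2.1.rhs
  let r := if s.2.2 then s.2.1.rhs else s.2.1.lhs
  let D' := D.take s.1 ++ r ++ D.drop (s.1 + l.length)
  if (D.take s.1 ++ l ++ D.drop (s.1 + l.length) == D && diag D' && s.2.1.good) then some D'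
  else none

theorem isotopic_stepTo {D D' : List Piece} {s : ℕ × Code × Bool} (h : stepTo D s = some D')
    (hD : IsDiagram D) : Isotopic D D' ∧ IsDiagram D' := by
  obtain ⟨p, c, d⟩ := s
  rw [stepTo] at h
  dsimp only at h
  split_ifs at h with hd h1 h1
  · simp only [Option.some.injEq] at h
    simp only [Bool.and_eq_true, beq_iff_eq, diag_iff] at h1
    obtain ⟨⟨h1, h2⟩, h3⟩ := h1
    rw [h] at h2
    refine ⟨?_, h2⟩
    have := isotopic_code c h3 (D.take p) (D.drop (p + c.lhs.length))
      (by rw [h1]; exact hD) (by rw [h]; exact h2)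
    rw [h1, h] at this
    exact this
  · simp only [Option.some.injEq] at h
    simp only [Bool.and_eq_true, beq_iff_eq, diag_iff] at h1
    obtain ⟨⟨h1, h2⟩, h3⟩ := h1
    rw [h] at h2
    refine ⟨?_, h2⟩
    have := isotopic_code c h3 (D.take p) (D.drop (p + c.rhs.length))
      (by rw [h]; exact h2) (by rw [h1]; exact hD)
    rw [h1, h] at this
    exact Relation.EqvGen.symm _ _ this

/-- follow a path -/
def follow (D : List Piece) : List (ℕ × Code × Bool) → Option (List Piece)
  | [] => some D
  | s :: p => match stepTo D s with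
    | some D' => follow D' p
    | none => none

theorem isotopic_follow {p : List (ℕ × Code × Bool)} {D D' : List Piece}
    (h : follow D p = some D') (hD : IsDiagram D) : Isotopic D D' := by
  induction p generalizing D with
  | nil =>
    simp only [follow, Option.some.injEq] at h
    rw [h]; exact Relation.EqvGen.refl _
  | cons s p ih =>
    rw [follow] at h
    split at h
    · rename_i D₁ hD₁
      have := isotopic_stepTo hD₁ hD
      exact this.1.trans _ _ _ (ih h this.2)
    · simp at h

end Pool.Agent.Helper79.Sliced
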