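import Pool.Agent.Helper79.SlicedSound
import Pool.Agent.Helper79.SlicedPath

/-!
Coefficients of the computed polynomials and orientations of sliced diagrams.
-/

set_option autoImplicit false

namespace Pool.Agent.Helper79.Sliced

open LaurentPolynomial

theorem coeff_C_mul_T {R : Type} [Semiring R] (r : R) (n m : ℤ) :
    (C r * T n : LaurentPolynomial R).coeff m = if n = m then r else 0 := by
  rw [← single_eq_C_mul_T, AddMonoidAlgebra.coeff_single, Finsupp.single_apply]

/-- coefficient lookup -/
def look (i j : ℤ) : Poly → ℤ
  | [] => 0
  | t :: P => (if t.1 = i ∧ t.2.1 = j then t.2.2 else 0) + look i j P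

theorem coeff_pev (P : Poly) (i j : ℤ) : ((pev P).coeff i).coeff j = look i j P := by
  induction P with
  | nil => simp [look]
  | cons t P ih =>
    rw [pev_cons, AddMonoidAlgebra.coeff_add, Finsupp.add_apply, AddMonoidAlgebra.coeff_add,
      Finsupp.add_apply, ih, look]
    congr 1
    rw [mono, coeff_C_mul_T]
    by_cases h : t.1 = i
    · rw [if_pos h, coeff_C_mul_T]
      simp [h]
    · rw [if_neg h, if_neg fun h' => h h'.1]
      simp

theorem exists_of_coeff_pev {P : Poly} {i : ℤ} (h : (pev P).coeff i ≠ 0) :
    ∃ t ∈ P, t.1 = i := by
  induction P with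
  | nil => simp at h
  | cons t P ih =>
    by_cases ht : t.1 = i
    · exact ⟨t, List.mem_cons_self, ht⟩
    · have h1 : (pev P).coeff i ≠ 0 := by
        rw [pev_cons, AddMonoidAlgebra.coeff_add, Finsupp.add_apply, mono, coeff_C_mul_T,
          if_neg ht, zero_add] at h
        exact h
      obtain ⟨t', ht', h2⟩ := ih h1
      exact ⟨t', List.mem_cons_of_mem _ ht', h2⟩

/-- the substitution which passes from `Λ(a, z)` to `F(a⁻¹, z)` -/
def turn (w : ℤ) (P : Poly) : Poly := P.map fun t => (w - t.1, t.2.1, t.2.2)

theorem invert_pev (w : ℤ) (P : Poly) : invert (T (-w) * pev P) = pev (turn w P) := by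
  induction P with
  | nil => simp [turn]
  | cons t P ih =>
    have e : turn w (t :: P) = (w - t.1, t.2.1, t.2.2) :: turn w P := rfl
    rw [e, pev_cons, pev_cons, mul_add, map_add, ih]
    congr 1
    simp only [mono, map_mul, invert_T, invert_C, neg_neg]
    rw [sub_eq_add_neg, T_add]
    ring

/-- least exponent of the computed polynomial -/
theorem isMinDegInv_of {Λ : List Piece → Laur} {D : List Piece} {w m j : ℤ} {P : Poly}
    (h : Λ D = pev P) (h1 : ∀ t ∈ turn w P, m ≤ t.1) (h2 : look m j (turn w P) ≠ 0) :
    IsMinDegInv (kauffmanF Λ D w) m := by
  rw [IsMinDegInv, kauffmanF, h, invert_pev]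
  refine ⟨?_, ?_⟩
  · intro h3
    apply h2
    rw [← coeff_pev, h3]
    simp
  · intro i hi
    obtain ⟨t, ht, rfl⟩ := exists_of_coeff_pev hi
    exact h1 t ht

/-- the number of minima -/
def cups : List Piece → ℕ
  | [] => 0
  | p :: w => (if p.kind = .cup then 1 else 0) + cups w

theorem length_of_writheOf (w : List Piece) (o s : List Bool)
    (h : (writheOf w o s).isSome = true) : o.length = cups w := by
  induction w generalizing o s with
  | nil =>
    cases o with
    | nil => rfl
    | cons b o => simp [writheOf] at h
  | cons p w ih =>
    obtain ⟨g, i⟩ := p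
    cases g with
    | cup =>
      cases o with
      | nil => simp [writheOf] at h
      | cons b o =>
        simp only [writheOf] at h
        split_ifs at h with h1
        · have := ih _ _ h
          simp [cups, this, add_comm]
        · simp at h
    | cap =>
      have h' := h
      simp only [writheOf] at h'
      split at h'
      · split_ifs at h' with h1
        · have := ih _ _ h'
          simp [cups, this]
        · simp at h'
      · simp at h'
    | pos =>
      have h' := h
      simp only [writheOf] at h'
      split at h'
      · rw [Option.isSome_map] at h'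
        have := ih _ _ h'
        simp [cups, this]
      · simp at h'
    | neg =>
      have h' := h
      simp only [writheOf] at h'
      split at h'
      · rw [Option.isSome_map] at h'
        have := ih _ _ h'
        simp [cups, this]
      · simp at h'

end Pool.Agent.Helper79.Sliced
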