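import Mathlib

/-!
# Sliced link diagrams, unknotting number and the Kauffman polynomial

A link diagram in the plane in general position with respect to the height function is cut by
horizontal lines into elementary pieces: local minima (`cup`), local maxima (`cap`) and the two
kinds of crossings (`pos`, `neg`).  Reading upwards, a diagram is the list of these pieces, each
with the number of strands lying to its left.

Two such lists represent isotopic links exactly when they are related by the elementary moves
below (height exchange of distant pieces, straightening of a strand, rotation of a crossing next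
to a minimum or a maximum, and the Reidemeister moves).
-/

set_option autoImplicit false

namespace Pool.Agent.Helper79.Sliced

/-- The four kinds of elementary pieces.  `cup` is a local minimum, `cap` is a local maximum.
`pos` and `neg` are crossings of two neighbouring strands: in `pos` the strand going from the
bottom left to the top right passes over, in `neg` it passes under. -/
inductive Kind
  | cup | cap | pos | neg
  deriving DecidableEq

/-- How many strands a piece meets from below. -/
def Kind.inn : Kind → ℕ
  | .cup => 0
  | .cap => 2
  | .pos => 2
  | .neg => 2

/-- How many strands leave a piece upwards. -/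
def Kind.out : Kind → ℕ
  | .cup => 2
  | .cap => 0
  | .pos => 2
  | .neg => 2

/-- A piece placed to the right of `idx` vertical strands. -/
structure Piece where
  kind : Kind
  idx : ℕ
  deriving DecidableEq

/-- A local minimum to the right of `i` strands. -/
def cup (i : ℕ) : Piece := ⟨.cup, i⟩
/-- A local maximum to the right of `i` strands. -/
def cap (i : ℕ) : Piece := ⟨.cap, i⟩
/-- A crossing to the right of `i` strands, the strand from bottom left to top right is over. -/
def pos (i : ℕ) : Piece := ⟨.pos, i⟩
/-- A crossing to the right of `i` strands, the strand from bottom left to top right is under. -/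
def neg (i : ℕ) : Piece := ⟨.neg, i⟩

/-- `strands w n` is the number of strands at the top of the list of pieces `w` (read upwards),
when there are `n` strands at its bottom; it is `none` if some piece does not fit. -/
def strands : List Piece → ℕ → Option ℕ
  | [], n => some n
  | p :: w, n =>
    if p.idx + p.kind.inn ≤ n then strands w (n - p.kind.inn + p.kind.out) else none

/-- A (nonempty) link diagram: all pieces fit, no strands at the bottom and none at the top. -/
def IsDiagram (D : List Piece) : Prop := D ≠ [] ∧ strands D 0 = some 0

/-- Orientations and writhe.  An orientation of a diagram is given by a list `o` of Booleans, one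
for each local minimum in the order of the list (`true` if the left leg of the minimum is oriented
upwards).  The state `s` records for the strands at the current level, from left to right, whether
they are oriented upwards.  The function returns `none` if the orientation is not consistent (the
two legs of a local maximum must be oriented oppositely), and otherwise the sum of the signs of
the crossings. -/
def writheOf : List Piece → List Bool → List Bool → Option ℤ
  | [], [], [] => some 0
  | ⟨.cup, i⟩ :: w, b :: o, s =>
    if i ≤ s.length then writheOf w o (s.take i ++ b :: (!b) :: s.drop i) else none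
  | ⟨.cap, i⟩ :: w, o, s =>
    match s.drop i with
    | x :: y :: t => if x ≠ y then writheOf w o (s.take i ++ t) else none
    | _ => none
  | ⟨.pos, i⟩ :: w, o, s =>
    match s.drop i with
    | x :: y :: t =>
      (writheOf w o (s.take i ++ y :: x :: t)).map (fun v => (if x = y then 1 else -1) + v)
    | _ => none
  | ⟨.neg, i⟩ :: w, o, s =>
    match s.drop i with
    | x :: y :: t =>
      (writheOf w o (s.take i ++ y :: x :: t)).map (fun v => (if x = y then -1 else 1) + v)
    | _ => none
  | _, _, _ => none

/-- A knot diagram: a diagram with exactly two orientations (a diagram of a link with `c`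
components has `2 ^ c` orientations). -/
def IsKnotDiagram (D : List Piece) : Prop :=
  IsDiagram D ∧ {o : List Bool | (writheOf D o []).isSome = true}.ncard = 2

/-- `w` is the writhe of `D` for some orientation of `D` (for a knot diagram both orientations
give the same number). -/
def HasWrithe (D : List Piece) (w : ℤ) : Prop := ∃ o : List Bool, writheOf D o [] = some w

/-- The elementary moves of regular isotopy (planar isotopy and Reidemeister moves II, III). -/
inductive RegularMove : List Piece → List Piece → Prop
  /-- two pieces side by side may be exchanged in height -/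
  | far (a b : Kind) (i k : ℕ) :
      RegularMove [⟨a, i⟩, ⟨b, i + a.out + k⟩] [⟨b, i + a.inn + k⟩, ⟨a, i⟩]
  | straighten_right (i : ℕ) : RegularMove [cup i, cap (i + 1)] []
  | straighten_left (i : ℕ) : RegularMove [cup (i + 1), cap i] []
  | rotate_cup_pos (i : ℕ) : RegularMove [cup i, pos (i + 1)] [cup (i + 1), neg i]
  | rotate_cup_neg (i : ℕ) : RegularMove [cup i, neg (i + 1)] [cup (i + 1), pos i]
  | rotate_cap_pos (i : ℕ) : RegularMove [pos (i + 1), cap i] [neg i, cap (i + 1)]
  | rotate_cap_neg (i : ℕ) : RegularMove [neg (i + 1), cap i] [pos i, cap (i + 1)]
  | reidemeister_two (i : ℕ) : RegularMove [pos i, neg i] []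
  | reidemeister_two' (i : ℕ) : RegularMove [neg i, pos i] []
  | reidemeister_three (i : ℕ) :
      RegularMove [pos i, pos (i + 1), pos i] [pos (i + 1), pos i, pos (i + 1)]

/-- Reidemeister move I: removal of a curl. -/
inductive CurlMove : List Piece → List Piece → Prop
  | cap_pos (i : ℕ) : CurlMove [pos i, cap i] [cap i]
  | cap_neg (i : ℕ) : CurlMove [neg i, cap i] [cap i]
  | cup_pos (i : ℕ) : CurlMove [cup i, pos i] [cup i]
  | cup_neg (i : ℕ) : CurlMove [cup i, neg i] [cup i]

/-- Apply a local move somewhere inside a diagram. -/
def Step (M : List Piece → List Piece → Prop) (D D' : List Piece) : Prop :=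
  IsDiagram D ∧ IsDiagram D' ∧
    ∃ u l r v : List Piece, M l r ∧ D = u ++ l ++ v ∧ D' = u ++ r ++ v

/-- Two diagrams represent isotopic links. -/
def Isotopic : List Piece → List Piece → Prop :=
  Relation.EqvGen (Step fun l r => RegularMove l r ∨ CurlMove l r)

/-- The crossingless circle. -/
def circle : List Piece := [cup 0, cap 0]

/-- `D'` is obtained from `D` by changing one crossing. -/
def CrossingChange (D D' : List Piece) : Prop :=
  IsDiagram D ∧ IsDiagram D' ∧ ∃ (u v : List Piece) (i : ℕ),
    (D = u ++ [pos i] ++ v ∧ D' = u ++ [neg i] ++ v) ∨
    (D = u ++ [neg i] ++ v ∧ D' = u ++ [pos i] ++ v)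

/-- `UnknottedBy n D`: the link of `D` can be turned into the unknot by `n` crossing changes,
with isotopies allowed before, between and after them. -/
inductive UnknottedBy : ℕ → List Piece → Prop
  | zero (D : List Piece) : Isotopic D circle → UnknottedBy 0 D
  | succ (n : ℕ) (D D₁ D₂ : List Piece) :
      Isotopic D D₁ → CrossingChange D₁ D₂ → UnknottedBy n D₂ → UnknottedBy (n + 1) D

/-- The unknotting number of the knot with diagram `D`. -/
noncomputable def unknottingNumber (D : List Piece) : ℕ := sInf {n : ℕ | UnknottedBy n D}

open LaurentPolynomial

/-- Laurent polynomials in `a` whose coefficients are Laurent polynomials in `z` over `ℤ`. -/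
abbrev Laur : Type := LaurentPolynomial (LaurentPolynomial ℤ)

/-- the variable `a` -/
noncomputable def va : Laur := T 1

/-- the inverse of the variable `a` -/
noncomputable def va' : Laur := T (-1)

/-- the variable `z` -/
noncomputable def vz : Laur := C (T 1)

/-- The rules which determine Kauffman's regular isotopy invariant of unoriented link
diagrams. A positive curl (crossing sign `+1`) is `neg` next to a maximum or minimum, since its
two strands are oppositely oriented; it multiplies the value by `a`. -/
structure IsKauffmanLambda (Λ : List Piece → Laur) : Prop where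
  circle : Λ circle = 1
  regular : ∀ D D' : List Piece, Step RegularMove D D' → Λ D = Λ D'
  positive_curl_cap : ∀ (u v : List Piece) (i : ℕ), IsDiagram (u ++ [cap i] ++ v) →
    Λ (u ++ [neg i, cap i] ++ v) = va * Λ (u ++ [cap i] ++ v)
  negative_curl_cap : ∀ (u v : List Piece) (i : ℕ), IsDiagram (u ++ [cap i] ++ v) →
    Λ (u ++ [pos i, cap i] ++ v) = va' * Λ (u ++ [cap i] ++ v)
  positive_curl_cup : ∀ (u v : List Piece) (i : ℕ), IsDiagram (u ++ [cup i] ++ v) →
    Λ (u ++ [cup i, neg i] ++ v) = va * Λ (u ++ [cup i] ++ v)
  negative_curl_cup : ∀ (u v : List Piece) (i : ℕ), IsDiagram (u ++ [cup i] ++ v) →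
    Λ (u ++ [cup i, pos i] ++ v) = va' * Λ (u ++ [cup i] ++ v)
  skein : ∀ (u v : List Piece) (i : ℕ), IsDiagram (u ++ [pos i] ++ v) →
    Λ (u ++ [pos i] ++ v) + Λ (u ++ [neg i] ++ v) =
      vz * (Λ (u ++ v) + Λ (u ++ [cap i, cup i] ++ v))

/-- `F_K(a, z) = a ^ (-w) Λ_D(a, z)` for a diagram `D` of `K` with writhe `w`. -/
noncomputable def kauffmanF (Λ : List Piece → Laur) (D : List Piece) (w : ℤ) : Laur :=
  T (-w) * Λ D

/-- `m` is the least exponent of `a` in `F(a⁻¹, z)`. -/
def IsMinDegInv (F : Laur) (m : ℤ) : Prop :=
  IsLeast {j : ℤ | (invert F).coeff j ≠ 0} m

end Pool.Agent.Helper79.Sliced
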