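import Pool.Agent.Helper79.SlicedRules

/-!
An algorithm which computes the value of a Kauffman invariant on a sliced diagram, and its
correctness.
-/

set_option autoImplicit false

namespace Pool.Agent.Helper79.Sliced

open LaurentPolynomial

/-! ### Polynomials -/

/-- a list of triples `(i, j, c)` meaning the sum of the monomials `c a ^ i z ^ j` -/
abbrev Poly : Type := List (ℤ × ℤ × ℤ)

/-- the monomial of a triple -/
noncomputable def mono (t : ℤ × ℤ × ℤ) : Laur := C (C t.2.2 * T t.2.1) * T t.1

/-- the value of a list of triples -/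
noncomputable def pev (P : Poly) : Laur := (P.map mono).sum

@[simp] theorem pev_nil : pev [] = 0 := rfl
@[simp] theorem pev_cons (t : ℤ × ℤ × ℤ) (P : Poly) : pev (t :: P) = mono t + pev P := by
  simp [pev]

/-- inner loop of addition -/
def pinner (p : ℤ × ℤ × ℤ) (P : Poly) (f : Poly → Poly) : Poly → Poly
  | [] => p :: P
  | q :: Q =>
    if p.1 = q.1 then
      if p.2.1 = q.2.1 then
        if p.2.2 + q.2.2 = 0 then f Q else (p.1, p.2.1, p.2.2 + q.2.2) :: f Q
      else if p.2.1 < q.2.1 then p :: f (q :: Q) else q :: pinner p P f Q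
    else if p.1 < q.1 then p :: f (q :: Q) else q :: pinner p P f Q

/-- addition -/
def padd : Poly → Poly → Poly
  | [] => fun Q => Q
  | p :: P => pinner p P (padd P)

theorem mono_add (i j c d : ℤ) : mono (i, j, c + d) = mono (i, j, c) + mono (i, j, d) := by
  simp [mono, add_mul]

theorem mono_zero (i j : ℤ) : mono (i, j, 0) = 0 := by simp [mono]

theorem pev_pinner (p : ℤ × ℤ × ℤ) (P : Poly) (f : Poly → Poly)
    (hf : ∀ R, pev (f R) = pev P + pev R) (Q : Poly) :
    pev (pinner p P f Q) = mono p + pev P + pev Q := by
  induction Q with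
  | nil => simp [pinner]
  | cons q Q ih =>
    obtain ⟨i, j, c⟩ := p
    obtain ⟨i', j', d⟩ := q
    simp only [pinner]
    split_ifs with h1 h2 h3 h4 h5
    · subst h1; subst h2
      have e : mono (i, j, c) + mono (i, j, d) = 0 := by rw [← mono_add, h3, mono_zero]
      rw [hf, pev_cons]
      linear_combination -e
    · subst h1; subst h2
      rw [pev_cons, hf, pev_cons, mono_add]
      ring
    · rw [pev_cons, hf]; ring
    · rw [pev_cons, ih, pev_cons]; ring
    · rw [pev_cons, hf]; ring
    · rw [pev_cons, ih, pev_cons]; ring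

theorem pev_padd (P Q : Poly) : pev (padd P Q) = pev P + pev Q := by
  induction P generalizing Q with
  | nil => simp [padd]
  | cons p P ih =>
    rw [padd, pev_pinner _ _ _ ih, pev_cons]

/-- multiplication by a monomial -/
def pmulm (t : ℤ × ℤ × ℤ) (Q : Poly) : Poly :=
  Q.map fun q => (t.1 + q.1, t.2.1 + q.2.1, t.2.2 * q.2.2)

theorem mono_mul (t q : ℤ × ℤ × ℤ) :
    mono (t.1 + q.1, t.2.1 + q.2.1, t.2.2 * q.2.2) = mono t * mono q := by
  simp only [mono, T_add, map_mul]
  ring

theorem pev_pmulm (t : ℤ × ℤ × ℤ) (Q : Poly) : pev (pmulm t Q) = mono t * pev Q := by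
  induction Q with
  | nil => simp [pmulm]
  | cons q Q ih =>
    have : pmulm t (q :: Q) = (t.1 + q.1, t.2.1 + q.2.1, t.2.2 * q.2.2) :: pmulm t Q := rfl
    rw [this, pev_cons, pev_cons, ih, mono_mul]
    ring

/-- multiplication -/
def pmul : Poly → Poly → Poly
  | [], _ => []
  | t :: P, Q => padd (pmulm t Q) (pmul P Q)

theorem pev_pmul (P Q : Poly) : pev (pmul P Q) = pev P * pev Q := by
  induction P with
  | nil => simp [pmul]
  | cons t P ih => rw [pmul, pev_padd, pev_pmulm, ih, pev_cons]; ring

/-! ### Linear combinations of basis words -/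

/-- a formal linear combination of lists of numbers -/
abbrev Vec : Type := List (List ℕ × Poly)

variable {S : Type} [CommRing S] (φ : Laur →+* S)

/-- linear extension of a function to linear combinations -/
noncomputable def vev (f : List ℕ → S) (v : Vec) : S := (v.map fun e => φ (pev e.2) * f e.1).sum

@[simp] theorem vev_nil (f : List ℕ → S) : vev φ f [] = 0 := rfl
@[simp] theorem vev_cons (f : List ℕ → S) (e : List ℕ × Poly) (v : Vec) :
    vev φ f (e :: v) = φ (pev e.2) * f e.1 + vev φ f v := by simp [vev]

/-- add one term -/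
def vins (ks : List ℕ) (P : Poly) : Vec → Vec
  | [] => [(ks, P)]
  | e :: v => if ks = e.1 then (ks, padd P e.2) :: v else e :: vins ks P v

theorem vev_vins (f : List ℕ → S) (ks : List ℕ) (P : Poly) (v : Vec) :
    vev φ f (vins ks P v) = φ (pev P) * f ks + vev φ f v := by
  induction v with
  | nil => simp [vins]
  | cons e v ih =>
    rw [vins]
    split_ifs with h
    · rw [vev_cons, vev_cons, pev_padd, h, map_add]; ring
    · rw [vev_cons, ih, vev_cons]; ring

theorem keys_vins {p : List ℕ → Prop} {ks : List ℕ} {P : Poly} {v : Vec} (h : p ks)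
    (hv : ∀ e ∈ v, p e.1) : ∀ e ∈ vins ks P v, p e.1 := by
  induction v with
  | nil => simpa [vins] using h
  | cons e v ih =>
    rw [vins]
    split_ifs with h'
    · intro e' he'
      simp only [List.mem_cons] at he'
      rcases he' with rfl | he'
      · exact h
      · exact hv _ (List.mem_cons_of_mem _ he')
    · intro e' he'
      simp only [List.mem_cons] at he'
      rcases he' with rfl | he'
      · exact hv _ List.mem_cons_self
      · exact ih (fun e he => hv e (List.mem_cons_of_mem _ he)) e' he'

/-- sum -/
def vadd : Vec → Vec → Vec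
  | [], w => w
  | e :: v, w => vins e.1 e.2 (vadd v w)

theorem vev_vadd (f : List ℕ → S) (v w : Vec) : vev φ f (vadd v w) = vev φ f v + vev φ f w := by
  induction v with
  | nil => simp [vadd]
  | cons e v ih => rw [vadd, vev_vins, ih, vev_cons]; ring

theorem keys_vadd {p : List ℕ → Prop} {v w : Vec} (hv : ∀ e ∈ v, p e.1) (hw : ∀ e ∈ w, p e.1) :
    ∀ e ∈ vadd v w, p e.1 := by
  induction v with
  | nil => exact hw
  | cons e v ih =>
    rw [vadd]
    exact keys_vins (hv _ List.mem_cons_self) (ih fun e he => hv e (List.mem_cons_of_mem _ he))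

/-- multiple -/
def vsmul (P : Poly) (v : Vec) : Vec := v.map fun e => (e.1, pmul P e.2)

theorem vev_vsmul (f : List ℕ → S) (P : Poly) (v : Vec) :
    vev φ f (vsmul P v) = φ (pev P) * vev φ f v := by
  induction v with
  | nil => simp [vsmul]
  | cons e v ih =>
    have : vsmul P (e :: v) = (e.1, pmul P e.2) :: vsmul P v := rfl
    rw [this, vev_cons, vev_cons, ih, pev_pmul, map_mul]
    ring

theorem keys_vsmul {p : List ℕ → Prop} {P : Poly} {v : Vec} (hv : ∀ e ∈ v, p e.1) :
    ∀ e ∈ vsmul P v, p e.1 := by
  intro e he
  simp only [vsmul, List.mem_map] at he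
  obtain ⟨e', he', rfl⟩ := he
  exact hv e' he'

/-- add an element in front of every list -/
def vcons (κ : ℕ) (v : Vec) : Vec := v.map fun e => (κ :: e.1, e.2)

theorem vev_vcons (f : List ℕ → S) (κ : ℕ) (v : Vec) :
    vev φ f (vcons κ v) = vev φ (fun ks => f (κ :: ks)) v := by
  induction v with
  | nil => simp [vcons]
  | cons e v ih =>
    have : vcons κ (e :: v) = (κ :: e.1, e.2) :: vcons κ v := rfl
    rw [this, vev_cons, vev_cons, ih]

/-- linear extension of a map to linear combinations -/
def vbind (g : List ℕ → Option Vec) : Vec → Option Vec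
  | [] => some []
  | e :: v => match g e.1, vbind g v with
    | some w, some acc => some (vadd (vsmul e.2 w) acc)
    | _, _ => none

/-! ### Basis words -/

/-- admissible lists -/
def ok : List ℕ → Prop
  | [] => True
  | κ :: ks => κ ≤ 2 * ks.length ∧ ok ks

/-- the word of a list -/
def bw : List ℕ → List Piece
  | [] => []
  | κ :: ks => bw ks ++ (cup 0 :: ups 1 κ)

theorem strands_cu {κ n : ℕ} (h : κ ≤ n) : strands (cup 0 :: ups 1 κ) n = some (n + 2) :=
  strands_append_some (u := [cup 0]) (strands_cup 0 n (by omega))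
    (strands_ups _ _ _ (by omega))

theorem strands_bw {ks : List ℕ} (h : ok ks) : strands (bw ks) 0 = some (2 * ks.length) := by
  induction ks with
  | nil => rfl
  | cons κ ks ih =>
    rw [bw]
    have := strands_append_some (ih h.2) (strands_cu h.1)
    rw [this, List.length_cons]
    congr 1

/-- The action of the word `x` on `c` times the basis word of `ks` gives the linear combination
`v`. -/
structure Holds (Λ : List Piece → S) (c : S) (ks : List ℕ) (x : List Piece) (m : ℕ) (v : Vec) :
    Prop where
  typed : strands x (2 * ks.length) = some m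
  keys : ∀ e ∈ v, ok e.1 ∧ 2 * e.1.length = m
  val : ∀ C : List Piece, C ≠ [] → strands C m = some 0 →
    c * Λ (bw ks ++ x ++ C) = vev φ (fun s => Λ (bw s ++ C)) v

variable {φ} {c : S} {Λ : List Piece → S} {n m k : ℕ} {x y : List Piece} {ks : List ℕ} {v w : Vec}

/-- the polynomial `1` -/
def pone : Poly := [(0, 0, 1)]

theorem pev_pone : pev pone = 1 := by simp [pone, mono]

theorem Holds.nil (h : ok ks) (P : Poly) :
    Holds φ Λ (φ (pev P)) ks [] (2 * ks.length) [(ks, P)] := by
  refine ⟨rfl, by simpa using h, ?_⟩
  intro C _ _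
  simp

theorem Holds.cong (h : Holds φ Λ c ks x m v) (hk : ok ks) (he : EqvW Λ (2 * ks.length) m x y) :
    Holds φ Λ c ks y m v :=
  ⟨he.right, h.keys, fun C hC hC' => by
    rw [← he.val (bw ks) C hC (strands_bw hk) hC']; exact h.val C hC hC'⟩

theorem Holds.cons {κ κ' : ℕ} (h : Holds φ Λ c ks x m v) (hk : ok (κ :: ks)) (hκ : κ' ≤ m)
    (he : EqvW Λ (2 * ks.length) (m + 2) (cup 0 :: ups 1 κ ++ y) (x ++ cup 0 :: ups 1 κ')) :
    Holds φ Λ c (κ :: ks) y (m + 2) (vcons κ' v) := by
  refine ⟨?_, ?_, ?_⟩
  · have h1 := he.left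
    rw [strands_append, strands_cu hk.1] at h1
    have e : 2 * (κ :: ks).length = 2 * ks.length + 2 := by simp [mul_add]
    rw [e]
    simpa using h1
  · intro e he'
    simp only [vcons, List.mem_map] at he'
    obtain ⟨e, he'', rfl⟩ := he'
    have := h.keys e he''
    refine ⟨⟨?_, this.1⟩, ?_⟩
    · show κ' ≤ 2 * e.1.length
      omega
    · simp only [List.length_cons]; omega
  · intro C hC hC'
    have h1 := he.val (bw ks) C hC (strands_bw hk.2) hC'
    have h2 := h.val ((cup 0 :: ups 1 κ') ++ C) (by simp) (strands_append_some (strands_cu hκ) hC')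
    rw [vev_vcons]
    simp only [bw, List.append_assoc, List.cons_append] at h1 h2 ⊢
    rw [h1, h2]

theorem Holds.bind (h : Holds φ Λ c ks x m v) (hy : strands y m = some k) {g : List ℕ → Option Vec}
    (hg : ∀ (s : List ℕ) (r : Vec), ok s → 2 * s.length = m → g s = some r → Holds φ Λ 1 s y k r)
    {r : Vec} (hr : vbind g v = some r) : Holds φ Λ c ks (x ++ y) k r := by
  refine ⟨strands_append_some h.typed hy, ?_, ?_⟩
  · have := h.keys
    clear h
    induction v generalizing r with
    | nil =>
      simp only [vbind, Option.some.injEq] at hr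
      subst hr; simp
    | cons e v ih =>
      rw [vbind] at hr
      split at hr
      · rename_i w acc hw hacc
        simp only [Option.some.injEq] at hr
        subst hr
        refine keys_vadd (p := fun s => ok s ∧ 2 * s.length = k) (keys_vsmul (p := fun s => ok s ∧ 2 * s.length = k) ?_)
          (ih hacc fun e he => this e (List.mem_cons_of_mem _ he))
        have h1 := this e List.mem_cons_self
        exact (hg e.1 w h1.1 h1.2 hw).keys
      · simp at hr
  · intro C hC hC'
    have h1 := h.val (y ++ C) (by simp [hC]) (strands_append_some hy hC')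
    have h2 : vev φ (fun s => Λ (bw s ++ (y ++ C))) v = vev φ (fun s => Λ (bw s ++ C)) r := by
      have := h.keys
      clear h h1
      induction v generalizing r with
      | nil =>
        simp only [vbind, Option.some.injEq] at hr
        subst hr; simp
      | cons e v ih =>
        rw [vbind] at hr
        split at hr
        · rename_i w acc hw hacc
          simp only [Option.some.injEq] at hr
          subst hr
          rw [vev_vadd, vev_vsmul, vev_cons, ih hacc fun e he => this e (List.mem_cons_of_mem _ he)]
          have h1 := this e List.mem_cons_self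
          have h3 := (hg e.1 w h1.1 h1.2 hw).val C hC hC'
          rw [List.append_assoc, one_mul] at h3
          rw [h3]
        · simp at hr
    rw [← h2, ← h1]
    simp [List.append_assoc]

/-! ### The algorithm -/

/-- let a word act on a linear combination -/
def run (A : Kind → ℕ → List ℕ → Option Vec) : List Piece → Vec → Option Vec
  | [], v => some v
  | p :: w, v => match vbind (A p.kind p.idx) v with
    | some v' => run A w v'
    | none => none

/-- the skein relation -/
def skeinV (A : Kind → ℕ → List ℕ → Option Vec) (i : ℕ) (ks : List ℕ) (base : Vec) :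
    Option Vec :=
  match run A [cap i, cup i] [(ks, [(0, 1, 1)])] with
  | some w => some (vadd (vsmul [(0, 0, -1)] base) (vins ks [(0, 1, 1)] w))
  | none => none

/-- one level of the recursion for a minimum -/
def actCup (A : Kind → ℕ → List ℕ → Option Vec) (i : ℕ) : List ℕ → Option Vec
  | [] => if i = 0 then some [([0], pone)] else none
  | κ :: ks =>
    if i = 0 then some [(0 :: κ :: ks, pone)]
    else if i ≤ κ + 1 then (A .cup (i - 1) ks).map (vcons (κ + 2))
    else (A .cup (i - 2) ks).map (vcons κ)

/-- one level of the recursion for a maximum -/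
def actCap (A : Kind → ℕ → List ℕ → Option Vec) (i : ℕ) : List ℕ → Option Vec
  | [] => none
  | κ :: ks =>
    if κ + 2 ≤ i then (A .cap (i - 2) ks).map (vcons κ)
    else if i = κ + 1 then run A (downs κ) [(ks, pone)]
    else if i = κ ∧ 1 ≤ κ then run A (downs (κ - 1)) [(ks, [(-1, 0, 1)])]
    else if 1 ≤ i then (A .cap (i - 1) ks).map (vcons (κ - 2))
    else if κ = 0 then some [(ks, [(-1, -1, 1), (0, 0, -1), (1, -1, 1)])]
    else run A (ups 0 (κ - 1)) [(ks, [(1, 0, 1)])]

/-- one level of the recursion for a crossing `pos` -/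
def actPos (A : Kind → ℕ → List ℕ → Option Vec) (i : ℕ) : List ℕ → Option Vec
  | [] => none
  | κ :: ks =>
    if κ + 2 ≤ i then (A .pos (i - 2) ks).map (vcons κ)
    else if i = κ + 1 then some [((κ + 1) :: ks, pone)]
    else if i = κ ∧ 1 ≤ κ then skeinV A i (κ :: ks) [((κ - 1) :: ks, pone)]
    else if 1 ≤ i then (A .pos (i - 1) ks).map (vcons κ)
    else if κ = 0 then some [(κ :: ks, [(-1, 0, 1)])]
    else match ks with
      | [] => none
      | l :: ls => if κ ≤ l + 1 then some [((l + 2) :: (κ - 1) :: ls, pone)]
        else skeinV A 0 (κ :: l :: ls) [((l + 1) :: (κ - 2) :: ls, pone)]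

/-- one level of the recursion for a crossing `neg` -/
def actNeg (A : Kind → ℕ → List ℕ → Option Vec) (i : ℕ) : List ℕ → Option Vec
  | [] => none
  | κ :: ks =>
    if κ + 2 ≤ i then (A .neg (i - 2) ks).map (vcons κ)
    else if i = κ + 1 then skeinV A i (κ :: ks) [((κ + 1) :: ks, pone)]
    else if i = κ ∧ 1 ≤ κ then some [((κ - 1) :: ks, pone)]
    else if 1 ≤ i then (A .neg (i - 1) ks).map (vcons κ)
    else if κ = 0 then some [(κ :: ks, [(1, 0, 1)])]
    else match ks with
      | [] => none
      | l :: ls => if κ ≤ l + 1 then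
          skeinV A 0 (κ :: l :: ls) [((l + 2) :: (κ - 1) :: ls, pone)]
        else some [((l + 1) :: (κ - 2) :: ls, pone)]

/-- one level of the recursion -/
def actStep (A : Kind → ℕ → List ℕ → Option Vec) : Kind → ℕ → List ℕ → Option Vec
  | .cup => actCup A
  | .cap => actCap A
  | .pos => actPos A
  | .neg => actNeg A

/-- the action of a piece on a basis word -/
def act : ℕ → Kind → ℕ → List ℕ → Option Vec
  | 0 => fun _ _ _ => none
  | f + 1 => actStep (act f)

end Pool.Agent.Helper79.Sliced
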