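import Mathlib

/-!
A Laurent polynomial with infinitely many zeros vanishes.
-/

set_option autoImplicit false

namespace Pool.Agent.Helper79.VModel

open LaurentPolynomial

variable {R K : Type} [CommRing R] [Field K]

theorem eval₂_map (f : R →+* K) (x : Kˣ) (P : LaurentPolynomial R) :
    eval₂ (RingHom.id K) x (AddMonoidAlgebra.mapRingHom ℤ f P) = eval₂ f x P := by
  induction P using LaurentPolynomial.induction_on' with
  | add p q hp hq => rw [map_add, map_add, map_add, hp, hq]
  | C_mul_T n r =>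
    rw [← single_eq_C_mul_T]
    have : AddMonoidAlgebra.mapRingHom ℤ f (AddMonoidAlgebra.single n r) =
        AddMonoidAlgebra.single n (f r) := by
      ext m
      rw [AddMonoidAlgebra.coeff_mapRingHom, AddMonoidAlgebra.coeff_single,
        AddMonoidAlgebra.coeff_single, Finsupp.single_apply, Finsupp.single_apply]
      split_ifs <;> simp
    rw [this, single_eq_C_mul_T, single_eq_C_mul_T, eval₂_C_mul_T, eval₂_C_mul_T]
    rfl

theorem eq_zero_of_infinite (P : LaurentPolynomial K)
    (h : {x : Kˣ | eval₂ (RingHom.id K) x P = 0}.Infinite) : P = 0 := by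
  obtain ⟨n, p, hp⟩ := P.exists_T_pow
  have h1 : p = 0 := by
    apply Polynomial.eq_zero_of_infinite_isRoot
    have h2 : ((fun x : Kˣ => (x : K)) '' {x : Kˣ | eval₂ (RingHom.id K) x P = 0}).Infinite :=
      h.image (fun x _ y _ hxy => Units.ext hxy)
    refine h2.mono ?_
    rintro _ ⟨x, hx, rfl⟩
    have h3 : eval₂ (RingHom.id K) x (Polynomial.toLaurent p) = 0 := by
      rw [hp, map_mul, hx, zero_mul]
    rw [eval₂_toLaurent] at h3
    exact h3
  rw [h1, map_zero] at hp
  have h4 : P * T n * T (-n) = 0 := by rw [← hp, zero_mul]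
  rwa [mul_T_assoc, add_neg_cancel, T_zero, mul_one] at h4

theorem coeff_zero_of_infinite (f : R →+* K) (P : LaurentPolynomial R)
    (h : {x : Kˣ | eval₂ f x P = 0}.Infinite) (i : ℤ) : f (P.coeff i) = 0 := by
  have h1 : AddMonoidAlgebra.mapRingHom ℤ f P = 0 := by
    apply eq_zero_of_infinite
    simpa only [eval₂_map] using h
  rw [← AddMonoidAlgebra.coeff_mapRingHom f P i, h1]
  rfl

/-- the complex number `i (q - q⁻¹)` as a unit -/
noncomputable def uz (q : ℝ) (hq : 1 < q) : ℂˣ :=
  Units.mk0 (Complex.I * ((q : ℂ) - (q : ℂ)⁻¹)) (by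
    have h0 : (0 : ℝ) < q := by linarith
    have h1 : q - q⁻¹ ≠ 0 := by
      have : q⁻¹ < 1 := inv_lt_one_of_one_lt₀ hq
      linarith
    have h2 : ((q : ℂ) - (q : ℂ)⁻¹) = ((q - q⁻¹ : ℝ) : ℂ) := by push_cast; ring
    rw [h2]
    exact mul_ne_zero Complex.I_ne_zero (by exact_mod_cast h1))

/-- the complex number `-i q ^ (2 k)` as a unit -/
noncomputable def ua (q : ℝ) (hq : 1 < q) (k : ℕ) : ℂˣ :=
  Units.mk0 (- Complex.I * (q : ℂ) ^ (2 * k)) (by
    have h0 : (q : ℂ) ≠ 0 := by
      have : q ≠ 0 := by linarith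
      exact_mod_cast this
    exact mul_ne_zero (neg_ne_zero.2 Complex.I_ne_zero) (pow_ne_zero _ h0))

/-- the specialisation `z = i (q - q⁻¹)` -/
noncomputable def phiz (q : ℝ) (hq : 1 < q) : LaurentPolynomial ℤ →+* ℂ :=
  eval₂ (Int.castRingHom ℂ) (uz q hq)

/-- the specialisation `z = i (q - q⁻¹)`, `a = -i q ^ (2 k)` -/
noncomputable def phi (q : ℝ) (hq : 1 < q) (k : ℕ) :
    LaurentPolynomial (LaurentPolynomial ℤ) →+* ℂ :=
  eval₂ (phiz q hq) (ua q hq k)

theorem eq_zero_of_phi (P : LaurentPolynomial (LaurentPolynomial ℤ))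
    (h : ∀ (q : ℝ) (hq : 1 < q) (k : ℕ), phi q hq k P = 0) : P = 0 := by
  have h1 : ∀ (q : ℝ) (hq : 1 < q) (i : ℤ), phiz q hq (P.coeff i) = 0 := by
    intro q hq i
    apply coeff_zero_of_infinite
    have h2 : (Set.range fun k : ℕ => ua q hq k).Infinite := by
      apply Set.infinite_range_of_injective
      intro k l hkl
      have h3 : (- Complex.I * (q : ℂ) ^ (2 * k)) = (- Complex.I * (q : ℂ) ^ (2 * l)) :=
        congrArg (fun u : ℂˣ => (u : ℂ)) hkl
      have h4 := mul_left_cancel₀ (neg_ne_zero.2 Complex.I_ne_zero) h3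
      have h5 : q ^ (2 * k) = q ^ (2 * l) := by exact_mod_cast h4
      have h6 := pow_right_injective₀ (by linarith) (by linarith) h5
      omega
    refine h2.mono ?_
    rintro _ ⟨k, rfl⟩
    exact h q hq k
  have h7 : ∀ i : ℤ, P.coeff i = 0 := by
    intro i
    have h8 : ∀ j : ℤ, (Int.castRingHom ℂ) ((P.coeff i).coeff j) = 0 := by
      intro j
      apply coeff_zero_of_infinite
      have h2 : (Set.range fun k : ℕ => uz (k + 2) (by
          have : (0 : ℝ) ≤ k := Nat.cast_nonneg k
          linarith)).Infinite := by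
        apply Set.infinite_range_of_injective
        intro k l hkl
        have h3 : (Complex.I * ((((k : ℝ) + 2 : ℝ) : ℂ) - (((k : ℝ) + 2 : ℝ) : ℂ)⁻¹)) =
            (Complex.I * ((((l : ℝ) + 2 : ℝ) : ℂ) - (((l : ℝ) + 2 : ℝ) : ℂ)⁻¹)) :=
          congrArg (fun u : ℂˣ => (u : ℂ)) hkl
        have h4 := mul_left_cancel₀ Complex.I_ne_zero h3
        have h5 : ((k : ℝ) + 2) - ((k : ℝ) + 2)⁻¹ = ((l : ℝ) + 2) - ((l : ℝ) + 2)⁻¹ := by
          exact_mod_cast h4
        have hk : (0 : ℝ) ≤ k := Nat.cast_nonneg k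
        have hl : (0 : ℝ) ≤ l := Nat.cast_nonneg l
        have h6 : (k : ℝ) = l := by
          have e1 : ((k : ℝ) + 2) ≠ 0 := by linarith
          have e2 : ((l : ℝ) + 2) ≠ 0 := by linarith
          field_simp at h5
          have e3 : ((k : ℝ) - l) * (((k : ℝ) + 2) * (l + 2) + 1) = 0 := by
            linear_combination h5
          rcases mul_eq_zero.1 e3 with e4 | e4
          · linarith
          · nlinarith
        exact_mod_cast h6
      refine h2.mono ?_
      rintro _ ⟨k, rfl⟩
      exact h1 _ _ i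
    ext j
    have := h8 j
    simpa using this
  ext i j
  rw [h7 i]
  rfl

end Pool.Agent.Helper79.VModel
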