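import Pool.Agent.Helper79.SlicedEval

/-!
Correctness of the algorithm which computes the values of a Kauffman invariant.
-/

set_option autoImplicit false

namespace Pool.Agent.Helper79.Sliced

open LaurentPolynomial

variable {S : Type} [CommRing S] {φ : Laur →+* S} {c : S} {Λ : List Piece → S} {n m k : ℕ}
  {x y : List Piece} {ks : List ℕ} {v w : Vec}

/-- Kauffman's rules for functions with values in a ring `S` which contains the parameters. -/
structure IsKInv (φ : Laur →+* S) (Λ : List Piece → S) : Prop where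
  regular : ∀ D D' : List Piece, Step RegularMove D D' → Λ D = Λ D'
  positive_curl_cap : ∀ (u v : List Piece) (i : ℕ), IsDiagram (u ++ [cap i] ++ v) →
    Λ (u ++ [neg i, cap i] ++ v) = φ va * Λ (u ++ [cap i] ++ v)
  negative_curl_cap : ∀ (u v : List Piece) (i : ℕ), IsDiagram (u ++ [cap i] ++ v) →
    Λ (u ++ [pos i, cap i] ++ v) = φ va' * Λ (u ++ [cap i] ++ v)
  positive_curl_cup : ∀ (u v : List Piece) (i : ℕ), IsDiagram (u ++ [cup i] ++ v) →
    Λ (u ++ [cup i, neg i] ++ v) = φ va * Λ (u ++ [cup i] ++ v)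
  negative_curl_cup : ∀ (u v : List Piece) (i : ℕ), IsDiagram (u ++ [cup i] ++ v) →
    Λ (u ++ [cup i, pos i] ++ v) = φ va' * Λ (u ++ [cup i] ++ v)
  skein : ∀ (u v : List Piece) (i : ℕ), IsDiagram (u ++ [pos i] ++ v) →
    Λ (u ++ [pos i] ++ v) + Λ (u ++ [neg i] ++ v) =
      φ vz * (Λ (u ++ v) + Λ (u ++ [cap i, cup i] ++ v))

theorem IsKInv.reg (hΛ : IsKInv φ Λ) : Reg Λ := hΛ.regular

theorem IsKauffmanLambda.toKInv {Λ : List Piece → Laur} (hΛ : IsKauffmanLambda Λ) :
    IsKInv (RingHom.id Laur) Λ :=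
  ⟨hΛ.regular, hΛ.positive_curl_cap, hΛ.negative_curl_cap, hΛ.positive_curl_cup,
    hΛ.negative_curl_cup, hΛ.skein⟩

theorem strands_one (g : Kind) (i n : ℕ) (h : i + g.inn ≤ n) :
    strands [⟨g, i⟩] n = some (n - g.inn + g.out) := by
  simp [strands, h]

/-- Correctness of a function which computes the action of pieces on basis words. -/
def Sound (φ : Laur →+* S) (Λ : List Piece → S) (A : Kind → ℕ → List ℕ → Option Vec) : Prop :=
  ∀ (g : Kind) (i : ℕ) (ks : List ℕ) (v : Vec), A g i ks = some v → ok ks →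
    i + g.inn ≤ 2 * ks.length → Holds φ Λ 1 ks [⟨g, i⟩] (2 * ks.length - g.inn + g.out) v

theorem run_sound {A : Kind → ℕ → List ℕ → Option Vec} (hA : Sound φ Λ A) (w : List Piece)
    (h : Holds φ Λ c ks x m v) (hw : strands w m = some k) {r : Vec} (hr : run A w v = some r) :
    Holds φ Λ c ks (x ++ w) k r := by
  induction w generalizing x m v with
  | nil =>
    simp only [run, Option.some.injEq] at hr
    simp only [strands, Option.some.injEq] at hw
    subst hr; subst hw
    simpa using h
  | cons p w ih =>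
    simp only [run] at hr
    simp only [strands] at hw
    split_ifs at hw with hp
    split at hr
    · rename_i v' hv'
      have h1 := h.bind (y := [p]) (k := m - p.kind.inn + p.kind.out)
        (by simp [strands, hp]) (g := A p.kind p.idx) ?_ hv'
      · have := ih h1 hw hr
        simpa using this
      · intro s r hs hs' hr'
        have := hA p.kind p.idx s r hr' hs (by omega)
        rwa [hs'] at this
    · simp at hr

theorem run_sound' {A : Kind → ℕ → List ℕ → Option Vec} (hA : Sound φ Λ A) (w : List Piece)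
    (P : Poly) (hk : ok ks) (hw : strands w (2 * ks.length) = some m) {r : Vec}
    (hr : run A w [(ks, P)] = some r) : Holds φ Λ (φ (pev P)) ks w m r := by
  have := run_sound hA w (Holds.nil (φ := φ) (Λ := Λ) hk P) hw hr
  simpa using this

theorem holds_base {ks ks' : List ℕ} (hk : ok ks) (hk' : ok ks')
    (he : EqvW Λ 0 (2 * ks'.length) (bw ks ++ x) (bw ks')) :
    Holds φ Λ 1 ks x (2 * ks'.length) [(ks', pone)] := by
  refine ⟨?_, by simpa using hk', ?_⟩
  · have := he.left
    rw [strands_append, strands_bw hk] at this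
    simpa using this
  · intro C hC hC'
    have := he.val [] C hC rfl hC'
    simp only [List.nil_append, List.append_assoc] at this
    simp [pev_pone, this]

theorem holds_cup_zero (hk : ok ks) : Holds φ Λ 1 ks [cup 0] (2 * ks.length + 2)
    [(0 :: ks, pone)] := by
  refine ⟨strands_cup _ _ (by omega), ?_, ?_⟩
  · intro e he
    simp only [List.mem_singleton] at he
    subst he
    exact ⟨⟨by simp, hk⟩, by simp [mul_add]⟩
  · intro C hC hC'
    simp [pev_pone, bw, ups]

/-- the polynomial of a circle -/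
def pdelta : Poly := [(-1, -1, 1), (0, 0, -1), (1, -1, 1)]

theorem pev_pdelta : vz * pev pdelta = va + va' - vz := by
  simp only [pdelta, pev_cons, pev_nil, mono, vz, va, va']
  simp only [map_one, one_mul, map_neg, T_zero, mul_one, add_zero]
  have h : (C (T 1) : Laur) * C (T (-1)) = 1 := by
    rw [← map_mul, ← T_add]; simp
  linear_combination (T (-1) + T 1 : Laur) * h

theorem vz_cancel (φ : Laur →+* S) {p q : S} (h : φ vz * p = φ vz * q) : p = q := by
  have h1 : φ (C (T (-1)) : Laur) * φ vz = 1 := by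
    rw [← map_mul φ, vz, ← map_mul, ← T_add]; simp
  calc p = (φ (C (T (-1))) * φ vz) * p := by rw [h1, one_mul]
    _ = (φ (C (T (-1))) * φ vz) * q := by rw [mul_assoc, h, ← mul_assoc]
    _ = q := by rw [h1, one_mul]

theorem eqv_circle_one (hΛ : Reg Λ) (g : Kind) (j n : ℕ) (h : j + g.inn ≤ n) :
    EqvW Λ n (n - g.inn + g.out) ([cup 0, cap 0] ++ [⟨g, j⟩]) ([⟨g, j⟩] ++ [cup 0, cap 0]) := by
  have h1 : EqvW Λ (n + 2) (n - g.inn + g.out) [cap 0, ⟨g, j⟩] [⟨g, j + 2⟩, cap 0] := by
    have := RegularMove.far Kind.cap g 0 j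
    refine EqvW.of_move hΛ ?_ ?_ ?_
    · simpa [Kind.inn, Kind.out, cap, add_comm] using this
    · cases g <;> simp [strands, cap, Kind.inn, Kind.out] at h ⊢ <;> omega
    · cases g <;> simp [strands, cap, Kind.inn, Kind.out] at h ⊢ <;> omega
  have h2 : EqvW Λ n (n - g.inn + g.out + 2) [cup 0, ⟨g, j + 2⟩] [⟨g, j⟩, cup 0] := by
    have := RegularMove.far Kind.cup g 0 j
    refine EqvW.of_move hΛ ?_ ?_ ?_
    · simpa [Kind.inn, Kind.out, cup, add_comm] using this
    · cases g <;> simp [strands, cup, Kind.inn, Kind.out] at h ⊢ <;> omega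
    · cases g <;> simp [strands, cup, Kind.inn, Kind.out] at h ⊢ <;> omega
  have h3 := h1.append_left (u := [cup 0]) (k := n) (strands_cup 0 n (by omega))
  have h4 := h2.append_right (v := [cap 0]) (k := n - g.inn + g.out)
    (strands_cap _ _ (by omega))
  exact EqvW.trans (y := [cup 0, ⟨g, j + 2⟩, cap 0]) (by simpa using h3) (by simpa using h4)

theorem eqv_circle (hΛ : Reg Λ) (x : List Piece) (n m : ℕ) (h : strands x n = some m) :
    EqvW Λ n m ([cup 0, cap 0] ++ x) (x ++ [cup 0, cap 0]) := by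
  induction x generalizing n with
  | nil =>
    simp only [strands, Option.some.injEq] at h
    subst h
    simpa using EqvW.refl (Λ := Λ) (x := [cup 0, cap 0]) (n := n) (m := n)
      (by simp [strands, cup, cap, Kind.inn, Kind.out])
  | cons p x ih =>
    simp only [strands] at h
    split_ifs at h with hp
    have h1 := (eqv_circle_one hΛ p.kind p.idx n hp).append_right h
    have h2 := (ih _ h).append_left (u := [p]) (k := n) (by simp [strands, hp])
    exact EqvW.trans (y := [p] ++ ([cup 0, cap 0] ++ x)) (by simpa using h1) (by simpa using h2)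

theorem circle_bottom (hΛ : IsKInv φ Λ) (D : List Piece) (hD : IsDiagram D) :
    Λ ([cup 0, cap 0] ++ D) = φ (pev pdelta) * Λ D := by
  obtain ⟨hne, hs⟩ := hD
  cases D with
  | nil => exact absurd rfl hne
  | cons p D =>
    have hp : p = cup 0 := by
      obtain ⟨g, i⟩ := p
      simp only [strands] at hs
      split_ifs at hs with h
      cases g <;> simp [Kind.inn] at h
      subst h; rfl
    subst hp
    have h2 : strands D 2 = some 0 := by
      simpa [strands, cup, Kind.inn, Kind.out] using hs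
    have e1 := hΛ.skein [cup 0] D 0 ⟨by simp, by
      simpa [strands, cup, pos, Kind.inn, Kind.out] using h2⟩
    have e2 := hΛ.positive_curl_cup [] D 0 ⟨by simp, by simpa using hs⟩
    have e3 := hΛ.negative_curl_cup [] D 0 ⟨by simp, by simpa using hs⟩
    simp only [List.nil_append, List.cons_append] at e1 e2 e3 ⊢
    rw [e2, e3] at e1
    apply vz_cancel φ
    have e4 := congrArg φ pev_pdelta
    rw [map_mul, map_sub, map_add] at e4
    linear_combination -e1 - Λ (cup 0 :: D) * e4

theorem circle_rule (hΛ : IsKInv φ Λ) (pre C : List Piece) (hC : C ≠ [])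
    (h1 : strands pre 0 = some n) (h2 : strands C n = some 0) :
    Λ (pre ++ [cup 0, cap 0] ++ C) = φ (pev pdelta) * Λ (pre ++ C) := by
  have h3 := (eqv_circle hΛ.reg pre 0 n h1).val [] C hC rfl h2
  have h4 := circle_bottom hΛ (pre ++ C) ⟨by simp [hC], strands_append_some h1 h2⟩
  simp only [List.nil_append, List.append_assoc] at h3 h4 ⊢
  rw [← h3, h4]

/-! ### The rules -/

theorem Holds.pull {c : S} {ks ks' : List ℕ} {x y : List Piece} {m : ℕ} {v : Vec}
    (h : Holds φ Λ c ks' y m v)
    (hx : strands x (2 * ks.length) = some m)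
    (he : ∀ C : List Piece, C ≠ [] → strands C m = some 0 →
      Λ (bw ks ++ x ++ C) = c * Λ (bw ks' ++ y ++ C)) : Holds φ Λ 1 ks x m v := by
  refine ⟨hx, h.keys, ?_⟩
  intro C hC hC'
  rw [one_mul, he C hC hC', h.val C hC hC']

theorem holds_W1 (hΛ : Reg Λ) {A : Kind → ℕ → List ℕ → Option Vec} (hA : Sound φ Λ A) (g : Kind)
    (i κ : ℕ) (hk : ok (κ :: ks)) (hi : i + g.inn ≤ 2 * (κ :: ks).length) (h : κ + 2 ≤ i)
    (hr : (A g (i - 2) ks).map (vcons κ) = some v) :
    Holds φ Λ 1 (κ :: ks) [⟨g, i⟩] (2 * (κ :: ks).length - g.inn + g.out) v := by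
  simp only [Option.map_eq_some_iff] at hr
  obtain ⟨w, hw, rfl⟩ := hr
  have hi' : i + g.inn ≤ 2 * ks.length + 2 := by simpa [mul_add] using hi
  have e : 2 * (κ :: ks).length - g.inn + g.out = 2 * ks.length - g.inn + g.out + 2 := by
    simp only [List.length_cons]; omega
  rw [e]
  have h1 := hA g (i - 2) ks w hw hk.2 (by omega)
  have h2 := eqv_W1 hΛ g κ i (2 * ks.length) h hi'
  exact h1.cons hk (by omega) (by simpa using h2)

theorem holds_W2 (hΛ : Reg Λ) {A : Kind → ℕ → List ℕ → Option Vec} (hA : Sound φ Λ A) (s : Bool)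
    (i κ : ℕ) (hk : ok (κ :: ks)) (h1 : 1 ≤ i) (h2 : i + 1 ≤ κ)
    (hr : (A (if s then .pos else .neg) (i - 1) ks).map (vcons κ) = some v) :
    Holds φ Λ 1 (κ :: ks) [⟨if s then .pos else .neg, i⟩] (2 * (κ :: ks).length) v := by
  simp only [Option.map_eq_some_iff] at hr
  obtain ⟨w, hw, rfl⟩ := hr
  have hk1 := hk.1
  obtain ⟨j, rfl⟩ : ∃ j, i = j + 1 := ⟨i - 1, by omega⟩
  obtain ⟨d, rfl⟩ : ∃ d, κ = j + 2 + d := ⟨κ - (j + 2), by omega⟩
  have e : 2 * ((j + 2 + d) :: ks).length = 2 * ks.length + 2 := by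
    simp only [List.length_cons]; omega
  rw [e]
  have g1 : (if s then Kind.pos else Kind.neg).inn = 2 := by cases s <;> rfl
  have g2 : (if s then Kind.pos else Kind.neg).out = 2 := by cases s <;> rfl
  have h3 := hA _ _ ks w hw hk.2 (by rw [g1]; omega)
  rw [g1, g2] at h3
  have e2 : 2 * ks.length - 2 + 2 = 2 * ks.length := by omega
  rw [e2] at h3
  have h4 := eqv_W2 hΛ s j d (2 * ks.length) (by omega)
  exact h3.cons hk (by omega) (by simpa using h4)

theorem holds_W2cap (hΛ : Reg Λ) {A : Kind → ℕ → List ℕ → Option Vec} (hA : Sound φ Λ A)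
    (i κ : ℕ) (hk : ok (κ :: ks)) (h1 : 1 ≤ i) (h2 : i + 1 ≤ κ)
    (hr : (A .cap (i - 1) ks).map (vcons (κ - 2)) = some v) :
    Holds φ Λ 1 (κ :: ks) [cap i] (2 * ks.length) v := by
  simp only [Option.map_eq_some_iff] at hr
  obtain ⟨w, hw, rfl⟩ := hr
  have hk1 := hk.1
  obtain ⟨j, rfl⟩ : ∃ j, i = j + 1 := ⟨i - 1, by omega⟩
  obtain ⟨d, rfl⟩ : ∃ d, κ = j + 2 + d := ⟨κ - (j + 2), by omega⟩
  have h3 := hA _ _ ks w hw hk.2 (by simp only [Kind.inn]; omega)
  simp only [Kind.inn, Kind.out] at h3
  have h4 := eqv_W2cap hΛ j d (2 * ks.length) (by omega)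
  obtain ⟨l, hl⟩ : ∃ l, 2 * ks.length = l + 2 := ⟨2 * ks.length - 2, by omega⟩
  rw [hl] at h3 h4 ⊢
  have e : j + 2 + d - 2 = j + d := by omega
  rw [e]
  exact h3.cons hk (by omega) (by rw [hl]; simpa [cap] using h4)

theorem holds_W3 (hΛ : Reg Λ) {A : Kind → ℕ → List ℕ → Option Vec} (hA : Sound φ Λ A)
    (i κ : ℕ) (hk : ok (κ :: ks)) (h1 : 1 ≤ i) (h2 : i ≤ κ + 1)
    (hr : (A .cup (i - 1) ks).map (vcons (κ + 2)) = some v) :
    Holds φ Λ 1 (κ :: ks) [cup i] (2 * ks.length + 4) v := by
  simp only [Option.map_eq_some_iff] at hr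
  obtain ⟨w, hw, rfl⟩ := hr
  have hk1 := hk.1
  obtain ⟨j, rfl⟩ : ∃ j, i = j + 1 := ⟨i - 1, by omega⟩
  obtain ⟨d, rfl⟩ : ∃ d, κ = j + d := ⟨κ - j, by omega⟩
  have h3 := hA _ _ ks w hw hk.2 (by simp only [Kind.inn]; omega)
  simp only [Kind.inn, Kind.out] at h3
  have h4 := eqv_W3 hΛ j d (2 * ks.length) (by omega)
  have e3 : 2 * ks.length - 0 + 2 = 2 * ks.length + 2 := by omega
  rw [e3] at h3
  exact h3.cons hk (by omega) (by simpa [cup] using h4)

theorem holds_W4 (hΛ : Reg Λ) {A : Kind → ℕ → List ℕ → Option Vec} (hA : Sound φ Λ A)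
    (κ : ℕ) (hk : ok (κ :: ks)) (h : κ + 1 ≤ 2 * ks.length)
    (hr : run A (downs κ) [(ks, pone)] = some v) :
    Holds φ Λ 1 (κ :: ks) [cap (κ + 1)] (2 * ks.length) v := by
  have h1 := run_sound' hA (downs κ) pone hk.2 (strands_downs _ _ (by omega)) hr
  have h2 := eqv_W4 hΛ κ (2 * ks.length) h
  refine h1.pull ?_ ?_
  · rw [List.length_cons, mul_add, mul_one]; exact strands_cap _ _ (by omega)
  · intro C hC hC'
    rw [pev_pone, map_one, one_mul]
    simpa [bw, List.append_assoc] using h2.val (bw ks) C hC (strands_bw hk.2) hC'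

theorem holds_cap_same (hΛ : IsKInv φ Λ) {A : Kind → ℕ → List ℕ → Option Vec}
    (hA : Sound φ Λ A) (κ : ℕ) (hk : ok (κ :: ks)) (h : 1 ≤ κ)
    (hr : run A (downs (κ - 1)) [(ks, [(-1, 0, 1)])] = some v) :
    Holds φ Λ 1 (κ :: ks) [cap κ] (2 * ks.length) v := by
  have hk1 := hk.1
  have h1 := run_sound' hA (downs (κ - 1)) [(-1, 0, 1)] hk.2 (strands_downs _ _ (by omega)) hr
  obtain ⟨j, rfl⟩ : ∃ j, κ = j + 1 := ⟨κ - 1, by omega⟩
  have h2 := eqv_W4 hΛ.reg j (2 * ks.length) (by omega)
  refine h1.pull ?_ ?_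
  · rw [List.length_cons, mul_add, mul_one]; exact strands_cap _ _ (by omega)
  · intro C hC hC'
    have h3 := h2.val (bw ks) C hC (strands_bw hk.2) hC'
    have h4 := hΛ.negative_curl_cap (bw ks ++ (cup 0 :: ups 1 j)) C (j + 1) ⟨by simp, by
      have := strands_append_some (strands_bw hk.2) (strands_append_some h2.left hC')
      simpa [List.append_assoc] using this⟩
    have e : pev [(-1, 0, 1)] = va' := by simp [mono, va']
    rw [e]
    simp only [bw, ups, List.append_assoc, List.cons_append, List.nil_append,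
      Nat.add_sub_cancel, add_comm 1 j] at h3 h4 ⊢
    rw [h4, h3]

theorem holds_W7 (hΛ : IsKInv φ Λ) {A : Kind → ℕ → List ℕ → Option Vec}
    (hA : Sound φ Λ A) (κ : ℕ) (hk : ok (κ :: ks)) (h : 1 ≤ κ)
    (hr : run A (ups 0 (κ - 1)) [(ks, [(1, 0, 1)])] = some v) :
    Holds φ Λ 1 (κ :: ks) [cap 0] (2 * ks.length) v := by
  have hk1 := hk.1
  have h1 := run_sound' hA (ups 0 (κ - 1)) [(1, 0, 1)] hk.2 (strands_ups _ _ _ (by omega)) hr
  obtain ⟨j, rfl⟩ : ∃ j, κ = j + 1 := ⟨κ - 1, by omega⟩
  have h2 := eqv_W7a hΛ.reg j (2 * ks.length) (by omega)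
  refine h1.pull ?_ ?_
  · rw [List.length_cons, mul_add, mul_one]; exact strands_cap _ _ (by omega)
  · intro C hC hC'
    have h3 := h2.val (bw ks) C hC (strands_bw hk.2) hC'
    have h5 := (eqv_zigzag hΛ.reg 0 (2 * ks.length) (by omega)).val (bw ks) (ups 0 j ++ C)
      (by simp [hC]) (strands_bw hk.2) (strands_append_some (strands_ups _ _ _ (by omega)) hC')
    have h4 := hΛ.positive_curl_cup (bw ks) ([cap 1] ++ ups 0 j ++ C) 0 ⟨by simp, by
      refine strands_append_some (strands_append_some (strands_bw hk.2)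
        (strands_cup 0 (2 * ks.length) (by omega))) (strands_append_some (strands_append_some
        (strands_cap 1 (2 * ks.length) (by omega))
        (strands_ups _ _ _ (by omega))) hC')⟩
    have e : pev [(1, 0, 1)] = va := by simp [mono, va]
    rw [e]
    simp only [bw, List.append_assoc, List.cons_append, List.nil_append,
      Nat.add_sub_cancel, zero_add] at h3 h4 h5 ⊢
    rw [h3, h4, h5]

theorem holds_circle (hΛ : IsKInv φ Λ) (hk : ok (0 :: ks)) :
    Holds φ Λ 1 (0 :: ks) [cap 0] (2 * ks.length) [(ks, pdelta)] := by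
  refine (Holds.nil (φ := φ) (Λ := Λ) hk.2 pdelta).pull ?_ ?_
  · rw [List.length_cons, mul_add, mul_one]; exact strands_cap _ _ (by omega)
  · intro C hC hC'
    have := circle_rule hΛ (bw ks) C hC (strands_bw hk.2) hC'
    simpa [bw, ups, List.append_assoc] using this

theorem holds_curl (hΛ : IsKInv φ Λ) (s : Bool) (hk : ok (0 :: ks)) :
    Holds φ Λ 1 (0 :: ks) [⟨if s then .pos else .neg, 0⟩] (2 * (0 :: ks).length)
      [(0 :: ks, [(if s then -1 else 1, 0, 1)])] := by
  refine (Holds.nil (φ := φ) (Λ := Λ) hk _).pull ?_ ?_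
  · rw [List.length_cons]
    cases s
    · exact strands_neg _ _ (by omega)
    · exact strands_pos _ _ (by omega)
  · intro C hC hC'
    have hd : IsDiagram (bw ks ++ [cup 0] ++ C) := ⟨by simp, strands_append_some
      (strands_append_some (strands_bw hk.2) (strands_cup 0 _ (by omega)))
      (by simpa [mul_add] using hC')⟩
    cases s
    · have := hΛ.positive_curl_cup (bw ks) C 0 hd
      have e : pev [(1, 0, 1)] = va := by simp [mono, va]
      simpa [bw, ups, List.append_assoc, e, neg] using this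
    · have := hΛ.negative_curl_cup (bw ks) C 0 hd
      have e : pev [(-1, 0, 1)] = va' := by simp [mono, va']
      simpa [bw, ups, List.append_assoc, e, pos] using this

theorem holds_W5 (hΛ : Reg Λ) (κ l : ℕ) (ls : List ℕ) (hk : ok (κ :: l :: ls))
    (h1 : 1 ≤ κ) (h : κ ≤ l + 1) :
    Holds φ Λ 1 (κ :: l :: ls) [pos 0] (2 * (κ :: l :: ls).length)
      [((l + 2) :: (κ - 1) :: ls, pone)] := by
  obtain ⟨j, rfl⟩ : ∃ j, κ = j + 1 := ⟨κ - 1, by omega⟩
  have hl := hk.2.1
  have h2 := (eqv_W5 hΛ j l (2 * ls.length) (by omega) hl).append_left (u := bw ls) (k := 0)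
    (strands_bw hk.2.2)
  have hk' : ok ((l + 2) :: j :: ls) := ⟨by simp only [List.length_cons]; omega, by omega, hk.2.2⟩
  have := holds_base (φ := φ) (Λ := Λ) (x := [pos 0]) hk hk' (by
    simpa [bw, List.append_assoc, mul_add] using h2)
  simpa using this

theorem holds_W6 (hΛ : Reg Λ) (κ l : ℕ) (ls : List ℕ) (hk : ok (κ :: l :: ls))
    (h : l + 2 ≤ κ) :
    Holds φ Λ 1 (κ :: l :: ls) [neg 0] (2 * (κ :: l :: ls).length)
      [((l + 1) :: (κ - 2) :: ls, pone)] := by
  obtain ⟨j, rfl⟩ : ∃ j, κ = j + 2 := ⟨κ - 2, by omega⟩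
  have hl := hk.2.1
  have hl0 := hk.1
  simp only [List.length_cons] at hl0
  have h2 := (eqv_W6 hΛ l j (2 * ls.length) (by omega) (by omega)).append_left (u := bw ls)
    (k := 0) (strands_bw hk.2.2)
  have hk' : ok ((l + 1) :: j :: ls) :=
    ⟨by simp only [List.length_cons]; omega, by omega, hk.2.2⟩
  have := holds_base (φ := φ) (Λ := Λ) (x := [neg 0]) hk hk' (by
    simpa [bw, List.append_assoc, mul_add] using h2)
  simpa using this

theorem holds_next_pos (κ : ℕ) (hk : ok (κ :: ks)) (h : κ + 1 ≤ 2 * ks.length) :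
    Holds φ Λ 1 (κ :: ks) [pos (κ + 1)] (2 * (κ :: ks).length) [((κ + 1) :: ks, pone)] := by
  have hk' : ok ((κ + 1) :: ks) := ⟨h, hk.2⟩
  have := holds_base (φ := φ) (Λ := Λ) (x := [pos (κ + 1)]) hk hk' (by
    have : bw (κ :: ks) ++ [pos (κ + 1)] = bw ((κ + 1) :: ks) := by
      simp [bw, ups, add_comm]
    rw [this]
    exact EqvW.refl (strands_bw hk'))
  simpa using this

theorem holds_prev_neg (hΛ : Reg Λ) (κ : ℕ) (hk : ok (κ :: ks)) (h : 1 ≤ κ) :
    Holds φ Λ 1 (κ :: ks) [neg κ] (2 * (κ :: ks).length) [((κ - 1) :: ks, pone)] := by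
  obtain ⟨j, rfl⟩ : ∃ j, κ = j + 1 := ⟨κ - 1, by omega⟩
  have hk1 := hk.1
  have hk' : ok (j :: ks) := ⟨by omega, hk.2⟩
  have h2 := (eqv_r2 hΛ (j + 1) (2 * ks.length + 2) (by omega)).append_left (u := bw (j :: ks))
    (k := 0) (by simpa [mul_add] using strands_bw hk')
  have := holds_base (φ := φ) (Λ := Λ) (x := [neg (j + 1)]) hk hk' (by
    simpa [bw, ups, List.append_assoc, add_comm 1 j, mul_add] using h2)
  simpa using this

/-- The skein relation. -/
theorem holds_skein (hΛ : IsKInv φ Λ) {A : Kind → ℕ → List ℕ → Option Vec}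
    (hA : Sound φ Λ A) (s : Bool) (i : ℕ) (hk : ok ks) (hi : i + 2 ≤ 2 * ks.length) {base : Vec}
    (hb : Holds φ Λ 1 ks [⟨if s then .neg else .pos, i⟩] (2 * ks.length) base)
    (hr : skeinV A i ks base = some v) :
    Holds φ Λ 1 ks [⟨if s then .pos else .neg, i⟩] (2 * ks.length) v := by
  rw [skeinV] at hr
  split at hr
  · rename_i w hw
    simp only [Option.some.injEq] at hr
    subst hr
    have h1 := run_sound' (m := 2 * ks.length) hA [cap i, cup i] [(0, 1, 1)] hk (by
      simp [strands, cap, cup, Kind.inn, Kind.out]; omega) hw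
    refine ⟨?_, ?_, ?_⟩
    · cases s
      · exact strands_neg _ _ hi
      · exact strands_pos _ _ hi
    · exact keys_vadd (p := fun s => ok s ∧ 2 * s.length = 2 * ks.length)
        (keys_vsmul (p := fun s => ok s ∧ 2 * s.length = 2 * ks.length) hb.keys)
        (keys_vins (p := fun s => ok s ∧ 2 * s.length = 2 * ks.length) ⟨hk, rfl⟩ h1.keys)
    · intro C hC hC'
      have e1 := hb.val C hC hC'
      have e2 := h1.val C hC hC'
      have e3 := hΛ.skein (bw ks) C i ⟨by simp, strands_append_some
        (strands_append_some (strands_bw hk) (strands_pos i _ hi)) hC'⟩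
      rw [vev_vadd, vev_vsmul, vev_vins, ← e1, ← e2]
      have p1 : pev [(0, 0, -1)] = -1 := by simp [mono]
      have p2 : pev [(0, 1, 1)] = vz := by simp [mono, vz]
      rw [p1, p2, map_neg, map_one]
      cases s
      · simp only [Bool.false_eq_true, if_false]
        simp only [pos, neg] at e3
        linear_combination e3
      · simp only [if_true]
        simp only [pos, neg] at e3
        linear_combination e3
  · simp at hr

theorem sound_cup (hΛ : IsKInv φ Λ) {A : Kind → ℕ → List ℕ → Option Vec}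
    (hA : Sound φ Λ A) (i : ℕ) (hr : actCup A i ks = some v) (hk : ok ks)
    (hi : i + Kind.cup.inn ≤ 2 * ks.length) :
    Holds φ Λ 1 ks [cup i] (2 * ks.length - Kind.cup.inn + Kind.cup.out) v := by
  have e0 : 2 * ks.length - Kind.cup.inn + Kind.cup.out = 2 * ks.length + 2 := by
    simp [Kind.inn, Kind.out]
  cases ks with
  | nil =>
    rw [actCup] at hr
    split_ifs at hr with h
    simp only [Option.some.injEq] at hr
    subst hr; subst h
    rw [e0]
    exact holds_cup_zero hk
  | cons κ ks =>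
    rw [actCup] at hr
    split_ifs at hr with h h1
    · simp only [Option.some.injEq] at hr
      subst hr; subst h
      rw [e0]
      exact holds_cup_zero hk
    · have e : 2 * (κ :: ks).length - Kind.cup.inn + Kind.cup.out = 2 * ks.length + 4 := by
        simp [Kind.inn, Kind.out, mul_add]
      rw [e]
      exact holds_W3 hΛ.reg hA i κ hk (by omega) h1 hr
    · exact holds_W1 hΛ.reg hA .cup i κ hk hi (by omega) hr

theorem sound_cap (hΛ : IsKInv φ Λ) {A : Kind → ℕ → List ℕ → Option Vec}
    (hA : Sound φ Λ A) (i : ℕ) (hr : actCap A i ks = some v) (hk : ok ks)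
    (hi : i + Kind.cap.inn ≤ 2 * ks.length) :
    Holds φ Λ 1 ks [cap i] (2 * ks.length - Kind.cap.inn + Kind.cap.out) v := by
  cases ks with
  | nil => simp [Kind.inn] at hi
  | cons κ ks =>
    have e0 : 2 * (κ :: ks).length - Kind.cap.inn + Kind.cap.out = 2 * ks.length := by
      simp [Kind.inn, Kind.out, mul_add]
    have hi' : i + 2 ≤ 2 * ks.length + 2 := by simpa [Kind.inn, mul_add] using hi
    rw [actCap] at hr
    split_ifs at hr with h h1 h2 h3 h4
    · exact holds_W1 hΛ.reg hA .cap i κ hk hi h hr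
    · subst h1
      rw [e0]
      exact holds_W4 hΛ.reg hA κ hk (by omega) hr
    · obtain ⟨h2, h2'⟩ := h2
      subst h2
      rw [e0]
      exact holds_cap_same hΛ hA i hk h2' hr
    · rw [e0]
      exact holds_W2cap hΛ.reg hA i κ hk h3 (by omega) hr
    · simp only [Option.some.injEq] at hr
      subst hr; subst h4
      obtain rfl : i = 0 := by omega
      rw [e0]
      exact holds_circle hΛ hk
    · obtain rfl : i = 0 := by omega
      rw [e0]
      exact holds_W7 hΛ hA κ hk (by omega) hr

theorem sound_pos (hΛ : IsKInv φ Λ) {A : Kind → ℕ → List ℕ → Option Vec}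
    (hA : Sound φ Λ A) (i : ℕ) (hr : actPos A i ks = some v) (hk : ok ks)
    (hi : i + 2 ≤ 2 * ks.length) :
    Holds φ Λ 1 ks [pos i] (2 * ks.length) v := by
  cases ks with
  | nil => simp at hi
  | cons κ ks =>
    have e0 : 2 * (κ :: ks).length - Kind.pos.inn + Kind.pos.out = 2 * (κ :: ks).length := by
      simp [Kind.inn, Kind.out, mul_add]
    have hi' : i + 2 ≤ 2 * ks.length + 2 := by simpa [mul_add] using hi
    rw [actPos.eq_def] at hr
    simp only at hr
    split_ifs at hr with h h1 h2 h3 h4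
    · have := holds_W1 hΛ.reg hA .pos i κ hk hi h hr
      rwa [e0] at this
    · simp only [Option.some.injEq] at hr
      subst hr; subst h1
      exact holds_next_pos κ hk (by omega)
    · obtain ⟨h2, h2'⟩ := h2
      subst h2
      exact holds_skein hΛ hA true i hk hi (holds_prev_neg hΛ.reg i hk h2') hr
    · exact holds_W2 hΛ.reg hA true i κ hk h3 (by omega) hr
    · simp only [Option.some.injEq] at hr
      subst hr; subst h4
      obtain rfl : i = 0 := by omega
      exact holds_curl hΛ true hk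
    · obtain rfl : i = 0 := by omega
      cases ks with
      | nil => simp at hi'; exact absurd hk.1 (by simp; omega)
      | cons l ls =>
        simp only at hr
        split_ifs at hr with h5
        · simp only [Option.some.injEq] at hr
          subst hr
          exact holds_W5 hΛ.reg κ l ls hk (by omega) h5
        · exact holds_skein hΛ hA true 0 hk hi (holds_W6 hΛ.reg κ l ls hk (by omega)) hr

theorem sound_neg (hΛ : IsKInv φ Λ) {A : Kind → ℕ → List ℕ → Option Vec}
    (hA : Sound φ Λ A) (i : ℕ) (hr : actNeg A i ks = some v) (hk : ok ks)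
    (hi : i + 2 ≤ 2 * ks.length) :
    Holds φ Λ 1 ks [neg i] (2 * ks.length) v := by
  cases ks with
  | nil => simp at hi
  | cons κ ks =>
    have e0 : 2 * (κ :: ks).length - Kind.neg.inn + Kind.neg.out = 2 * (κ :: ks).length := by
      simp [Kind.inn, Kind.out, mul_add]
    have hi' : i + 2 ≤ 2 * ks.length + 2 := by simpa [mul_add] using hi
    rw [actNeg.eq_def] at hr
    simp only at hr
    split_ifs at hr with h h1 h2 h3 h4
    · have := holds_W1 hΛ.reg hA .neg i κ hk hi h hr
      rwa [e0] at this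
    · subst h1
      exact holds_skein hΛ hA false (κ + 1) hk hi (holds_next_pos κ hk (by omega)) hr
    · obtain ⟨h2, h2'⟩ := h2
      subst h2
      simp only [Option.some.injEq] at hr
      subst hr
      exact holds_prev_neg hΛ.reg i hk h2'
    · exact holds_W2 hΛ.reg hA false i κ hk h3 (by omega) hr
    · simp only [Option.some.injEq] at hr
      subst hr; subst h4
      obtain rfl : i = 0 := by omega
      exact holds_curl hΛ false hk
    · obtain rfl : i = 0 := by omega
      cases ks with
      | nil => simp at hi'; exact absurd hk.1 (by simp; omega)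
      | cons l ls =>
        simp only at hr
        split_ifs at hr with h5
        · exact holds_skein hΛ hA false 0 hk hi (holds_W5 hΛ.reg κ l ls hk (by omega) h5) hr
        · simp only [Option.some.injEq] at hr
          subst hr
          exact holds_W6 hΛ.reg κ l ls hk (by omega)

theorem sound_step (hΛ : IsKInv φ Λ) {A : Kind → ℕ → List ℕ → Option Vec}
    (hA : Sound φ Λ A) : Sound φ Λ (actStep A) := by
  intro g i ks v hr hk hi
  cases g with
  | cup => exact sound_cup hΛ hA i hr hk hi
  | cap => exact sound_cap hΛ hA i hr hk hi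
  | pos =>
    have hi' : i + 2 ≤ 2 * ks.length := hi
    have e0 : 2 * ks.length - Kind.pos.inn + Kind.pos.out = 2 * ks.length := by
      simp only [Kind.inn, Kind.out]; omega
    rw [e0]
    exact sound_pos hΛ hA i hr hk hi'
  | neg =>
    have hi' : i + 2 ≤ 2 * ks.length := hi
    have e0 : 2 * ks.length - Kind.neg.inn + Kind.neg.out = 2 * ks.length := by
      simp only [Kind.inn, Kind.out]; omega
    rw [e0]
    exact sound_neg hΛ hA i hr hk hi'

theorem sound_act (hΛ : IsKInv φ Λ) (f : ℕ) : Sound φ Λ (act f) := by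
  induction f with
  | zero => intro g i ks v hr; simp [act] at hr
  | succ f ih => exact sound_step hΛ ih

/-- the sum of the coefficients -/
noncomputable def vtot (v : Vec) : Laur := (v.map fun e => pev e.2).sum

/-- The value of a Kauffman invariant on a diagram which ends with the piece `cap 0`. -/
theorem value_of_run' (hΛ : IsKInv φ Λ) (f : ℕ) (w : List Piece)
    (hw : strands w 0 = some 2) {v : Vec} (hr : run (act f) w [([], pone)] = some v) :
    Λ (w ++ [cap 0]) = φ (vtot v) * Λ circle := by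
  have h := run_sound' (sound_act hΛ f) w pone (ks := []) trivial (by simpa using hw) hr
  have h1 := h.val [cap 0] (by simp) (by simp [strands, cap, Kind.inn, Kind.out])
  rw [pev_pone, map_one, one_mul] at h1
  simp only [bw, List.nil_append] at h1
  rw [h1]
  have h2 := h.keys
  clear h h1 hr
  induction v with
  | nil => simp [vtot]
  | cons e v ih =>
    rw [vev_cons, ih fun e he => h2 e (List.mem_cons_of_mem _ he)]
    have h3 := h2 e List.mem_cons_self
    obtain ⟨ks, P⟩ := e
    simp only at h3 ⊢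
    have h4 : ks = [0] := by
      match ks, h3 with
      | [], h3 => simp at h3
      | [κ], h3 =>
        have := h3.1.1
        simp at this
        rw [this]
      | _ :: _ :: _, h3 => simp at h3
    rw [h4]
    simp only [vtot, List.map_cons, List.sum_cons, map_add, add_mul]
    simp [bw, ups, circle]

theorem value_of_run {Λ : List Piece → Laur} (hΛ : IsKauffmanLambda Λ) (f : ℕ)
    (w : List Piece) (hw : strands w 0 = some 2) {v : Vec}
    (hr : run (act f) w [([], pone)] = some v) : Λ (w ++ [cap 0]) = vtot v := by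
  rw [value_of_run' hΛ.toKInv f w hw hr, hΛ.circle]
  simp

end Pool.Agent.Helper79.Sliced
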