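import Pool.Agent.Helper79.VValue
import Pool.Agent.Helper79.SlicedSound
import Pool.Agent.Helper79.SlicedPath

/-!
The values of a vertex model satisfy Kauffman's rules.
-/

set_option autoImplicit false
set_option linter.unusedSectionVars false

namespace Pool.Agent.Helper79.VModel

open Finset
open Pool.Agent.Helper79.Sliced

variable {ι : Type} [Fintype ι] [DecidableEq ι] {q a : ℂ}

/-- the weight of a piece -/
noncomputable def wt (p : Piece) : ℂ :=
  match p.kind with
  | .cup => (-1) ^ p.idx
  | .cap => - (-1) ^ p.idx
  | .pos => Complex.I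
  | .neg => - Complex.I

/-- the weight of a word -/
noncomputable def wtW (w : List Piece) : ℂ := (w.map wt).prod

theorem wtW_append (u v : List Piece) : wtW (u ++ v) = wtW u * wtW v := by simp [wtW]

theorem wtW_cons (p : Piece) (v : List Piece) : wtW (p :: v) = wt p * wtW v := by simp [wtW]

theorem wtW_nil : wtW [] = 1 := by simp [wtW]

/-- the value of a model on a diagram -/
noncomputable def valK (M : Model ι q a) (D : List Piece) : ℂ :=
  wtW D * wordOp M D (fun _ => 1) []

theorem wordOp_lin (M : Model ι q a) (u : List Piece) (F G : List ι → ℂ) (c : ℂ)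
    (s : List ι) :
    wordOp M u (fun s => F s + c * G s) s = wordOp M u F s + c * wordOp M u G s := by
  induction u generalizing s with
  | nil => rfl
  | cons p u ih =>
    simp only [wordOp]
    have : wordOp M u (fun s => F s + c * G s) = fun s => wordOp M u F s + c * wordOp M u G s := by
      funext s; exact ih s
    rw [this, pieceOp_lin]

theorem wordOp_zero (M : Model ι q a) (u : List Piece) (s : List ι) :
    wordOp M u (fun _ => 0) s = 0 := by
  have h := wordOp_lin M u (fun _ => 0) (fun _ => 0) (-1) s
  simpa using h

theorem wordOp_smul (M : Model ι q a) (u : List Piece) (F : List ι → ℂ) (c : ℂ)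
    (s : List ι) : wordOp M u (fun s => c * F s) s = c * wordOp M u F s := by
  have h := wordOp_lin M u (fun _ => 0) F c s
  simpa [wordOp_zero] using h

/-- Local relations give relations between values. -/
theorem value_context (M : Model ι q a) (u v l r : List Piece) (n : ℕ) (c : ℂ)
    (hu : strands u 0 = some n)
    (h : ∀ (F : List ι → ℂ) (s : List ι), s.length = n → wordOp M l F s = c * wordOp M r F s) :
    wordOp M (u ++ l ++ v) (fun _ => 1) [] = c * wordOp M (u ++ r ++ v) (fun _ => 1) [] := by
  simp only [wordOp_append]
  rw [← wordOp_smul]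
  exact wordOp_congr M u _ _ 0 n hu (fun s hs => h _ s hs) [] rfl

theorem move_shift_lin (M : Model ι q a) (i n : ℕ) (l r : List Piece) (F : List ι → ℂ)
    (s : List ι) (hs : s.length = n) (k : ℕ) (hn : i + k ≤ n) (c : ℂ)
    (h : ∀ (F : List ι → ℂ) (s : List ι), k ≤ s.length → wordOp M l F s = c * wordOp M r F s) :
    wordOp M (shiftW i l) F s = c * wordOp M (shiftW i r) F s := by
  have e : s = s.take i ++ s.drop i := (List.take_append_drop i s).symm
  have hi : (s.take i).length = i := by simp; omega
  have h1 := wordOp_shift M l F (s.take i) (s.drop i)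
  have h2 := wordOp_shift M r F (s.take i) (s.drop i)
  rw [hi, ← e] at h1 h2
  rw [h1, h2]
  exact h _ _ (by simp; omega)

theorem wt_regular {l r : List Piece} (h : RegularMove l r) : wtW l = wtW r := by
  have hI : Complex.I * Complex.I = -1 := Complex.I_mul_I
  cases h with
  | far g h i k =>
    cases g <;> cases h <;> simp [wtW, wt, Kind.inn, Kind.out, pow_add, mul_comm]
  | straighten_right i =>
    simp [wtW, wt, cup, cap, pow_succ]
    rw [← mul_pow]; simp
  | straighten_left i =>
    simp [wtW, wt, cup, cap, pow_succ]
    rw [← mul_pow]; simp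
  | rotate_cup_pos i => simp [wtW, wt, cup, pos, neg, pow_succ]
  | rotate_cup_neg i => simp [wtW, wt, cup, pos, neg, pow_succ]
  | rotate_cap_pos i => simp [wtW, wt, cap, pos, neg, pow_succ]
  | rotate_cap_neg i => simp [wtW, wt, cap, pos, neg, pow_succ]
  | reidemeister_two i => simp [wtW, wt, pos, neg]
  | reidemeister_two' i => simp [wtW, wt, pos, neg]
  | reidemeister_three i => simp [wtW, wt, pos]

/-- The number of strands at the top. -/
theorem strands_net (w : List Piece) (n m : ℕ) (h : strands w n = some m) :
    m + (w.map fun p => p.kind.inn).sum = n + (w.map fun p => p.kind.out).sum := by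
  induction w generalizing n with
  | nil => simp only [strands, Option.some.injEq] at h; simp [h]
  | cons p w ih =>
    simp only [strands] at h
    split_ifs at h with hp
    have := ih _ h
    simp only [List.map_cons, List.sum_cons]
    omega

theorem strands_parity {l r : List Piece} (h : RegularMove l r) (n m m' : ℕ)
    (h1 : strands l n = some m) (h2 : strands r n = some m') : m' = m := by
  have e1 := strands_net l n m h1
  have e2 := strands_net r n m' h2
  cases h with
  | far g h i k => simp at e1 e2; omega
  | straighten_right i => simp [cup, cap, Kind.inn, Kind.out] at e1 e2; omega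
  | straighten_left i => simp [cup, cap, Kind.inn, Kind.out] at e1 e2; omega
  | rotate_cup_pos i => simp [cup, pos, neg, Kind.inn, Kind.out] at e1 e2; omega
  | rotate_cup_neg i => simp [cup, pos, neg, Kind.inn, Kind.out] at e1 e2; omega
  | rotate_cap_pos i => simp [cap, pos, neg, Kind.inn, Kind.out] at e1 e2; omega
  | rotate_cap_neg i => simp [cap, pos, neg, Kind.inn, Kind.out] at e1 e2; omega
  | reidemeister_two i => simp [pos, neg, Kind.inn, Kind.out] at e1 e2; omega
  | reidemeister_two' i => simp [pos, neg, Kind.inn, Kind.out] at e1 e2; omega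
  | reidemeister_three i => simp [pos, Kind.inn, Kind.out] at e1 e2; omega

theorem valK_regular (M : Model ι q a) (D D' : List Piece) (h : Step RegularMove D D') :
    valK M D = valK M D' := by
  obtain ⟨hD, hD', u, l, r, v, hm, rfl, rfl⟩ := h
  obtain ⟨m, h1, h2⟩ := strands_some_append hD.2
  obtain ⟨n, h3, h4⟩ := strands_some_append h1
  obtain ⟨m', h1', h2'⟩ := strands_some_append hD'.2
  obtain ⟨n', h3', h4'⟩ := strands_some_append h1'
  rw [h3] at h3'
  simp only [Option.some.injEq] at h3'
  subst h3'
  have e : wtW (u ++ l ++ v) = wtW (u ++ r ++ v) := by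
    simp only [wtW_append, wt_regular hm]
  rw [valK, valK, e]
  congr 1
  have hmm : m' = m := strands_parity hm n m m' h4 h4'
  subst hmm
  have := value_context M u v l r n 1 h3 (fun F s hs => by
    rw [one_mul]; exact regular_local M hm n m' h4 h4' F s hs)
  simpa using this

theorem curlcupQ (M : Model ι q a) (F : ι → ι → ℂ) :
    opU M.cup (fun x y => opR M.Q F x y) = a * opU M.cup F := by
  have h1 : (fun x y => opR M.Q F x y) = fun x y => opR M.R F x y -
      (q - q⁻¹) * (F x y - M.cap x y * opU M.cup F) := by
    funext x y
    have := M.skein F x y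
    linear_combination -this
  rw [h1]
  simp only [opU_sub, opU_smul, opU_smul', M.curlcup]
  have h2 := M.circle
  linear_combination opU M.cup F * h2

theorem skein_zero (M : Model ι q a) (F : List ι → ℂ) (s : List ι) (hs : 2 ≤ s.length) :
    wordOp M [pos 0] F s = wordOp M [neg 0] F s + (q - q⁻¹) *
      (F s + (-1) * wordOp M [cap 0, cup 0] F s) := by
  rcases s with _ | ⟨b, _ | ⟨c, t⟩⟩
  · simp at hs
  · simp at hs
  · have := M.skein (fun x y => F (x :: y :: t)) b c
    simp only [wordOp, pieceOp, base, pos, neg, cup, cap]
    linear_combination this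

theorem skein_local (M : Model ι q a) (i n : ℕ) (hn : i + 2 ≤ n) (F : List ι → ℂ)
    (s : List ι) (hs : s.length = n) :
    wordOp M [pos i] F s = wordOp M [neg i] F s + (q - q⁻¹) *
      (F s + (-1) * wordOp M [cap i, cup i] F s) := by
  have e : s = s.take i ++ s.drop i := (List.take_append_drop i s).symm
  have hi : (s.take i).length = i := by simp; omega
  have g1 := wordOp_shift M [pos 0] F (s.take i) (s.drop i)
  have g2 := wordOp_shift M [neg 0] F (s.take i) (s.drop i)
  have g3 := wordOp_shift M [cap 0, cup 0] F (s.take i) (s.drop i)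
  rw [hi, ← e] at g1 g2 g3
  have g4 := skein_zero M (fun t => F (s.take i ++ t)) (s.drop i) (by simp; omega)
  rw [← g1, ← g2, ← g3, ← e] at g4
  simpa [shiftW, pos, neg, cap, cup] using g4

/-- The values of a model satisfy Kauffman's rules. -/
theorem isKInv_valK (M : Model ι q a) (φ : Laur →+* ℂ) (h1 : φ va = - Complex.I * a)
    (h2 : φ va' = Complex.I * a⁻¹) (h3 : φ vz = Complex.I * (q - q⁻¹)) :
    IsKInv φ (valK M) := by
  have hpos : ∀ i, wt (pos i) = Complex.I := fun _ => rfl
  have hneg : ∀ i, wt (neg i) = -Complex.I := fun _ => rfl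
  have hcup : ∀ i, wt (cup i) = (-1) ^ i := fun _ => rfl
  have hcap : ∀ i, wt (cap i) = -(-1) ^ i := fun _ => rfl
  refine ⟨valK_regular M, ?_, ?_, ?_, ?_, ?_⟩
  · intro u v i hD
    obtain ⟨m, h5, h6⟩ := strands_some_append hD.2
    obtain ⟨n, h7, h8⟩ := strands_some_append h5
    have hn : i + 2 ≤ n := by
      by_contra hcon
      simp [strands, cap, Kind.inn, hcon] at h8
    have key := value_context M u v [neg i, cap i] [cap i] n a h7 (fun F s hs => by
      have := move_shift_lin M i n [neg 0, cap 0] [cap 0] F s hs 2 hn a (by
        intro F s hs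
        rcases s with _ | ⟨b, _ | ⟨c, s⟩⟩
        · simp at hs
        · simp at hs
        · have := M.curlcapQ b c
          simp only [wordOp, pieceOp, base, neg, cap, opR_smul', this]
          ring)
      simpa [shiftW, neg, cap] using this)
    rw [valK, valK, key, h1]
    simp only [wtW_append, wtW_cons, wtW_nil, hneg, hcap]
    ring
  · intro u v i hD
    obtain ⟨m, h5, h6⟩ := strands_some_append hD.2
    obtain ⟨n, h7, h8⟩ := strands_some_append h5
    have hn : i + 2 ≤ n := by
      by_contra hcon
      simp [strands, cap, Kind.inn, hcon] at h8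
    have key := value_context M u v [pos i, cap i] [cap i] n a⁻¹ h7 (fun F s hs => by
      have := move_shift_lin M i n [pos 0, cap 0] [cap 0] F s hs 2 hn a⁻¹ (by
        intro F s hs
        rcases s with _ | ⟨b, _ | ⟨c, s⟩⟩
        · simp at hs
        · simp at hs
        · have := M.curlcap b c
          simp only [wordOp, pieceOp, base, pos, cap, opR_smul', this]
          ring)
      simpa [shiftW, pos, cap] using this)
    rw [valK, valK, key, h2]
    simp only [wtW_append, wtW_cons, wtW_nil, hpos, hcap]
    ring
  · intro u v i hD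
    obtain ⟨m, h5, h6⟩ := strands_some_append hD.2
    obtain ⟨n, h7, h8⟩ := strands_some_append h5
    have hn : i ≤ n := by
      by_contra hcon
      simp [strands, cup, Kind.inn, hcon] at h8
    have key := value_context M u v [cup i, neg i] [cup i] n a h7 (fun F s hs => by
      have := move_shift_lin M i n [cup 0, neg 0] [cup 0] F s hs 0 hn a (by
        intro F s hs
        exact curlcupQ M (fun x y => F (x :: y :: s)))
      simpa [shiftW, neg, cup] using this)
    rw [valK, valK, key, h1]
    simp only [wtW_append, wtW_cons, wtW_nil, hneg, hcup]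
    ring
  · intro u v i hD
    obtain ⟨m, h5, h6⟩ := strands_some_append hD.2
    obtain ⟨n, h7, h8⟩ := strands_some_append h5
    have hn : i ≤ n := by
      by_contra hcon
      simp [strands, cup, Kind.inn, hcon] at h8
    have key := value_context M u v [cup i, pos i] [cup i] n a⁻¹ h7 (fun F s hs => by
      have := move_shift_lin M i n [cup 0, pos 0] [cup 0] F s hs 0 hn a⁻¹ (by
        intro F s hs
        exact M.curlcup (fun x y => F (x :: y :: s)))
      simpa [shiftW, pos, cup] using this)
    rw [valK, valK, key, h2]
    simp only [wtW_append, wtW_cons, wtW_nil, hpos, hcup]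
    ring
  · intro u v i hD
    obtain ⟨m, h5, h6⟩ := strands_some_append hD.2
    obtain ⟨n, h7, h8⟩ := strands_some_append h5
    have hn : i + 2 ≤ n := by
      by_contra hcon
      simp [strands, pos, Kind.inn, hcon] at h8
    have key := fun F s hs => skein_local M i n hn F s hs
    have e1 : wordOp M (u ++ [pos i] ++ v) (fun _ => 1) [] =
        wordOp M (u ++ [neg i] ++ v) (fun _ => 1) [] + (q - q⁻¹) *
        (wordOp M (u ++ v) (fun _ => 1) [] +
          (-1) * wordOp M (u ++ [cap i, cup i] ++ v) (fun _ => 1) []) := by
      simp only [wordOp_append]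
      rw [← wordOp_lin, ← wordOp_lin]
      exact wordOp_congr M u _ _ 0 n h7 (fun s hs => key _ s hs) [] rfl
    rw [valK, valK, valK, valK, e1, h3]
    simp only [wtW_append, wtW_cons, wtW_nil, hpos, hneg, hcup, hcap]
    have e2 : ((-1 : ℂ) ^ i) * (-1) ^ i = 1 := by rw [← mul_pow]; simp
    linear_combination (Complex.I * (q - q⁻¹) * wtW u * wtW v *
      wordOp M (u ++ [cap i, cup i] ++ v) (fun _ => 1) []) * e2

end Pool.Agent.Helper79.VModel
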