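import Pool.Agent.Helper79.SlicedTotal
import Pool.Agent.Helper79.VInv
import Pool.Agent.Helper79.VDense

/-!
Existence and uniqueness of Kauffman's regular isotopy invariant.
-/

set_option autoImplicit false

namespace Pool.Agent.Helper79.Sliced

open LaurentPolynomial
open Pool.Agent.Helper79.VModel

/-- The algorithm succeeds on every typed word. -/
theorem run_total (w : List Piece) (v : Vec) (m k f : ℕ)
    (hv : ∀ e ∈ v, ok e.1 ∧ 2 * e.1.length = m) (hw : strands w m = some k)
    (hf : m + 2 * w.length + 1 ≤ f) : (run (act f) w v).isSome = true := by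
  induction w generalizing v m with
  | nil => rfl
  | cons p w ih =>
    simp only [strands] at hw
    split_ifs at hw with hp
    have h1 : (vbind (act f p.kind p.idx) v).isSome = true := by
      apply vbind_total
      intro e he
      have h2 := hv e he
      simp only [List.length_cons] at hf
      exact act_total e.1.length f (by omega) p.kind p.idx e.1 h2.1 rfl (by omega)
    rw [Option.isSome_iff_exists] at h1
    obtain ⟨v', hv'⟩ := h1
    rw [run, hv']
    refine ih v' (m - p.kind.inn + p.kind.out) ?_ hw ?_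
    · refine vbind_keys (p := fun s => ok s ∧ 2 * s.length = m - p.kind.inn + p.kind.out) hv' ?_
      intro e he w' hw' e' he'
      have h2 := hv e he
      have h3 := act_keys hw' h2.1 (by omega) e' he'
      rwa [h2.2] at h3
    · have : p.kind.out ≤ 2 := by cases p.kind <;> simp [Kind.out]
      simp only [List.length_cons] at hf
      omega

/-- A diagram ends with a maximum at the first place. -/
theorem exists_last (D : List Piece) (hD : IsDiagram D) :
    ∃ w : List Piece, D = w ++ [cap 0] ∧ strands w 0 = some 2 := by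
  obtain ⟨hne, hs⟩ := hD
  obtain ⟨w, p, rfl⟩ : ∃ w p, D = w ++ [p] :=
    ⟨D.dropLast, D.getLast hne, (List.dropLast_append_getLast hne).symm⟩
  obtain ⟨m, h1, h2⟩ := strands_some_append hs
  obtain ⟨g, i⟩ := p
  simp only [strands] at h2
  split_ifs at h2 with h3
  simp only [Option.some.injEq] at h2
  cases g with
  | cup => simp [Kind.out] at h2
  | cap =>
    simp only [Kind.inn, Kind.out] at h2 h3
    obtain rfl : m = 2 := by omega
    obtain rfl : i = 0 := by omega
    exact ⟨w, rfl, h1⟩
  | pos => simp [Kind.out] at h2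
  | neg => simp [Kind.out] at h2

/-- Every diagram has a universal value. -/
theorem exists_poly (D : List Piece) (hD : IsDiagram D) :
    ∃ P : Laur, ∀ (S : Type) (_ : CommRing S) (φ : Laur →+* S) (Λ : List Piece → S),
      IsKInv φ Λ → Λ D = φ P * Λ circle := by
  obtain ⟨w, rfl, hw⟩ := exists_last D hD
  have h1 := run_total w [([], pone)] 0 2 (0 + 2 * w.length + 1) (by
    intro e he
    simp only [List.mem_singleton] at he
    subst he
    exact ⟨trivial, rfl⟩) hw le_rfl
  rw [Option.isSome_iff_exists] at h1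
  obtain ⟨v, hv⟩ := h1
  refine ⟨vtot v, ?_⟩
  intro S _ φ Λ hΛ
  exact value_of_run' hΛ _ w hw hv

open Classical in
/-- Kauffman's regular isotopy invariant: the universal value of a diagram. -/
noncomputable def kauffmanLambda (D : List Piece) : Laur :=
  if h : IsDiagram D then (exists_poly D h).choose else 0

theorem kauffmanLambda_spec {D : List Piece} (hD : IsDiagram D) {S : Type} [CommRing S]
    {φ : Laur →+* S} {Λ : List Piece → S} (hΛ : IsKInv φ Λ) :
    Λ D = φ (kauffmanLambda D) * Λ circle := by
  rw [kauffmanLambda, dif_pos hD]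
  exact (exists_poly D hD).choose_spec S _ φ Λ hΛ

theorem isDiagram_circle : IsDiagram circle := by
  refine ⟨by simp [circle], ?_⟩
  simp [circle, strands, cup, cap, Kind.inn, Kind.out]

/-- There are enough numerical invariants. -/
theorem exists_numerical (q : ℝ) (hq : 1 < q) (k : ℕ) :
    ∃ Λ : List Piece → ℂ, IsKInv (phi q hq k) Λ ∧ Λ circle ≠ 0 := by
  have hq0 : (q : ℂ) ≠ 0 := by
    have : q ≠ 0 := by linarith
    exact_mod_cast this
  obtain ⟨ι, i1, i2, ⟨M⟩⟩ := exists_model (q : ℂ) hq0 k
  refine ⟨valK M, isKInv_valK M _ ?_ ?_ ?_, ?_⟩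
  · simp [phi, va, ua]
  · simp [phi, va', ua, mul_comm]
  · simp [phi, vz, phiz, uz]
  · have h1 := M.circle
    have h2 : valK M circle = - opU M.cup (fun x y => M.cap x y) := by
      simp [valK, wtW, wt, circle, cup, cap, wordOp, pieceOp, base]
    rw [h2]
    intro h3
    have h4 : opU M.cup (fun x y => M.cap x y) = 0 := neg_eq_zero.1 h3
    rw [h4, mul_zero] at h1
    have h5 : (0 : ℝ) = (q - q⁻¹) + q ^ (2 * k) - (q ^ (2 * k))⁻¹ := by
      have : (((q - q⁻¹) + q ^ (2 * k) - (q ^ (2 * k))⁻¹ : ℝ) : ℂ) =
        ((q : ℂ) - (q : ℂ)⁻¹) + (q : ℂ) ^ (2 * k) - ((q : ℂ) ^ (2 * k))⁻¹ := by push_cast; ring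
      rw [← this] at h1
      exact_mod_cast h1
    have h6 : q⁻¹ < 1 := inv_lt_one_of_one_lt₀ hq
    have h7 : 1 ≤ q ^ (2 * k) := one_le_pow₀ hq.le
    have h8 : (q ^ (2 * k))⁻¹ ≤ 1 := inv_le_one_of_one_le₀ h7
    linarith

/-- A Laurent polynomial which annihilates all numerical invariants vanishes. -/
theorem eq_of_numerical (P Q : Laur)
    (h : ∀ (φ : Laur →+* ℂ) (Λ : List Piece → ℂ), IsKInv φ Λ →
      φ P * Λ circle = φ Q * Λ circle) : P = Q := by
  rw [← sub_eq_zero]
  apply eq_zero_of_phi
  intro q hq k
  obtain ⟨Λ, h1, h2⟩ := exists_numerical q hq k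
  have h3 := h _ Λ h1
  rw [map_sub, sub_eq_zero]
  exact mul_right_cancel₀ h2 h3

theorem isDiagram_insert {u v l r : List Piece} (h : IsDiagram (u ++ l ++ v))
    (hlr : ∀ n m, strands l n = some m → strands r n = some m) (hr : u ++ r ++ v ≠ []) :
    IsDiagram (u ++ r ++ v) := by
  obtain ⟨m, h1, h2⟩ := strands_some_append h.2
  obtain ⟨n, h3, h4⟩ := strands_some_append h1
  exact ⟨hr, strands_append_some (strands_append_some h3 (hlr n m h4)) h2⟩

/-- **Existence of Kauffman's invariant.** -/
theorem isKauffmanLambda_kauffmanLambda : IsKauffmanLambda kauffmanLambda := by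
  refine ⟨?_, ?_, ?_, ?_, ?_, ?_, ?_⟩
  · apply eq_of_numerical
    intro φ Λ hΛ
    rw [← kauffmanLambda_spec isDiagram_circle hΛ]
    simp
  · intro D D' h
    apply eq_of_numerical
    intro φ Λ hΛ
    rw [← kauffmanLambda_spec h.1 hΛ, ← kauffmanLambda_spec h.2.1 hΛ]
    exact hΛ.regular D D' h
  · intro u v i hD
    have hD' : IsDiagram (u ++ [neg i, cap i] ++ v) := isDiagram_insert hD (by
      intro n m h
      simp only [strands, cap, neg, Kind.inn, Kind.out] at h ⊢
      split_ifs at h ⊢ <;> simp_all <;> omega) (by simp)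
    apply eq_of_numerical
    intro φ Λ hΛ
    rw [map_mul, mul_assoc, ← kauffmanLambda_spec hD hΛ, ← kauffmanLambda_spec hD' hΛ]
    exact hΛ.positive_curl_cap u v i hD
  · intro u v i hD
    have hD' : IsDiagram (u ++ [pos i, cap i] ++ v) := isDiagram_insert hD (by
      intro n m h
      simp only [strands, cap, pos, Kind.inn, Kind.out] at h ⊢
      split_ifs at h ⊢ <;> simp_all <;> omega) (by simp)
    apply eq_of_numerical
    intro φ Λ hΛ
    rw [map_mul, mul_assoc, ← kauffmanLambda_spec hD hΛ, ← kauffmanLambda_spec hD' hΛ]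
    exact hΛ.negative_curl_cap u v i hD
  · intro u v i hD
    have hD' : IsDiagram (u ++ [cup i, neg i] ++ v) := isDiagram_insert hD (by
      intro n m h
      simp only [strands, cup, neg, Kind.inn, Kind.out] at h ⊢
      split_ifs at h ⊢ <;> simp_all <;> omega) (by simp)
    apply eq_of_numerical
    intro φ Λ hΛ
    rw [map_mul, mul_assoc, ← kauffmanLambda_spec hD hΛ, ← kauffmanLambda_spec hD' hΛ]
    exact hΛ.positive_curl_cup u v i hD
  · intro u v i hD
    have hD' : IsDiagram (u ++ [cup i, pos i] ++ v) := isDiagram_insert hD (by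
      intro n m h
      simp only [strands, cup, pos, Kind.inn, Kind.out] at h ⊢
      split_ifs at h ⊢ <;> simp_all <;> omega) (by simp)
    apply eq_of_numerical
    intro φ Λ hΛ
    rw [map_mul, mul_assoc, ← kauffmanLambda_spec hD hΛ, ← kauffmanLambda_spec hD' hΛ]
    exact hΛ.negative_curl_cup u v i hD
  · intro u v i hD
    have hne : u ++ v ≠ [] := by
      intro h
      simp only [List.append_eq_nil_iff] at h
      obtain ⟨rfl, rfl⟩ := h
      have := hD.2
      simp [strands, pos, Kind.inn] at this
    have hD1 : IsDiagram (u ++ [neg i] ++ v) := isDiagram_insert hD (fun n m h => h) (by simp)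
    have hD2 : IsDiagram (u ++ [] ++ v) := isDiagram_insert hD (by
      intro n m h
      simp only [strands] at h ⊢
      split_ifs at h with hc
      simp only [Option.some.injEq] at h ⊢
      simp only [pos, Kind.inn, Kind.out] at h hc
      omega) (by simpa using hne)
    have hD3 : IsDiagram (u ++ [cap i, cup i] ++ v) := isDiagram_insert hD (by
      intro n m h
      simp only [strands, pos, cap, cup, Kind.inn, Kind.out] at h ⊢
      split_ifs at h ⊢ <;> simp_all <;> omega) (by simp)
    rw [List.append_nil] at hD2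
    apply eq_of_numerical
    intro φ Λ hΛ
    rw [map_add, map_mul, map_add, add_mul, mul_assoc, add_mul, ← kauffmanLambda_spec hD hΛ,
      ← kauffmanLambda_spec hD1 hΛ, ← kauffmanLambda_spec hD2 hΛ, ← kauffmanLambda_spec hD3 hΛ]
    exact hΛ.skein u v i hD

/-- **Uniqueness of Kauffman's invariant.** -/
theorem kauffmanLambda_unique {Λ : List Piece → Laur} (hΛ : IsKauffmanLambda Λ)
    {D : List Piece} (hD : IsDiagram D) : Λ D = kauffmanLambda D := by
  have := kauffmanLambda_spec hD hΛ.toKInv
  rw [hΛ.circle] at this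
  simpa using this

end Pool.Agent.Helper79.Sliced
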