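import Pool.Agent.Helper79.SlicedCoeff

/-!
A knot with 22 crossings whose unknotting number is at most 3 and whose Kauffman polynomial
has minimal degree 7.
-/

set_option autoImplicit false

namespace Pool.Agent.Helper79.Sliced

open LaurentPolynomial

/-- the diagram without its last maximum -/
def knotBody : List Piece :=
  [cup 0, cup 2, pos 1, neg 2, neg 0, cup 3, pos 2, pos 2, neg 3, neg 1, neg 0, pos 2, pos 1,
   neg 2, neg 2, pos 1, pos 2, neg 1, pos 2, pos 1, pos 1, pos 2, pos 2, cap 3, pos 1, pos 1,
   cap 0]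

/-- the diagram -/
def knotDiagram : List Piece := knotBody ++ [cap 0]

theorem isDiagram_knot : IsDiagram knotDiagram := by
  rw [← diag_iff]; decide

theorem orientations_knot :
    {o : List Bool | (writheOf knotDiagram o []).isSome = true} =
      {[false, false, true], [true, true, false]} := by
  ext o
  simp only [Set.mem_ofPred_eq, Set.mem_insert_iff, Set.mem_singleton_iff]
  constructor
  · intro h
    have h1 := length_of_writheOf _ _ _ h
    have h2 : cups knotDiagram = 3 := by decide
    rw [h2] at h1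
    obtain ⟨x, y, z, rfl⟩ := List.length_eq_three.1 h1
    clear h1 h2
    revert h
    revert x y z
    decide
  · rintro (rfl | rfl)
    · decide
    · decide

theorem isKnotDiagram_knot : IsKnotDiagram knotDiagram := by
  refine ⟨isDiagram_knot, ?_⟩
  rw [orientations_knot, Set.ncard_pair]
  decide

theorem hasWrithe_knot : HasWrithe knotDiagram 10 := ⟨[false, false, true], by decide⟩

/-! ### The unknotting number -/

/-- first part of the diagram -/
def seg1 : List Piece := [cup 0, cup 2, pos 1, neg 2, neg 0, cup 3]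
/-- second part of the diagram -/
def seg2 : List Piece := [pos 2, neg 3, neg 1, neg 0, pos 2, pos 1, neg 2, neg 2, pos 1, pos 2,
  neg 1]
/-- third part of the diagram -/
def seg3 : List Piece := [pos 1, pos 1]
/-- fourth part of the diagram -/
def seg4 : List Piece := [pos 2, cap 3, pos 1, pos 1, cap 0, cap 0]

/-- the diagram after one crossing change -/
def knot1 : List Piece := seg1 ++ [neg 2] ++ seg2 ++ [pos 2] ++ seg3 ++ [pos 2] ++ seg4
/-- the diagram after two crossing changes -/
def knot2 : List Piece := seg1 ++ [neg 2] ++ seg2 ++ [neg 2] ++ seg3 ++ [pos 2] ++ seg4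
/-- the diagram after three crossing changes -/
def knot3 : List Piece := seg1 ++ [neg 2] ++ seg2 ++ [neg 2] ++ seg3 ++ [neg 2] ++ seg4

/-- an isotopy from the changed diagram to the circle -/
def knotPath : List (ℕ × Code × Bool) :=
  [(6, .r2 false 2, true),
   (5, .curlCup false 3, true),
   (18, .r2 false 2, true),
   (3, .far .neg .neg 0 0, false),
   (8, .r3 false true true 1, false),
   (12, .r3 true true false 1, true),
   (14, .r2 true 2, true),
   (15, .far .pos .cap 1 0, true),
   (9, .r3 false true true 1, false),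
   (3, .far .neg .neg 0 0, true),
   (14, .far .pos .cap 1 0, true),
   (5, .far .neg .cup 1 0, false),
   (0, .far .cup .cup 0 0, true),
   (6, .far .neg .cup 0 1, false),
   (13, .far .pos .cap 1 0, true),
   (10, .r3 false true true 1, false),
   (7, .far .neg .cup 1 0, false),
   (8, .far .neg .cup 1 0, false),
   (3, .far .neg .neg 0 0, false),
   (9, .far .neg .cup 1 0, false),
   (18, .rotCap true 0, true),
   (12, .far .pos .cap 1 0, true),
   (11, .rotCap false 2, false),
   (10, .curlCup false 3, true),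
   (10, .zigL 2, true),
   (9, .r2 false 1, true),
   (8, .r2 false 1, true),
   (7, .r2 false 1, true),
   (1, .rotCup true 0, true),
   (3, .far .neg .neg 0 0, true),
   (2, .far .neg .neg 0 0, true),
   (5, .r3 true false false 0, false),
   (4, .r2 false 0, true),
   (4, .r3 true false false 0, false),
   (3, .r2 false 0, true),
   (1, .rotCup false 1, true),
   (2, .r2 true 1, true),
   (0, .far .cup .cup 0 0, true),
   (1, .curlCup false 0, true),
   (1, .curlCup false 0, true),
   (1, .zigR 0, true)]

set_option maxRecDepth 100000 in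
theorem follow_knot : follow knot3 knotPath = some circle := by
  decide +kernel

theorem isDiagram_knot1 : IsDiagram knot1 := by rw [← diag_iff]; decide
theorem isDiagram_knot2 : IsDiagram knot2 := by rw [← diag_iff]; decide
theorem isDiagram_knot3 : IsDiagram knot3 := by rw [← diag_iff]; decide

theorem change_knot1 : CrossingChange knotDiagram knot1 :=
  ⟨isDiagram_knot, isDiagram_knot1, seg1,
    seg2 ++ [pos 2] ++ seg3 ++ [pos 2] ++ seg4, 2, Or.inl ⟨by decide, by decide⟩⟩

theorem change_knot2 : CrossingChange knot1 knot2 :=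
  ⟨isDiagram_knot1, isDiagram_knot2, seg1 ++ [neg 2] ++ seg2,
    seg3 ++ [pos 2] ++ seg4, 2, Or.inl ⟨by decide, by decide⟩⟩

theorem change_knot3 : CrossingChange knot2 knot3 :=
  ⟨isDiagram_knot2, isDiagram_knot3, seg1 ++ [neg 2] ++ seg2 ++ [neg 2] ++ seg3, seg4, 2,
    Or.inl ⟨by decide, by decide⟩⟩

theorem unknottedBy_knot : UnknottedBy 3 knotDiagram :=
  .succ 2 _ _ _ (Relation.EqvGen.refl _) change_knot1
    (.succ 1 _ _ _ (Relation.EqvGen.refl _) change_knot2
      (.succ 0 _ _ _ (Relation.EqvGen.refl _) change_knot3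
        (.zero _ (isotopic_follow follow_knot isDiagram_knot3))))

theorem unknottingNumber_knot : unknottingNumber knotDiagram ≤ 3 :=
  Nat.sInf_le unknottedBy_knot

/-! ### The Kauffman polynomial -/

/-- the value of the invariant on the diagram -/
def knotPoly : Poly :=
  [(-8, 2, 7), (-8, 4, -56), (-8, 6, 126), (-8, 8, -120), (-8, 10, 55), (-8, 12, -12), (-8, 14,
   1), (-7, 1, -2), (-7, 3, 45), (-7, 5, -197), (-7, 7, 343), (-7, 9, -286), (-7, 11, 121), (-7,
   13, -25), (-7, 15, 2), (-6, 2, 4), (-6, 4, -8), (-6, 6, -30), (-6, 8, 104), (-6, 10, -112),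
   (-6, 12, 54), (-6, 14, -12), (-6, 16, 1), (-5, 1, -1), (-5, 3, 22), (-5, 5, -96), (-5, 7,
   174), (-5, 9, -150), (-5, 11, 64), (-5, 13, -13), (-5, 15, 1), (-4, 4, -5), (-4, 6, 20), (-4,
   8, -21), (-4, 10, 8), (-4, 12, -1), (-3, 1, 1), (-3, 3, -1), (-2, 0, 3), (-2, 2, -14), (-2,
   4, 12), (-2, 6, 27), (-2, 8, -55), (-2, 10, 36), (-2, 12, -10), (-2, 14, 1), (-1, 1, -13),
   (-1, 3, 96), (-1, 5, -271), (-1, 7, 371), (-1, 9, -277), (-1, 11, 114), (-1, 13, -24), (-1,
   15, 2), (0, 0, 10), (0, 2, -62), (0, 4, 164), (0, 6, -252), (0, 8, 242), (0, 10, -151), (0,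
   12, 58), (0, 14, -12), (0, 16, 1), (1, 1, -16), (1, 3, 88), (1, 5, -186), (1, 7, 209), (1, 9,
   -142), (1, 11, 57), (1, 13, -12), (1, 15, 1), (2, 0, 8), (2, 2, -45), (2, 4, 99), (2, 6,
   -103), (2, 8, 52), (2, 10, -12), (2, 12, 1), (3, 1, -3), (3, 3, 14), (3, 5, -16), (3, 7, 7),
   (3, 9, -1)]

theorem strands_knotBody : strands knotBody 0 = some 2 := by decide

set_option maxRecDepth 100000 in
theorem run_knotBody : run (act 20) knotBody [([], pone)] = some [([0], knotPoly)] := by
  decide +kernel

theorem value_knot {Λ : List Piece → Laur} (hΛ : IsKauffmanLambda Λ) :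
    Λ knotDiagram = pev knotPoly := by
  rw [knotDiagram, value_of_run hΛ 20 knotBody strands_knotBody run_knotBody]
  simp [vtot]

theorem isMinDegInv_knot {Λ : List Piece → Laur} (hΛ : IsKauffmanLambda Λ) :
    IsMinDegInv (kauffmanF Λ knotDiagram 10) 7 :=
  isMinDegInv_of (j := 9) (value_knot hΛ) (by decide +kernel) (by decide +kernel)

end Pool.Agent.Helper79.Sliced
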