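import Pool.Agent.Helper79.SlicedWords

/-!
Rules for sliced diagrams which involve maxima on the first strands, circles, and the variants
of the third Reidemeister move.
-/

set_option autoImplicit false

namespace Pool.Agent.Helper79.Sliced

variable {S : Type} {Λ : List Piece → S} {n m k : ℕ} {x y w u v : List Piece}

/-- (W7) -/
theorem eqv_W7a (hΛ : Reg Λ) (κ n : ℕ) (hn : κ + 1 ≤ n) :
    EqvW Λ n n (cup 0 :: ups 1 (κ + 1) ++ [cap 0])
      ([cup 0, neg 0, cap 1] ++ ups 0 κ) := by
  have a := eqv_near_ups hΛ .cap 0 0 κ (n + 2) (by simp [Kind.inn])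
    (by simp [Kind.inn]; omega)
  simp only [Kind.inn, Kind.out] at a
  have e3 : n + 2 - 2 + 0 = n := by omega
  rw [e3] at a
  have h1 := a.append_left (u := [cup 0, pos 1]) (k := n)
    (by simp [strands, pos, cup, Kind.inn, Kind.out]; omega)
  have b : EqvW Λ (n + 2) n [pos 1, cap 0] [neg 0, cap 1] := by
    refine EqvW.of_move hΛ (.rotate_cap_pos 0) ?_ ?_ <;>
    · simp [strands, pos, neg, cap, Kind.inn, Kind.out]; omega
  have h2 := (b.append_left (u := [cup 0]) (k := n) (strands_cup 0 n (by omega))).append_right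
    (v := ups 0 κ) (k := n) (strands_ups _ _ _ (by omega))
  refine EqvW.trans (y := [cup 0, pos 1] ++ ([cap 0] ++ ups 0 κ)) ?_ ?_
  · simpa [ups_succ', List.append_assoc, cap] using h1
  · simpa [List.append_assoc] using h2

theorem eqv_zigzag (hΛ : Reg Λ) (i n : ℕ) (hn : i + 1 ≤ n) :
    EqvW Λ n n [cup i, cap (i + 1)] [] := by
  refine EqvW.of_move hΛ (.straighten_right i) ?_ rfl
  simp [strands, cup, cap, Kind.inn, Kind.out]; omega


end Pool.Agent.Helper79.Sliced
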