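import Pool.Agent.Helper79.SlicedSound

/-!
The algorithm terminates on every diagram.
-/

set_option autoImplicit false

namespace Pool.Agent.Helper79.Sliced

theorem isKInv_zero : IsKInv (RingHom.id Laur) (fun _ => 0) := by
  refine ⟨?_, ?_, ?_, ?_, ?_, ?_⟩ <;> intros <;> simp

theorem act_keys {f : ℕ} {g : Kind} {i : ℕ} {ks : List ℕ} {v : Vec} (h : act f g i ks = some v)
    (hk : ok ks) (hi : i + g.inn ≤ 2 * ks.length) :
    ∀ e ∈ v, ok e.1 ∧ 2 * e.1.length = 2 * ks.length - g.inn + g.out :=
  (sound_act isKInv_zero f g i ks v h hk hi).keys

theorem vbind_keys {g : List ℕ → Option Vec} {v r : Vec} {p : List ℕ → Prop}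
    (hr : vbind g v = some r) (h : ∀ e ∈ v, ∀ w, g e.1 = some w → ∀ e' ∈ w, p e'.1) :
    ∀ e ∈ r, p e.1 := by
  induction v generalizing r with
  | nil =>
    simp only [vbind, Option.some.injEq] at hr
    subst hr; simp
  | cons e v ih =>
    rw [vbind] at hr
    split at hr
    · rename_i w acc hw hacc
      simp only [Option.some.injEq] at hr
      subst hr
      exact keys_vadd (keys_vsmul (h e List.mem_cons_self w hw))
        (ih hacc fun e he => h e (List.mem_cons_of_mem _ he))
    · simp at hr

theorem vbind_total {g : List ℕ → Option Vec} {v : Vec}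
    (h : ∀ e ∈ v, (g e.1).isSome = true) : (vbind g v).isSome = true := by
  induction v with
  | nil => rfl
  | cons e v ih =>
    rw [vbind]
    have h1 := h e List.mem_cons_self
    have h2 := ih fun e he => h e (List.mem_cons_of_mem _ he)
    rw [Option.isSome_iff_exists] at h1 h2
    obtain ⟨w, hw⟩ := h1
    obtain ⟨acc, hacc⟩ := h2
    rw [hw, hacc]
    rfl

theorem run_cross_total {L f : ℕ}
    (htot : ∀ (g : Kind) (i : ℕ) (ks : List ℕ), (g = .pos ∨ g = .neg) → ok ks →
      ks.length = L → i + 2 ≤ 2 * L → (act f g i ks).isSome = true)
    (w : List Piece) (hw : ∀ p ∈ w, (p.kind = .pos ∨ p.kind = .neg) ∧ p.idx + 2 ≤ 2 * L)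
    (v : Vec) (hv : ∀ e ∈ v, ok e.1 ∧ e.1.length = L) : (run (act f) w v).isSome = true := by
  induction w generalizing v with
  | nil => rfl
  | cons p w ih =>
    have hp := hw p List.mem_cons_self
    have h1 : (vbind (act f p.kind p.idx) v).isSome = true :=
      vbind_total fun e he => htot p.kind p.idx e.1 hp.1 (hv e he).1 (hv e he).2 hp.2
    rw [Option.isSome_iff_exists] at h1
    obtain ⟨v', hv'⟩ := h1
    rw [run, hv']
    refine ih (fun q hq => hw q (List.mem_cons_of_mem _ hq)) v' ?_
    refine vbind_keys (p := fun s => ok s ∧ s.length = L) hv' ?_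
    intro e he w' hw' e' he'
    have hL := (hv e he).2
    have hin : p.kind.inn = 2 := by rcases hp.1 with h | h <;> rw [h] <;> rfl
    have hout : p.kind.out = 2 := by rcases hp.1 with h | h <;> rw [h] <;> rfl
    have h3 := act_keys hw' (hv e he).1 (by rw [hin, hL]; exact hp.2) e' he'
    rw [hin, hout] at h3
    exact ⟨h3.1, by omega⟩

theorem mem_ups {s c : ℕ} {p : Piece} (h : p ∈ ups s c) :
    p.kind = .pos ∧ p.idx < s + c := by
  induction c with
  | zero => simp [ups] at h
  | succ c ih =>
    simp only [ups, List.mem_append, List.mem_singleton] at h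
    rcases h with h | h
    · have := ih h; exact ⟨this.1, by omega⟩
    · subst h; exact ⟨rfl, by simp [pos]⟩

theorem mem_downs {c : ℕ} {p : Piece} (h : p ∈ downs c) : p.kind = .neg ∧ p.idx < c := by
  induction c with
  | zero => simp [downs] at h
  | succ c ih =>
    simp only [downs, List.mem_cons] at h
    rcases h with h | h
    · subst h; exact ⟨rfl, by simp [neg]⟩
    · have := ih h; exact ⟨this.1, by omega⟩

/-- Totality of the algorithm. -/
theorem act_total (L : ℕ) : ∀ f : ℕ, 2 * L + 1 ≤ f → ∀ (g : Kind) (i : ℕ) (ks : List ℕ),
    ok ks → ks.length = L → i + g.inn ≤ 2 * L → (act f g i ks).isSome = true := by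
  induction L with
  | zero =>
    intro f hf g i ks hk hL hi
    obtain rfl := List.length_eq_zero_iff.1 hL
    obtain ⟨f, rfl⟩ : ∃ f', f = f' + 1 := ⟨f - 1, by omega⟩
    cases g with
    | cup =>
      obtain rfl : i = 0 := by simp [Kind.inn] at hi; exact hi
      simp [act, actStep, actCup]
    | cap => simp [Kind.inn] at hi
    | pos => simp [Kind.inn] at hi
    | neg => simp [Kind.inn] at hi
  | succ L ih =>
    have hcup : ∀ f : ℕ, 2 * L + 1 ≤ f → ∀ (i : ℕ) (ks : List ℕ), ok ks → ks.length = L + 1 →
        i ≤ 2 * (L + 1) → (act (f + 1) .cup i ks).isSome = true := by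
      intro f hf i ks hk hL hi
      cases ks with
      | nil => simp at hL
      | cons κ ks =>
        simp only [List.length_cons, Nat.add_right_cancel_iff] at hL
        have hk1 := hk.1
        simp only [act, actStep, actCup]
        split_ifs with h1 h2
        · rfl
        · rw [Option.isSome_map]
          exact ih f hf .cup (i - 1) ks hk.2 hL (by simp only [Kind.inn]; omega)
        · rw [Option.isSome_map]
          exact ih f hf .cup (i - 2) ks hk.2 hL (by simp only [Kind.inn]; omega)
    have hcross : ∀ f : ℕ, 2 * L + 1 ≤ f → ∀ (g : Kind) (i : ℕ) (ks : List ℕ),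
        (g = .pos ∨ g = .neg) → ok ks → ks.length = L → i + 2 ≤ 2 * L →
        (act f g i ks).isSome = true := by
      intro f hf g i ks hg hk hL hi
      exact ih f hf g i ks hk hL (by rcases hg with h | h <;> rw [h] <;> exact hi)
    have hcap : ∀ f : ℕ, 2 * L + 1 ≤ f → ∀ (i : ℕ) (ks : List ℕ), ok ks → ks.length = L + 1 →
        i + 2 ≤ 2 * (L + 1) → (act (f + 1) .cap i ks).isSome = true := by
      intro f hf i ks hk hL hi
      cases ks with
      | nil => simp at hL
      | cons κ ks =>
        simp only [List.length_cons, Nat.add_right_cancel_iff] at hL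
        have hk1 := hk.1
        simp only [act, actStep, actCap]
        split_ifs with h1 h2 h3 h4 h5
        · rw [Option.isSome_map]
          exact ih f hf .cap (i - 2) ks hk.2 hL (by simp only [Kind.inn]; omega)
        · refine run_cross_total (hcross f hf) _ ?_ _ ?_
          · intro p hp
            have := mem_downs hp
            exact ⟨Or.inr this.1, by omega⟩
          · intro e he
            simp only [List.mem_singleton] at he
            subst he
            exact ⟨hk.2, hL⟩
        · refine run_cross_total (hcross f hf) _ ?_ _ ?_
          · intro p hp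
            have := mem_downs hp
            exact ⟨Or.inr this.1, by omega⟩
          · intro e he
            simp only [List.mem_singleton] at he
            subst he
            exact ⟨hk.2, hL⟩
        · rw [Option.isSome_map]
          exact ih f hf .cap (i - 1) ks hk.2 hL (by simp only [Kind.inn]; omega)
        · rfl
        · refine run_cross_total (hcross f hf) _ ?_ _ ?_
          · intro p hp
            have := mem_ups hp
            exact ⟨Or.inl this.1, by omega⟩
          · intro e he
            simp only [List.mem_singleton] at he
            subst he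
            exact ⟨hk.2, hL⟩
    have hskein : ∀ f : ℕ, 2 * L + 2 ≤ f → ∀ (i : ℕ) (ks : List ℕ) (b : Vec), ok ks →
        ks.length = L + 1 → i + 2 ≤ 2 * (L + 1) → (skeinV (act f) i ks b).isSome = true := by
      intro f hf i ks b hk hL hi
      obtain ⟨f, rfl⟩ : ∃ f', f = f' + 1 := ⟨f - 1, by omega⟩
      have h1 : (vbind (act (f + 1) (cap i).kind (cap i).idx) [(ks, [(0, 1, 1)])]).isSome
          = true := by
        apply vbind_total
        intro e he
        simp only [List.mem_singleton] at he
        subst he
        exact hcap f (by omega) i ks hk hL hi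
      rw [Option.isSome_iff_exists] at h1
      obtain ⟨v, hv⟩ := h1
      have hkeys : ∀ e ∈ v, ok e.1 ∧ e.1.length = L := by
        refine vbind_keys (p := fun s => ok s ∧ s.length = L) hv ?_
        intro e he w' hw' e' he'
        simp only [List.mem_singleton] at he
        subst he
        have h3 := act_keys hw' hk (by rw [hL]; exact hi) e' he'
        simp only [cap, Kind.inn, Kind.out] at h3
        exact ⟨h3.1, by omega⟩
      have h2 : (vbind (act (f + 1) (cup i).kind (cup i).idx) v).isSome = true := by
        apply vbind_total
        intro e he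
        exact ih (f + 1) (by omega) .cup i e.1 (hkeys e he).1 (hkeys e he).2
          (by simp only [Kind.inn]; omega)
      rw [Option.isSome_iff_exists] at h2
      obtain ⟨v', hv'⟩ := h2
      simp only [skeinV, run, hv, hv']
      rfl
    intro f hf g i ks hk hL hi
    obtain ⟨f, rfl⟩ : ∃ f', f = f' + 1 := ⟨f - 1, by omega⟩
    cases g with
    | cup => exact hcup f (by omega) i ks hk hL (by simpa [Kind.inn] using hi)
    | cap => exact hcap f (by omega) i ks hk hL hi
    | pos =>
      have hi' : i + 2 ≤ 2 * (L + 1) := hi
      cases ks with
      | nil => simp at hL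
      | cons κ ks =>
        have hL' := hL
        simp only [List.length_cons, Nat.add_right_cancel_iff] at hL'
        have hk1 := hk.1
        show (actPos (act f) i (κ :: ks)).isSome = true
        rw [actPos.eq_def]
        simp only
        split_ifs with h1 h2 h3 h4 h5
        · rw [Option.isSome_map]
          exact ih f (by omega) .pos (i - 2) ks hk.2 hL' (by simp only [Kind.inn]; omega)
        · rfl
        · exact hskein f (by omega) i _ _ hk hL hi'
        · rw [Option.isSome_map]
          exact ih f (by omega) .pos (i - 1) ks hk.2 hL' (by simp only [Kind.inn]; omega)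
        · rfl
        · cases ks with
          | nil => simp at hk1; omega
          | cons l ls =>
            simp only
            split_ifs with h6
            · rfl
            · exact hskein f (by omega) 0 _ _ hk hL (by omega)
    | neg =>
      have hi' : i + 2 ≤ 2 * (L + 1) := hi
      cases ks with
      | nil => simp at hL
      | cons κ ks =>
        have hL' := hL
        simp only [List.length_cons, Nat.add_right_cancel_iff] at hL'
        have hk1 := hk.1
        show (actNeg (act f) i (κ :: ks)).isSome = true
        rw [actNeg.eq_def]
        simp only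
        split_ifs with h1 h2 h3 h4 h5
        · rw [Option.isSome_map]
          exact ih f (by omega) .neg (i - 2) ks hk.2 hL' (by simp only [Kind.inn]; omega)
        · exact hskein f (by omega) i _ _ hk hL hi'
        · rfl
        · rw [Option.isSome_map]
          exact ih f (by omega) .neg (i - 1) ks hk.2 hL' (by simp only [Kind.inn]; omega)
        · rfl
        · cases ks with
          | nil => simp at hk1; omega
          | cons l ls =>
            simp only
            split_ifs with h6
            · exact hskein f (by omega) 0 _ _ hk hL (by omega)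
            · rfl

end Pool.Agent.Helper79.Sliced
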