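import Pool.Agent.Helper79.SlicedDefs

/-!
Word calculus for sliced diagrams: equality of the values of a Kauffman invariant on words
related by regular isotopy, in context.
-/

set_option autoImplicit false

namespace Pool.Agent.Helper79.Sliced

theorem strands_append (u v : List Piece) (n : ℕ) :
    strands (u ++ v) n = (strands u n).bind (strands v) := by
  induction u generalizing n with
  | nil => simp [strands]
  | cons p u ih =>
    simp only [List.cons_append, strands]
    split_ifs with h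
    · exact ih _
    · rfl

theorem strands_append_some {u v : List Piece} {n m k : ℕ} (hu : strands u n = some m)
    (hv : strands v m = some k) : strands (u ++ v) n = some k := by
  rw [strands_append, hu]; exact hv

/-- `x` and `y` are words from `n` to `m` strands on which `Λ` takes the same value in every
context. -/
structure EqvW {S : Type} (Λ : List Piece → S) (n m : ℕ) (x y : List Piece) : Prop where
  left : strands x n = some m
  right : strands y n = some m
  val : ∀ pre C : List Piece, C ≠ [] → strands pre 0 = some n → strands C m = some 0 →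
    Λ (pre ++ x ++ C) = Λ (pre ++ y ++ C)

variable {S : Type} {Λ : List Piece → S} {n m k : ℕ} {x y w u v : List Piece}

theorem EqvW.refl (h : strands x n = some m) : EqvW Λ n m x x :=
  ⟨h, h, fun _ _ _ _ _ => rfl⟩

theorem EqvW.symm (h : EqvW Λ n m x y) : EqvW Λ n m y x :=
  ⟨h.right, h.left, fun pre C hC h1 h2 => (h.val pre C hC h1 h2).symm⟩

theorem EqvW.trans (h : EqvW Λ n m x y) (h' : EqvW Λ n m y w) : EqvW Λ n m x w :=
  ⟨h.left, h'.right, fun pre C hC h1 h2 => (h.val pre C hC h1 h2).trans (h'.val pre C hC h1 h2)⟩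

theorem EqvW.append_right (h : EqvW Λ n m x y) (hv : strands v m = some k) :
    EqvW Λ n k (x ++ v) (y ++ v) := by
  refine ⟨strands_append_some h.left hv, strands_append_some h.right hv, ?_⟩
  intro pre C hC h1 h2
  have := h.val pre (v ++ C) (by simp [hC]) h1 (strands_append_some hv h2)
  simpa [List.append_assoc] using this

theorem EqvW.append_left (h : EqvW Λ n m x y) (hu : strands u k = some n) :
    EqvW Λ k m (u ++ x) (u ++ y) := by
  refine ⟨strands_append_some hu h.left, strands_append_some hu h.right, ?_⟩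
  intro pre C hC h1 h2
  have := h.val (pre ++ u) C hC (strands_append_some h1 hu) h2
  simpa [List.append_assoc] using this

/-- `Λ` does not change under regular moves. -/
def Reg {S : Type} (Λ : List Piece → S) : Prop :=
  ∀ D D' : List Piece, Step RegularMove D D' → Λ D = Λ D'

/-- A regular move. -/
theorem EqvW.of_move (hΛ : Reg Λ) (h : RegularMove x y)
    (hx : strands x n = some m) (hy : strands y n = some m) : EqvW Λ n m x y := by
  refine ⟨hx, hy, ?_⟩
  intro pre C hC h1 h2
  apply hΛ
  refine ⟨⟨by simp [hC], ?_⟩, ⟨by simp [hC], ?_⟩, pre, x, y, C, h, rfl, rfl⟩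
  · rw [strands_append, strands_append, h1]; simp [hx, h2]
  · rw [strands_append, strands_append, h1]; simp [hy, h2]

/-- `pos s, pos (s+1), …, pos (s+c-1)` -/
def ups (s : ℕ) : ℕ → List Piece
  | 0 => []
  | c + 1 => ups s c ++ [pos (s + c)]

/-- `neg (c-1), …, neg 1, neg 0` -/
def downs : ℕ → List Piece
  | 0 => []
  | c + 1 => neg c :: downs c

theorem ups_succ' (s c : ℕ) : ups s (c + 1) = pos s :: ups (s + 1) c := by
  induction c with
  | zero => simp [ups]
  | succ c ih =>
    rw [ups, ih]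
    simp [ups]
    congr 1
    omega

theorem ups_add (s c d : ℕ) : ups s (c + d) = ups s c ++ ups (s + c) d := by
  induction d with
  | zero => simp [ups]
  | succ d ih =>
    rw [← add_assoc, ups, ih, ups]
    simp [add_assoc]

theorem ups_two (j : ℕ) : ups (1 + j) 2 = [pos (j + 1), pos (j + 2)] := by
  have e0 : 1 + j + 0 = j + 1 := by omega
  have e1 : 1 + j + (0 + 1) = j + 2 := by omega
  simp only [ups, List.nil_append, List.cons_append, e0, e1]

theorem strands_pos (i n : ℕ) (h : i + 2 ≤ n) : strands [pos i] n = some n := by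
  simp [strands, pos, Kind.inn, Kind.out, h]; omega
theorem strands_neg (i n : ℕ) (h : i + 2 ≤ n) : strands [neg i] n = some n := by
  simp [strands, neg, Kind.inn, Kind.out, h]; omega
theorem strands_cup (i n : ℕ) (h : i ≤ n) : strands [cup i] n = some (n + 2) := by
  simp [strands, cup, Kind.inn, Kind.out, h]
theorem strands_cap (i n : ℕ) (h : i + 2 ≤ n + 2) : strands [cap i] (n + 2) = some n := by
  simp [strands, cap, Kind.inn, Kind.out]; omega

theorem strands_ups (s c n : ℕ) (h : c = 0 ∨ s + c + 1 ≤ n) : strands (ups s c) n = some n := by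
  induction c with
  | zero => simp [ups, strands]
  | succ c ih =>
    rw [ups]
    apply strands_append_some (ih (by omega))
    exact strands_pos _ _ (by omega)

theorem strands_downs (c n : ℕ) (h : c = 0 ∨ c + 1 ≤ n) : strands (downs c) n = some n := by
  induction c with
  | zero => simp [downs, strands]
  | succ c ih =>
    rw [downs]
    exact strands_append_some (u := [neg c]) (strands_neg _ _ (by omega)) (ih (by omega))

/-- A piece far to the right of a crossing. -/
theorem eqv_far_pos (hΛ : Reg Λ) (g : Kind) (j i n : ℕ) (h : j + 2 ≤ i)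
    (hn : i + g.inn ≤ n) :
    EqvW Λ n (n - g.inn + g.out) [pos j, ⟨g, i⟩] [⟨g, i⟩, pos j] := by
  obtain ⟨k, rfl⟩ := Nat.exists_eq_add_of_le h
  have := RegularMove.far Kind.pos g j k
  refine EqvW.of_move hΛ ?_ ?_ ?_
  · simpa [Kind.inn, Kind.out, pos] using this
  · cases g <;> simp [strands, pos, Kind.inn, Kind.out] at hn ⊢ <;> omega
  · cases g <;> simp [strands, pos, Kind.inn, Kind.out] at hn ⊢ <;> omega

/-- A piece far to the right of a sequence of crossings. -/
theorem eqv_far_ups (hΛ : Reg Λ) (g : Kind) (s c i n : ℕ) (h : s + c + 1 ≤ i)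
    (hn : i + g.inn ≤ n) :
    EqvW Λ n (n - g.inn + g.out) (ups s c ++ [⟨g, i⟩]) ([⟨g, i⟩] ++ ups s c) := by
  have hg : strands [⟨g, i⟩] n = some (n - g.inn + g.out) := by
    simp [strands, hn]
  induction c with
  | zero => simpa [ups] using EqvW.refl (Λ := Λ) hg
  | succ c ih =>
    have ih := ih (by omega)
    have h1 : EqvW Λ n (n - g.inn + g.out) (ups s c ++ [pos (s + c), ⟨g, i⟩])
        (ups s c ++ [⟨g, i⟩, pos (s + c)]) :=
      (eqv_far_pos hΛ g (s + c) i n (by omega) hn).append_left (strands_ups _ _ _ (by omega))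
    have h2 := ih.append_right (v := [pos (s + c)])
      (strands_pos (s + c) (n - g.inn + g.out) (by omega))
    have h3 := h1.trans (by simpa using h2)
    simpa [ups] using h3

/-- (W1) -/
theorem eqv_W1 (hΛ : Reg Λ) (g : Kind) (κ i n : ℕ) (h : κ + 2 ≤ i)
    (hn : i + g.inn ≤ n + 2) :
    EqvW Λ n (n - g.inn + g.out + 2) (cup 0 :: ups 1 κ ++ [⟨g, i⟩])
      (⟨g, i - 2⟩ :: cup 0 :: ups 1 κ) := by
  obtain ⟨i, rfl⟩ : ∃ j, i = j + 2 := ⟨i - 2, by omega⟩
  have e : n + 2 - g.inn + g.out = n - g.inn + g.out + 2 := by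
    cases g <;> simp [Kind.inn, Kind.out] at hn ⊢ <;> omega
  have h1 := (eqv_far_ups hΛ g 1 κ (i + 2) (n + 2) (by omega) hn).append_left
    (u := [cup 0]) (strands_cup 0 n (by omega))
  rw [e] at h1
  have h2 : EqvW Λ n (n - g.inn + g.out + 2) [cup 0, ⟨g, i + 2⟩] [⟨g, i⟩, cup 0] := by
    have := RegularMove.far Kind.cup g 0 i
    refine EqvW.of_move hΛ ?_ ?_ ?_
    · simpa [Kind.inn, Kind.out, cup, add_comm] using this
    · cases g <;> simp [strands, cup, Kind.inn, Kind.out] at hn ⊢ <;> omega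
    · cases g <;> simp [strands, cup, Kind.inn, Kind.out] at hn ⊢ <;> omega
  have h3 := h2.append_right (v := ups 1 κ) (k := n - g.inn + g.out + 2)
    (strands_ups _ _ _ (by cases g <;> simp [Kind.inn, Kind.out] at hn ⊢ <;> omega))
  have := h1.trans (by simpa using h3)
  simpa using this

/-- A piece far to the left of a crossing. -/
theorem eqv_near_pos (hΛ : Reg Λ) (g : Kind) (i d n : ℕ)
    (hn : i + g.inn + d + 2 ≤ n) :
    EqvW Λ n (n - g.inn + g.out) [pos (i + g.inn + d), ⟨g, i⟩]
      [⟨g, i⟩, pos (i + g.out + d)] := by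
  have := RegularMove.far g Kind.pos i d
  refine (EqvW.of_move hΛ (x := [⟨g, i⟩, pos (i + g.out + d)]) ?_ ?_ ?_).symm
  · simpa [Kind.inn, Kind.out, pos] using this
  · cases g <;> simp [strands, pos, Kind.inn, Kind.out] at hn ⊢ <;> omega
  · cases g <;> simp [strands, pos, Kind.inn, Kind.out] at hn ⊢ <;> omega

/-- A piece far to the left of a sequence of crossings. -/
theorem eqv_near_ups (hΛ : Reg Λ) (g : Kind) (i d c n : ℕ)
    (hn0 : i + g.inn ≤ n) (hn : c = 0 ∨ i + g.inn + d + c + 1 ≤ n) :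
    EqvW Λ n (n - g.inn + g.out) (ups (i + g.inn + d) c ++ [⟨g, i⟩])
      ([⟨g, i⟩] ++ ups (i + g.out + d) c) := by
  have hg : strands [⟨g, i⟩] n = some (n - g.inn + g.out) := by
    simp [strands, hn0]
  induction c with
  | zero => simpa [ups] using EqvW.refl (Λ := Λ) hg
  | succ c ih =>
    have ih := ih (by omega)
    have h1 : EqvW Λ n (n - g.inn + g.out) (ups (i + g.inn + d) c ++
        [pos (i + g.inn + (d + c)), ⟨g, i⟩])
        (ups (i + g.inn + d) c ++ [⟨g, i⟩, pos (i + g.out + (d + c))]) :=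
      (eqv_near_pos hΛ g i (d + c) n (by omega)).append_left (strands_ups _ _ _ (by omega))
    have h2 := ih.append_right (v := [pos (i + g.out + (d + c))])
      (strands_pos (i + g.out + (d + c)) (n - g.inn + g.out)
        (by cases g <;> simp [Kind.inn, Kind.out] at hn ⊢ <;> omega))
    have h3 := h1.trans (by simpa using h2)
    simpa [ups, add_assoc] using h3

theorem eqv_r2 (hΛ : Reg Λ) (i n : ℕ) (h : i + 2 ≤ n) :
    EqvW Λ n n [pos i, neg i] [] :=
  EqvW.of_move hΛ (.reidemeister_two i)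
    (strands_append_some (u := [pos i]) (strands_pos _ _ h) (strands_neg _ _ h)) rfl

theorem eqv_r2' (hΛ : Reg Λ) (i n : ℕ) (h : i + 2 ≤ n) :
    EqvW Λ n n [neg i, pos i] [] :=
  EqvW.of_move hΛ (.reidemeister_two' i)
    (strands_append_some (u := [neg i]) (strands_neg _ _ h) (strands_pos _ _ h)) rfl

theorem eqv_r3 (hΛ : Reg Λ) (i n : ℕ) (h : i + 3 ≤ n) :
    EqvW Λ n n [pos i, pos (i + 1), pos i] [pos (i + 1), pos i, pos (i + 1)] := by
  refine EqvW.of_move hΛ (.reidemeister_three i) ?_ ?_ <;>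
  · simp [strands, pos, Kind.inn, Kind.out]; omega

theorem eqv_slide_pos (hΛ : Reg Λ) (i n : ℕ) (h : i + 3 ≤ n) :
    EqvW Λ n n [pos i, pos (i + 1), pos i] [pos (i + 1), pos i, pos (i + 1)] :=
  eqv_r3 hΛ i n h

/-- `pos i, pos (i+1), neg i ≈ neg (i+1), pos i, pos (i+1)` -/
theorem eqv_slide_neg (hΛ : Reg Λ) (i n : ℕ) (h : i + 3 ≤ n) :
    EqvW Λ n n [pos i, pos (i + 1), neg i] [neg (i + 1), pos i, pos (i + 1)] := by
  have s1 : strands [pos i, pos (i + 1), neg i] n = some n := by
    simp [strands, pos, neg, Kind.inn, Kind.out]; omega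
  have h1 : EqvW Λ n n [pos i, pos (i + 1), neg i]
      [neg (i + 1), pos (i + 1), pos i, pos (i + 1), neg i] := by
    have := (eqv_r2' hΛ (i + 1) n (by omega)).symm.append_right (v := [pos i, pos (i + 1), neg i]) s1
    simpa using this
  have h2 : EqvW Λ n n [neg (i + 1), pos (i + 1), pos i, pos (i + 1), neg i]
      [neg (i + 1), pos i, pos (i + 1), pos i, neg i] := by
    have := ((eqv_r3 hΛ i n h).symm.append_right (v := [neg i]) (strands_neg i n (by omega))).append_left
      (u := [neg (i + 1)]) (strands_neg (i + 1) n (by omega))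
    simpa using this
  have h3 : EqvW Λ n n [neg (i + 1), pos i, pos (i + 1), pos i, neg i]
      [neg (i + 1), pos i, pos (i + 1)] := by
    have := (eqv_r2 hΛ i n (by omega)).append_left (u := [neg (i + 1), pos i, pos (i + 1)]) (k := n)
      (by simp [strands, pos, neg, Kind.inn, Kind.out]; omega)
    simpa using this
  exact h1.trans (h2.trans h3)

/-- A strand slides over a maximum. -/
theorem eqv_slide_cap (hΛ : Reg Λ) (i n : ℕ) (h : i + 1 ≤ n) :
    EqvW Λ (n + 2) n [pos i, pos (i + 1), cap i] [cap (i + 1)] := by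
  have h1 : EqvW Λ (n + 2) n [pos (i + 1), cap i] [neg i, cap (i + 1)] := by
    refine EqvW.of_move hΛ (.rotate_cap_pos i) ?_ ?_ <;>
    · simp [strands, pos, neg, cap, Kind.inn, Kind.out]; omega
  have h2 := h1.append_left (u := [pos i]) (strands_pos i (n + 2) (by omega))
  have h3 := (eqv_r2 hΛ i (n + 2) (by omega)).append_right (v := [cap (i + 1)])
    (strands_cap (i + 1) n (by omega))
  exact EqvW.trans (by simpa using h2) (by simpa using h3)

/-- A strand slides over a minimum. -/
theorem eqv_slide_cup (hΛ : Reg Λ) (i n : ℕ) (h : i + 1 ≤ n) :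
    EqvW Λ n (n + 2) [cup (i + 1), pos i, pos (i + 1)] [cup i] := by
  have h1 : EqvW Λ n (n + 2) [cup (i + 1), pos i] [cup i, neg (i + 1)] := by
    refine (EqvW.of_move hΛ (.rotate_cup_neg i) ?_ ?_).symm <;>
    · simp [strands, pos, neg, cup, Kind.inn, Kind.out]; omega
  have h2 := h1.append_right (v := [pos (i + 1)]) (strands_pos (i + 1) (n + 2) (by omega))
  have h3 := (eqv_r2' hΛ (i + 1) (n + 2) (by omega)).append_left (u := [cup i])
    (strands_cup i n (by omega))
  exact EqvW.trans (by simpa using h2) (by simpa using h3)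

/-- (W2) for crossings: if `1 ≤ i` and `i + 1 ≤ κ`; here `i = j + 1`, `κ = j + 2 + c`. -/
theorem eqv_W2 (hΛ : Reg Λ) (s : Bool) (j c n : ℕ) (hn : j + 2 + c ≤ n) :
    EqvW Λ n (n + 2) (cup 0 :: ups 1 (j + 2 + c) ++ [⟨if s then .pos else .neg, j + 1⟩])
      (⟨if s then .pos else .neg, j⟩ :: cup 0 :: ups 1 (j + 2 + c)) := by
  set g : Kind := if s then .pos else .neg with hg
  have gin : g.inn = 2 := by rw [hg]; cases s <;> rfl
  have gout : g.out = 2 := by rw [hg]; cases s <;> rfl
  have hsplit : ups 1 (j + 2 + c) = ups 1 j ++ [pos (j + 1), pos (j + 2)] ++ ups (j + 3) c := by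
    rw [ups_add, ups_add]
    rw [ups_two]
    congr 2
    omega
  -- (a)
  have a := eqv_near_ups hΛ g (j + 1) 0 c (n + 2) (by omega) (by omega)
  rw [gin, gout] at a
  -- (b)
  have b : EqvW Λ (n + 2) (n + 2) [pos (j + 1), pos (j + 2), ⟨g, j + 1⟩]
      [⟨g, j + 2⟩, pos (j + 1), pos (j + 2)] := by
    rw [hg]
    cases s
    · exact eqv_slide_neg hΛ (j + 1) (n + 2) (by omega)
    · exact eqv_slide_pos hΛ (j + 1) (n + 2) (by omega)
  have c1 := eqv_W1 hΛ g j (j + 2) n (by omega) (by omega)
  rw [gin, gout] at c1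
  have e2 : n - 2 + 2 + 2 = n + 2 := by omega
  rw [e2] at c1
  have e3 : n + 2 - 2 + 2 = n + 2 := by omega
  rw [e3] at a
  have h1 := a.append_left (u := cup 0 :: ups 1 j ++ [pos (j + 1), pos (j + 2)]) (k := n)
    (strands_append_some (strands_append_some (u := [cup 0]) (strands_cup 0 n (by omega))
      (strands_ups _ _ _ (by omega))) (by simp [strands, pos, Kind.inn, Kind.out]; omega))
  have h2 := (b.append_left (u := cup 0 :: ups 1 j) (k := n)
    (strands_append_some (u := [cup 0]) (strands_cup 0 n (by omega))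
      (strands_ups _ _ _ (by omega)))).append_right (v := ups (j + 3) c) (k := n + 2)
    (strands_ups _ _ _ (by omega))
  have h3 := c1.append_right (v := [pos (j + 1), pos (j + 2)] ++ ups (j + 3) c) (k := n + 2)
    (strands_append_some (k := n + 2) (m := n + 2)
      (by simp [strands, pos, Kind.inn, Kind.out]; omega) (strands_ups _ _ _ (by omega)))
  rw [hsplit]
  refine EqvW.trans (y := (cup 0 :: ups 1 j ++ [pos (j + 1), pos (j + 2)]) ++
    ([⟨g, j + 1⟩] ++ ups (j + 3) c)) ?_ (EqvW.trans (y := (cup 0 :: ups 1 j) ++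
    [⟨g, j + 2⟩, pos (j + 1), pos (j + 2)] ++ ups (j + 3) c) ?_ ?_)
  · simpa [List.append_assoc, add_assoc] using h1
  · simpa [List.append_assoc] using h2
  · simpa [List.append_assoc] using h3

/-- (W2) for maxima. -/
theorem eqv_W2cap (hΛ : Reg Λ) (j c n : ℕ) (hn : j + 2 + c ≤ n) :
    EqvW Λ n n (cup 0 :: ups 1 (j + 2 + c) ++ [cap (j + 1)])
      (cap j :: cup 0 :: ups 1 (j + c)) := by
  have hsplit : ups 1 (j + 2 + c) = ups 1 j ++ [pos (j + 1), pos (j + 2)] ++ ups (j + 3) c := by
    rw [ups_add, ups_add]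
    rw [ups_two]
    congr 2
    omega
  have hsplit2 : ups 1 (j + c) = ups 1 j ++ ups (j + 1) c := by
    rw [ups_add, add_comm 1 j]
  have a := eqv_near_ups hΛ .cap (j + 1) 0 c (n + 2) (by simp [Kind.inn]; omega)
    (by simp [Kind.inn]; omega)
  simp only [Kind.inn, Kind.out] at a
  have e3 : n + 2 - 2 + 0 = n := by omega
  rw [e3] at a
  have b : EqvW Λ (n + 2) n [pos (j + 1), pos (j + 2), cap (j + 1)] [cap (j + 2)] :=
    eqv_slide_cap hΛ (j + 1) n (by omega)
  have c1 := eqv_W1 hΛ .cap j (j + 2) n (by omega) (by simp [Kind.inn]; omega)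
  simp only [Kind.inn, Kind.out] at c1
  have e2 : n - 2 + 0 + 2 = n := by omega
  rw [e2] at c1
  have h1 := a.append_left (u := cup 0 :: ups 1 j ++ [pos (j + 1), pos (j + 2)]) (k := n)
    (strands_append_some (strands_append_some (u := [cup 0]) (strands_cup 0 n (by omega))
      (strands_ups _ _ _ (by omega))) (by simp [strands, pos, Kind.inn, Kind.out]; omega))
  have h2 := (b.append_left (u := cup 0 :: ups 1 j) (k := n)
    (strands_append_some (u := [cup 0]) (strands_cup 0 n (by omega))
      (strands_ups _ _ _ (by omega)))).append_right (v := ups (j + 1) c) (k := n)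
    (strands_ups _ _ _ (by omega))
  have h3 := c1.append_right (v := ups (j + 1) c) (k := n)
    (strands_ups _ _ _ (by omega))
  rw [hsplit, hsplit2]
  refine EqvW.trans (y := (cup 0 :: ups 1 j ++ [pos (j + 1), pos (j + 2)]) ++
    ([cap (j + 1)] ++ ups (j + 1) c)) ?_ (EqvW.trans (y := (cup 0 :: ups 1 j) ++
    [cap (j + 2)] ++ ups (j + 1) c) ?_ ?_)
  · simpa [List.append_assoc, add_assoc, cap] using h1
  · simpa [List.append_assoc] using h2
  · simpa [List.append_assoc, cap] using h3

/-- (W3): `i = j + 1 ≤ κ + 1`, `κ = j + c`. -/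
theorem eqv_W3 (hΛ : Reg Λ) (j c n : ℕ) (hn : j + c ≤ n) :
    EqvW Λ n (n + 4) (cup 0 :: ups 1 (j + c) ++ [cup (j + 1)])
      (cup j :: cup 0 :: ups 1 (j + c + 2)) := by
  have hsplit2 : ups 1 (j + c) = ups 1 j ++ ups (j + 1) c := by
    rw [ups_add, add_comm 1 j]
  have hsplit : ups 1 (j + c + 2) = ups 1 j ++ [pos (j + 1), pos (j + 2)] ++ ups (j + 3) c := by
    have : j + c + 2 = j + 2 + c := by omega
    rw [this, ups_add, ups_add]
    rw [ups_two]
    congr 2
    omega
  have a := eqv_near_ups hΛ .cup (j + 1) 0 c (n + 2) (by simp [Kind.inn]; omega)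
    (by simp [Kind.inn]; omega)
  simp only [Kind.inn, Kind.out] at a
  have e3 : n + 2 - 0 + 2 = n + 4 := by omega
  rw [e3] at a
  have b : EqvW Λ (n + 2) (n + 4) [cup (j + 2), pos (j + 1), pos (j + 2)] [cup (j + 1)] :=
    eqv_slide_cup hΛ (j + 1) (n + 2) (by omega)
  have c1 := eqv_W1 hΛ .cup j (j + 2) n (by omega) (by simp [Kind.inn]; omega)
  simp only [Kind.inn, Kind.out] at c1
  have e2 : n - 0 + 2 + 2 = n + 4 := by omega
  rw [e2] at c1
  have h1 := a.append_left (u := cup 0 :: ups 1 j) (k := n)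
    (strands_append_some (u := [cup 0]) (strands_cup 0 n (by omega))
      (strands_ups _ _ _ (by omega)))
  have h2 := (b.symm.append_left (u := cup 0 :: ups 1 j) (k := n)
    (strands_append_some (u := [cup 0]) (strands_cup 0 n (by omega))
      (strands_ups _ _ _ (by omega)))).append_right (v := ups (j + 3) c) (k := n + 4)
    (strands_ups _ _ _ (by omega))
  have h3 := c1.append_right (v := [pos (j + 1), pos (j + 2)] ++ ups (j + 3) c) (k := n + 4)
    (strands_append_some (k := n + 4) (m := n + 4)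
      (by simp [strands, pos, Kind.inn, Kind.out]; omega) (strands_ups _ _ _ (by omega)))
  rw [hsplit, hsplit2]
  refine EqvW.trans (y := (cup 0 :: ups 1 j) ++
    ([cup (j + 1)] ++ ups (j + 3) c)) ?_ (EqvW.trans (y := (cup 0 :: ups 1 j) ++
    [cup (j + 2), pos (j + 1), pos (j + 2)] ++ ups (j + 3) c) ?_ ?_)
  · simpa [List.append_assoc, add_assoc, cup] using h1
  · simpa [List.append_assoc] using h2
  · simpa [List.append_assoc, cup] using h3

/-- (W4) -/
theorem eqv_W4 (hΛ : Reg Λ) (κ n : ℕ) (hn : κ + 1 ≤ n) :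
    EqvW Λ n n (cup 0 :: ups 1 κ ++ [cap (κ + 1)]) (downs κ) := by
  induction κ with
  | zero =>
    simp only [ups, downs, List.cons_append, List.nil_append]
    refine EqvW.of_move hΛ (.straighten_right 0) ?_ rfl
    simp [strands, cup, cap, Kind.inn, Kind.out]; omega
  | succ κ ih =>
    have ih := ih (by omega)
    have h0 : EqvW Λ (n + 2) n [pos (κ + 1), cap (κ + 2)] [neg (κ + 2), cap (κ + 1)] := by
      refine (EqvW.of_move hΛ (.rotate_cap_neg (κ + 1)) ?_ ?_).symm <;>
      · simp [strands, pos, neg, cap, Kind.inn, Kind.out]; omega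
    have h1 := h0.append_left (u := cup 0 :: ups 1 κ) (k := n)
      (strands_append_some (u := [cup 0]) (strands_cup 0 n (by omega))
      (strands_ups _ _ _ (by omega)))
    have h2 := eqv_W1 hΛ .neg κ (κ + 2) n (by omega) (by simp [Kind.inn]; omega)
    simp only [Kind.inn, Kind.out] at h2
    have e2 : n - 2 + 2 + 2 = n + 2 := by omega
    rw [e2] at h2
    have h3 := h2.append_right (v := [cap (κ + 1)]) (strands_cap (κ + 1) n (by omega))
    have h4 := ih.append_left (u := [neg κ]) (strands_neg κ n (by omega))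
    refine EqvW.trans (y := cup 0 :: ups 1 κ ++ [neg (κ + 2), cap (κ + 1)]) ?_
      (EqvW.trans (y := neg κ :: cup 0 :: ups 1 κ ++ [cap (κ + 1)]) ?_ ?_)
    · simpa [ups, add_comm 1 κ] using h1
    · simpa [neg] using h3
    · simpa [downs] using h4

/-- A sequence of crossings under the top strand. -/
theorem eqv_W2ups (hΛ : Reg Λ) (s c κ n : ℕ) (h : c = 0 ∨ s + c + 1 ≤ κ)
    (hn : κ ≤ n) :
    EqvW Λ n (n + 2) (cup 0 :: ups 1 κ ++ ups (s + 1) c) (ups s c ++ cup 0 :: ups 1 κ) := by
  have hT : strands (cup 0 :: ups 1 κ) n = some (n + 2) :=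
    strands_append_some (u := [cup 0]) (strands_cup 0 n (by omega))
      (strands_ups _ _ _ (by omega))
  induction c with
  | zero => simpa [ups] using EqvW.refl (Λ := Λ) hT
  | succ c ih =>
    have ih := ih (by omega)
    obtain ⟨d, hd⟩ : ∃ d, κ = (s + c) + 2 + d := ⟨κ - (s + c + 2), by omega⟩
    have h1 := ih.append_right (v := [pos (s + 1 + c)]) (k := n + 2)
      (strands_pos _ _ (by omega))
    have h2 := eqv_W2 hΛ true (s + c) d n (by omega)
    rw [← hd] at h2
    have h3 := h2.append_left (u := ups s c) (k := n) (strands_ups _ _ _ (by omega))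
    refine EqvW.trans (y := ups s c ++ (cup 0 :: ups 1 κ ++ [pos (s + c + 1)])) ?_ ?_
    · have e : s + 1 + c = s + c + 1 := by omega
      rw [e] at h1
      simpa [ups, e, List.append_assoc] using h1
    · simpa [ups, pos, List.append_assoc] using h3

/-- (W5) -/
theorem eqv_W5 (hΛ : Reg Λ) (κ l n : ℕ) (h : κ ≤ l) (hn : l ≤ n) :
    EqvW Λ n (n + 4) (cup 0 :: ups 1 l ++ (cup 0 :: ups 1 (κ + 1)) ++ [pos 0])
      (cup 0 :: ups 1 κ ++ (cup 0 :: ups 1 (l + 2))) := by
  have hT : strands (cup 0 :: ups 1 l) n = some (n + 2) :=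
    strands_append_some (u := [cup 0]) (strands_cup 0 n (by omega))
      (strands_ups _ _ _ (by omega))
  -- (a)
  have a := eqv_near_ups hΛ .pos 0 0 κ (n + 4) (by simp [Kind.inn])
    (by simp [Kind.inn]; omega)
  simp only [Kind.inn, Kind.out] at a
  have e3 : n + 4 - 2 + 2 = n + 4 := by omega
  rw [e3] at a
  have b1 : EqvW Λ (n + 2) (n + 4) [cup 0, pos 1] [cup 1, neg 0] := by
    refine (EqvW.of_move hΛ (.rotate_cup_pos 0) ?_ ?_) <;>
    · simp [strands, pos, neg, cup, Kind.inn, Kind.out]
  have b2 := (b1.append_right (v := [pos 0]) (strands_pos 0 (n + 4) (by omega))).trans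
    ((eqv_r2' hΛ 0 (n + 4) (by omega)).append_left (u := [cup 1]) (k := n + 2)
      (strands_cup 1 (n + 2) (by omega)))
  have c1 := eqv_W3 hΛ 0 l n (by omega)
  have d1 := eqv_W2ups hΛ 1 κ (l + 2) (n + 2) (by omega) (by omega)
  have h1 := a.append_left (u := (cup 0 :: ups 1 l) ++ [cup 0, pos 1]) (k := n)
    (strands_append_some hT (by simp [strands, pos, cup, Kind.inn, Kind.out]))
  have h2 := (b2.append_left (u := cup 0 :: ups 1 l) hT).append_right (v := ups 2 κ) (k := n + 4)
    (strands_ups _ _ _ (by omega))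
  have h3 := c1.append_right (v := ups 2 κ) (k := n + 4) (strands_ups _ _ _ (by omega))
  have h4 := d1.append_left (u := [cup 0]) (k := n) (strands_cup 0 n (by omega))
  refine EqvW.trans (y := cup 0 :: ups 1 l ++ [cup 0, pos 1] ++ ([pos 0] ++ ups 2 κ)) ?_
      (EqvW.trans (y := cup 0 :: ups 1 l ++ [cup 1] ++ ups 2 κ) ?_
      (EqvW.trans (y := cup 0 :: cup 0 :: ups 1 (l + 2) ++ ups 2 κ) ?_ ?_))
  · simpa [ups_succ', List.append_assoc, pos] using h1
  · simpa [List.append_assoc] using h2
  · simpa [List.append_assoc] using h3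
  · simpa [List.append_assoc] using h4

/-- (W6) -/
theorem eqv_W6 (hΛ : Reg Λ) (l μ n : ℕ) (h : l ≤ μ) (hn : μ ≤ n) :
    EqvW Λ n (n + 4) (cup 0 :: ups 1 l ++ (cup 0 :: ups 1 (μ + 2)) ++ [neg 0])
      (cup 0 :: ups 1 μ ++ (cup 0 :: ups 1 (l + 1))) := by
  have hT : strands (cup 0 :: ups 1 μ) n = some (n + 2) :=
    strands_append_some (u := [cup 0]) (strands_cup 0 n (by omega))
      (strands_ups _ _ _ (by omega))
  have a := (eqv_W2ups hΛ 1 l (μ + 2) (n + 2) (by omega) (by omega)).symm
  have b := (eqv_W3 hΛ 0 μ n (by omega)).symm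
  have c1 := eqv_near_ups hΛ .neg 0 0 l (n + 4) (by simp [Kind.inn])
    (by simp [Kind.inn]; omega)
  simp only [Kind.inn, Kind.out] at c1
  have e3 : n + 4 - 2 + 2 = n + 4 := by omega
  rw [e3] at c1
  have d1 : EqvW Λ (n + 2) (n + 4) [cup 1, neg 0] [cup 0, pos 1] := by
    refine (EqvW.of_move hΛ (.rotate_cup_pos 0) ?_ ?_).symm <;>
    · simp [strands, pos, neg, cup, Kind.inn, Kind.out]
  have h1 := (a.append_left (u := [cup 0]) (k := n) (strands_cup 0 n (by omega))).append_right
    (v := [neg 0]) (strands_neg 0 (n + 4) (by omega))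
  have h2 := b.append_right (v := ups 2 l ++ [neg 0]) (k := n + 4)
    (strands_append_some (m := n + 4) (strands_ups _ _ _ (by omega)) (strands_neg 0 (n + 4) (by omega)))
  have h3 := c1.append_left (u := cup 0 :: ups 1 μ ++ [cup 1]) (k := n)
    (strands_append_some hT (strands_cup 1 (n + 2) (by omega)))
  have h4 := (d1.append_left (u := cup 0 :: ups 1 μ) hT).append_right (v := ups 2 l) (k := n + 4)
    (strands_ups _ _ _ (by omega))
  refine EqvW.trans (y := cup 0 :: cup 0 :: ups 1 (μ + 2) ++ ups 2 l ++ [neg 0]) ?_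
      (EqvW.trans (y := cup 0 :: ups 1 μ ++ [cup 1] ++ (ups 2 l ++ [neg 0])) ?_
      (EqvW.trans (y := cup 0 :: ups 1 μ ++ [cup 1] ++ ([neg 0] ++ ups 2 l)) ?_ ?_))
  · simpa [List.append_assoc] using h1
  · simpa [List.append_assoc] using h2
  · simpa [List.append_assoc, neg] using h3
  · simpa [ups_succ', List.append_assoc] using h4

end Pool.Agent.Helper79.Sliced
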