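import Mathlib

/-!
Vertex models for the Dubrovnik form of the Kauffman polynomial, and the step which enlarges a
model by two states.
-/

set_option autoImplicit false

namespace Pool.Agent.Helper79.VModel

open Finset

variable {S : Type} [Field S] {ι : Type} [Fintype ι]

/-- action of a two-strand matrix on functions of two variables -/
def opR (R : ι → ι → ι → ι → S) (F : ι → ι → S) (a b : ι) : S := ∑ x, ∑ y, R a b x y * F x y

/-- pairing with a two-strand vector -/
def opU (U : ι → ι → S) (F : ι → ι → S) : S := ∑ x, ∑ y, U x y * F x y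

theorem opR_add (R : ι → ι → ι → ι → S) (F G : ι → ι → S) (a b : ι) :
    opR R (fun x y => F x y + G x y) a b = opR R (fun x y => F x y) a b +
      opR R (fun x y => G x y) a b := by
  simp only [opR, mul_add, sum_add_distrib]

theorem opR_sub (R : ι → ι → ι → ι → S) (F G : ι → ι → S) (a b : ι) :
    opR R (fun x y => F x y - G x y) a b = opR R (fun x y => F x y) a b -
      opR R (fun x y => G x y) a b := by
  simp only [opR, mul_sub, sum_sub_distrib]

theorem opR_smul (R : ι → ι → ι → ι → S) (c : S) (F : ι → ι → S) (a b : ι) :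
    opR R (fun x y => c * F x y) a b = c * opR R (fun x y => F x y) a b := by
  simp only [opR, mul_sum]
  refine sum_congr rfl fun x _ => sum_congr rfl fun y _ => ?_
  ring

theorem opR_smul' (R : ι → ι → ι → ι → S) (c : S) (F : ι → ι → S) (a b : ι) :
    opR R (fun x y => F x y * c) a b = opR R (fun x y => F x y) a b * c := by
  simp only [opR, sum_mul]
  refine sum_congr rfl fun x _ => sum_congr rfl fun y _ => ?_
  ring

theorem opU_add (U : ι → ι → S) (F G : ι → ι → S) :
    opU U (fun x y => F x y + G x y) = opU U (fun x y => F x y) + opU U (fun x y => G x y) := by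
  simp only [opU, mul_add, sum_add_distrib]

theorem opU_sub (U : ι → ι → S) (F G : ι → ι → S) :
    opU U (fun x y => F x y - G x y) = opU U (fun x y => F x y) - opU U (fun x y => G x y) := by
  simp only [opU, mul_sub, sum_sub_distrib]

theorem opU_smul (U : ι → ι → S) (c : S) (F : ι → ι → S) :
    opU U (fun x y => c * F x y) = c * opU U (fun x y => F x y) := by
  simp only [opU, mul_sum]
  refine sum_congr rfl fun x _ => sum_congr rfl fun y _ => ?_
  ring

theorem opU_smul' (U : ι → ι → S) (c : S) (F : ι → ι → S) :
    opU U (fun x y => F x y * c) = opU U (fun x y => F x y) * c := by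
  simp only [opU, sum_mul]
  refine sum_congr rfl fun x _ => sum_congr rfl fun y _ => ?_
  ring

/-- the three-strand actions -/
def op1 (R : ι → ι → ι → ι → S) (F : ι → ι → ι → S) (a b c : ι) : S :=
  opR R (fun x y => F x y c) a b
/-- the three-strand actions -/
def op2 (R : ι → ι → ι → ι → S) (F : ι → ι → ι → S) (a b c : ι) : S :=
  opR R (fun x y => F a x y) b c

/-- A vertex model for the Dubrovnik polynomial with parameters `q`, `a`, `z = q - q⁻¹`. -/
structure Model {S : Type} [Field S] (ι : Type) [Fintype ι] (q a : S) where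
  R : ι → ι → ι → ι → S
  Q : ι → ι → ι → ι → S
  cap : ι → ι → S
  cup : ι → ι → S
  zz1 : ∀ (f : ι → S) (c : ι), opU cup (fun x y => cap y c * f x) = f c
  zz2 : ∀ (f : ι → S) (c : ι), opU cup (fun x y => cap c x * f y) = f c
  skein : ∀ (F : ι → ι → S) (b c : ι),
    opR R F b c - opR Q F b c = (q - q⁻¹) * (F b c - cap b c * opU cup F)
  quad : ∀ (F : ι → ι → S) (b c : ι), opR R (opR R F) b c = F b c + (q - q⁻¹) * opR R F b c -
    (q - q⁻¹) * a⁻¹ * cap b c * opU cup F
  tc : ∀ (f : ι → S) (b c d : ι),
    opR R (fun x y => cap b x * f y) c d = opR Q (fun x y => cap y d * f x) b c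
  tu : ∀ (F : ι → ι → ι → S) (c : ι), opU cup (fun i j => opR R (fun x y => F i x y) j c) =
    opU cup (fun i j => opR Q (fun x y => F x y j) c i)
  curlcap : ∀ b c : ι, opR R (fun x y => cap x y) b c = a⁻¹ * cap b c
  curlcup : ∀ F : ι → ι → S, opU cup (fun x y => opR R F x y) = a⁻¹ * opU cup F
  circle : (q - q⁻¹) * opU cup (fun x y => cap x y) = (q - q⁻¹) + a - a⁻¹
  r3 : ∀ (F : ι → ι → ι → S) (b c d : ι),
    op1 R (op2 R (op1 R F)) b c d = op2 R (op1 R (op2 R F)) b c d

/-- enlarge a set of states by two -/
inductive Ext (ι : Type)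
  | pl : Ext ι
  | mi : Ext ι
  | md : ι → Ext ι
  deriving DecidableEq, Fintype

open Ext

/-- the states of the enlarged model as iterated options -/
def extEquiv (ι : Type) : Ext ι ≃ Option (Option ι) where
  toFun
    | pl => none
    | mi => some none
    | md i => some (some i)
  invFun
    | none => pl
    | some none => mi
    | some (some i) => md i
  left_inv := by rintro (_ | _ | i) <;> rfl
  right_inv := by rintro (_ | _ | i) <;> rfl

theorem sum_ext (f : Ext ι → S) : ∑ x, f x = f pl + f mi + ∑ i, f (md i) := by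
  rw [← (extEquiv ι).symm.sum_comp, Fintype.sum_option, Fintype.sum_option, add_assoc]
  rfl

/-- The enlarged matrix; `t = q' a⁻¹`. -/
def extR [DecidableEq ι] (q q' z t : S) (R : ι → ι → ι → ι → S) (cap cup : ι → ι → S) :
    Ext ι → Ext ι → Ext ι → Ext ι → S
  | pl, pl, pl, pl => q
  | mi, mi, mi, mi => q
  | pl, md i, md j, pl => if i = j then 1 else 0
  | pl, md i, pl, md j => if i = j then z else 0
  | md i, pl, pl, md j => if i = j then 1 else 0
  | mi, md i, md j, mi => if i = j then 1 else 0
  | md i, mi, mi, md j => if i = j then 1 else 0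
  | md i, mi, md j, mi => if i = j then z else 0
  | pl, mi, mi, pl => q'
  | pl, mi, pl, mi => z * (1 - t)
  | pl, mi, md i, md j => - (z * cup i j)
  | mi, pl, pl, mi => q'
  | md i, md j, md k, md l => R i j k l
  | md i, md j, pl, mi => - (z * t * cap i j)
  | _, _, _, _ => 0

/-- The enlarged cap; `t'` is the inverse of `t`. -/
def extCap (t' : S) (cap : ι → ι → S) : Ext ι → Ext ι → S
  | pl, mi => 1
  | mi, pl => t'
  | md i, md j => cap i j
  | _, _ => 0

/-- The enlarged cup. -/
def extCup (t : S) (cup : ι → ι → S) : Ext ι → Ext ι → S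
  | pl, mi => t
  | mi, pl => 1
  | md i, md j => cup i j
  | _, _ => 0

theorem opU_ext (t : S) (cup : ι → ι → S) (F : Ext ι → Ext ι → S) :
    opU (extCup t cup) F = t * F pl mi + F mi pl + opU cup (fun i j => F (md i) (md j)) := by
  simp [opU, sum_ext, extCup]

section rules

variable [DecidableEq ι] (q q' z t : S) (R : ι → ι → ι → ι → S) (cap cup : ι → ι → S) (F : Ext ι → Ext ι → S)

theorem ext_pp : opR (extR q q' z t R cap cup) F pl pl = q * F pl pl := by
  simp [opR, sum_ext, extR]

theorem ext_mm : opR (extR q q' z t R cap cup) F mi mi = q * F mi mi := by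
  simp [opR, sum_ext, extR]

theorem ext_pv (i : ι) : opR (extR q q' z t R cap cup) F pl (md i) =
    F (md i) pl + z * F pl (md i) := by
  simp [opR, sum_ext, extR, add_comm]

theorem ext_vp (i : ι) : opR (extR q q' z t R cap cup) F (md i) pl = F pl (md i) := by
  simp [opR, sum_ext, extR]

theorem ext_mv (i : ι) : opR (extR q q' z t R cap cup) F mi (md i) = F (md i) mi := by
  simp [opR, sum_ext, extR]

theorem ext_vm (i : ι) : opR (extR q q' z t R cap cup) F (md i) mi =
    F mi (md i) + z * F (md i) mi := by
  simp [opR, sum_ext, extR]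

theorem ext_pm : opR (extR q q' z t R cap cup) F pl mi =
    q' * F mi pl + z * (1 - t) * F pl mi - z * opU cup (fun i j => F (md i) (md j)) := by
  simp [opR, sum_ext, extR, opU, mul_sum, mul_assoc]
  ring

theorem ext_mp : opR (extR q q' z t R cap cup) F mi pl = q' * F pl mi := by
  simp [opR, sum_ext, extR]

theorem ext_vv (i j : ι) : opR (extR q q' z t R cap cup) F (md i) (md j) =
    opR R (fun x y => F (md x) (md y)) i j - z * t * cap i j * F pl mi := by
  simp [opR, sum_ext, extR]
  ring

end rules

end Pool.Agent.Helper79.VModel
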