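import Pool.Agent.Helper79.VModel

/-!
The enlarged vertex model satisfies the relations.
-/

set_option autoImplicit false
set_option linter.unusedSimpArgs false
set_option linter.unusedSectionVars false
set_option linter.unusedTactic false
set_option linter.unreachableTactic false

namespace Pool.Agent.Helper79.VModel

open Finset Ext

variable {S : Type} [Field S] {ι : Type} [Fintype ι] [DecidableEq ι] {q a : S}

/-- the matrix of the enlarged model -/
def Model.nR (M : Model ι q a) : Ext ι → Ext ι → Ext ι → Ext ι → S :=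
  extR q q⁻¹ (q - q⁻¹) (q⁻¹ * a⁻¹) M.R M.cap M.cup

omit [DecidableEq ι] in
theorem opR_zero (R : ι → ι → ι → ι → S) (b c : ι) : opR R (fun _ _ => (0 : S)) b c = 0 := by
  simp [opR]

omit [DecidableEq ι] in
theorem opU_zero (U : ι → ι → S) : opU U (fun _ _ => (0 : S)) = 0 := by
  simp [opU]

/-- the cap of the enlarged model -/
def Model.nCap (M : Model ι q a) : Ext ι → Ext ι → S := extCap (q * a) M.cap

/-- the cup of the enlarged model -/
def Model.nCup (M : Model ι q a) : Ext ι → Ext ι → S := extCup (q⁻¹ * a⁻¹) M.cup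

/-- the inverse matrix of the enlarged model -/
def Model.nQ (M : Model ι q a) (b c x y : Ext ι) : S :=
  M.nR b c x y - (q - q⁻¹) * ((if b = x then if c = y then 1 else 0 else 0) -
    M.nCap b c * M.nCup x y)

theorem opR_nQ (M : Model ι q a) (F : Ext ι → Ext ι → S) (b c : Ext ι) :
    opR M.nQ F b c = opR M.nR F b c - (q - q⁻¹) * (F b c - M.nCap b c * opU M.nCup F) := by
  have h1 : opR (fun b c x y => if b = x then if c = y then (1 : S) else 0 else 0) F b c =
      F b c := by
    simp [opR, ite_mul]
  rw [← h1]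
  simp only [opR, opU, Model.nQ, mul_sub, sub_mul, sum_sub_distrib, mul_sum, mul_assoc]

theorem quad_ext (M : Model ι q a) (hq : q ≠ 0) (ha : a ≠ 0) (F : Ext ι → Ext ι → S)
    (b c : Ext ι) :
    opR M.nR (opR M.nR F) b c = F b c + (q - q⁻¹) * opR M.nR F b c -
      (q - q⁻¹) * (a * q ^ 2)⁻¹ * M.nCap b c * opU M.nCup F := by
  have h1 := M.curlcup (fun x y => F (md x) (md y))
  unfold Model.nR Model.nCap Model.nCup
  rcases b with _|_|b <;> rcases c with _|_|c <;>
  simp only [ext_pp, ext_mm, ext_pv, ext_vp, ext_mv, ext_vm, ext_pm, ext_mp, ext_vv, opU_ext,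
    extCap, opR_sub, opU_sub, opU_smul, opU_smul', opR_smul, opR_smul', h1, M.curlcap]
  · field_simp; ring
  · linear_combination (norm := (field_simp; ring)) (q - q⁻¹) * (q⁻¹ * a⁻¹) * F pl mi * M.circle
  · field_simp; ring
  · field_simp; ring
  · field_simp; ring
  · field_simp; ring
  · field_simp; ring
  · field_simp; ring
  · have h3 := M.quad (fun x y => F (md x) (md y)) b c
    rw [h3]
    field_simp; ring

theorem zz1_ext (M : Model ι q a) (hq : q ≠ 0) (ha : a ≠ 0) (f : Ext ι → S) (c : Ext ι) :
    opU M.nCup (fun x y => M.nCap y c * f x) = f c := by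
  have h1 : ∀ c, opU M.cup (fun i j => M.cap j c * f (md i)) = f (md c) := fun c =>
    M.zz1 (fun i => f (md i)) c
  unfold Model.nCap Model.nCup
  rcases c with _|_|c <;> simp only [opU_ext, extCap, h1, zero_mul, opU_zero] <;> field_simp
  all_goals ring

theorem zz2_ext (M : Model ι q a) (hq : q ≠ 0) (ha : a ≠ 0) (f : Ext ι → S) (c : Ext ι) :
    opU M.nCup (fun x y => M.nCap c x * f y) = f c := by
  have h1 : ∀ c, opU M.cup (fun i j => M.cap c i * f (md j)) = f (md c) := fun c =>
    M.zz2 (fun i => f (md i)) c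
  unfold Model.nCap Model.nCup
  rcases c with _|_|c <;> simp only [opU_ext, extCap, h1, zero_mul, opU_zero] <;> field_simp
  all_goals ring

theorem curlcap_ext (M : Model ι q a) (hq : q ≠ 0) (ha : a ≠ 0) (b c : Ext ι) :
    opR M.nR (fun x y => M.nCap x y) b c = (a * q ^ 2)⁻¹ * M.nCap b c := by
  unfold Model.nR Model.nCap
  rcases b with _|_|b <;> rcases c with _|_|c <;>
  simp only [ext_pp, ext_mm, ext_pv, ext_vp, ext_mv, ext_vm, ext_pm, ext_mp, ext_vv, opU_ext,
    extCap, M.curlcap]
  · field_simp; ring
  · linear_combination (norm := (field_simp; ring)) (-1) * M.circle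
  · field_simp; ring
  · field_simp
  · field_simp; ring
  · field_simp; ring
  · field_simp; ring
  · field_simp; ring
  · field_simp; ring

theorem curlcup_ext (M : Model ι q a) (hq : q ≠ 0) (ha : a ≠ 0) (F : Ext ι → Ext ι → S) :
    opU M.nCup (fun x y => opR M.nR F x y) = (a * q ^ 2)⁻¹ * opU M.nCup F := by
  have h1 := M.curlcup (fun x y => F (md x) (md y))
  unfold Model.nR Model.nCup
  simp only [ext_pp, ext_mm, ext_pv, ext_vp, ext_mv, ext_vm, ext_pm, ext_mp, ext_vv, opU_ext,
    opU_sub, opU_smul, opU_smul', h1]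
  linear_combination (norm := (field_simp; ring)) (-(q⁻¹ * a⁻¹) * F pl mi) * M.circle

theorem circle_ext (M : Model ι q a) (hq : q ≠ 0) (ha : a ≠ 0) :
    (q - q⁻¹) * opU M.nCup (fun x y => M.nCap x y) = (q - q⁻¹) + a * q ^ 2 - (a * q ^ 2)⁻¹ := by
  unfold Model.nCap Model.nCup
  simp only [opU_ext, extCap]
  linear_combination (norm := (field_simp; ring)) M.circle

theorem tc_ext (M : Model ι q a) (hq : q ≠ 0) (ha : a ≠ 0) (f : Ext ι → S) (b c d : Ext ι) :
    opR M.nR (fun x y => M.nCap b x * f y) c d = opR M.nQ (fun x y => M.nCap y d * f x) b c := by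
  rw [opR_nQ]
  have h1 := M.tc (fun x => f (md x))
  have h2 := zz1_ext M hq ha f
  have h3 := fun d => M.zz1 (fun x => f (md x)) d
  have h5 := fun d => M.zz2 (fun x => f (md x)) d
  rw [h2]
  unfold Model.nR Model.nCap
  rcases b with _|_|b <;> rcases c with _|_|c <;> rcases d with _|_|d <;>
  simp only [ext_pp, ext_mm, ext_pv, ext_vp, ext_mv, ext_vm, ext_pm, ext_mp, ext_vv, opU_ext,
    extCap, opR_sub, opU_sub, opU_smul, opU_smul', opR_smul, opR_smul', M.curlcap, zero_mul,
    mul_zero, opR_zero, opU_zero, one_mul, h3, h5]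
  case md.md.md =>
    have e1 := M.tc (fun x => f (md x)) b c d
    have e2 := M.skein (fun x y => M.cap y d * f (md x)) b c
    rw [h3] at e2
    linear_combination e1 - e2
  all_goals (field_simp; try ring)

theorem tu_ext (M : Model ι q a) (hq : q ≠ 0) (ha : a ≠ 0) (F : Ext ι → Ext ι → Ext ι → S)
    (c : Ext ι) :
    opU M.nCup (fun i j => opR M.nR (fun x y => F i x y) j c) =
      opU M.nCup (fun i j => opR M.nQ (fun x y => F x y j) c i) := by
  have h1 := zz1_ext M hq ha
  simp only [opR_nQ]
  unfold Model.nR Model.nCap Model.nCup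
  rcases c with _|_|c <;>
  simp only [ext_pp, ext_mm, ext_pv, ext_vp, ext_mv, ext_vm, ext_pm, ext_mp, ext_vv, opU_ext,
    extCap, opR_sub, opU_sub, opU_add, opU_smul, opU_smul', opR_smul, opR_smul', M.curlcap,
    zero_mul, mul_zero, opR_zero, opU_zero, one_mul, M.zz1, M.zz2, mul_assoc]
  case md =>
    have e1 := M.tu (fun i j k => F (md i) (md j) (md k)) c
    have e2 : ∀ y, opR M.Q (fun i j => F (md i) (md j) (md y)) c = fun x =>
        opR M.R (fun i j => F (md i) (md j) (md y)) c x - (q - q⁻¹) *
        (F (md c) (md x) (md y) - M.cap c x * opU M.cup (fun i j => F (md i) (md j) (md y))) := by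
      intro y
      funext x
      have := M.skein (fun i j => F (md i) (md j) (md y)) c x
      linear_combination -this
    simp only [e2, opU_sub, opU_smul, M.zz2] at e1
    linear_combination e1
  all_goals (field_simp; ring)

section identities

variable (M : Model ι q a)

theorem Model.curlcapQ (b c : ι) :
    opR M.Q (fun x y => M.cap x y) b c = a * M.cap b c := by
  have h1 := M.skein (fun x y => M.cap x y) b c
  have h2 := M.curlcap b c
  have h3 := M.circle
  linear_combination h2 - h1 + M.cap b c * h3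

theorem Model.rq (F : ι → ι → S) (b c : ι) :
    opR M.R (fun x y => opR M.Q F x y) b c = F b c := by
  have h1 : (fun x y => opR M.Q F x y) = fun x y => opR M.R F x y -
      (q - q⁻¹) * (F x y - M.cap x y * opU M.cup F) := by
    funext x y
    have := M.skein F x y
    linear_combination -this
  rw [h1]
  simp only [opR_sub, opR_smul, opR_smul', M.curlcap]
  have h2 := M.quad F b c
  linear_combination h2

theorem Model.tc2 (f : ι → S) (b c d : ι) :
    opR M.R (fun x y => M.cap y d * f x) b c = opR M.Q (fun x y => M.cap b x * f y) c d := by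
  have h1 := M.skein (fun x y => M.cap y d * f x) b c
  have h2 := M.skein (fun x y => M.cap b x * f y) c d
  rw [M.zz1] at h1
  rw [M.zz2] at h2
  have h3 := M.tc f b c d
  linear_combination h1 + h2 - h3

theorem Model.s1 (f : ι → S) (b c d : ι) :
    opR M.R (fun x y => opR M.R (fun x' y' => M.cap x x' * f y') y d) b c =
      M.cap c d * f b := by
  simp only [M.tc]
  exact M.rq (fun x y => M.cap y d * f x) b c

theorem Model.s2 (f : ι → S) (b c d : ι) :
    opR M.R (fun x y => opR M.R (fun x' y' => M.cap y' y * f x') b x) c d =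
      M.cap b c * f d := by
  simp only [M.tc2]
  exact M.rq (fun x y => M.cap b x * f y) c d

theorem Model.qr (F : ι → ι → S) (b c : ι) :
    opR M.Q (fun x y => opR M.R F x y) b c = F b c := by
  have h1 := M.skein (fun x y => opR M.R F x y) b c
  have h2 := M.quad F b c
  have h3 := M.curlcup F
  rw [h3] at h1
  linear_combination h2 - h1

theorem Model.tu2 (F : ι → ι → ι → S) (c : ι) :
    opU M.cup (fun i j => opR M.R (fun x y => F x y j) c i) =
      opU M.cup (fun i j => opR M.Q (fun x y => F i x y) j c) := by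
  have h1 := M.tu F c
  have e1 : ∀ i j, opR M.Q (fun x y => F x y j) c i = opR M.R (fun x y => F x y j) c i -
      (q - q⁻¹) * (F c i j - M.cap c i * opU M.cup (fun x y => F x y j)) := by
    intro i j
    have := M.skein (fun x y => F x y j) c i
    linear_combination -this
  have e2 : ∀ i j, opR M.Q (fun x y => F i x y) j c = opR M.R (fun x y => F i x y) j c -
      (q - q⁻¹) * (F i j c - M.cap j c * opU M.cup (fun x y => F i x y)) := by
    intro i j
    have := M.skein (fun x y => F i x y) j c
    linear_combination -this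
  simp only [e1, e2, opU_sub, opU_smul, M.zz1, M.zz2] at h1 ⊢
  linear_combination -h1

theorem Model.s3 (F : ι → ι → ι → S) (c : ι) :
    opU M.cup (fun i j => opR M.R (fun x y => opR M.R (fun x' y' => F x' y' y) i x) j c) =
      opU M.cup (fun i j => F c i j) := by
  rw [M.tu (fun i x y => opR M.R (fun x' y' => F x' y' y) i x) c]
  simp only [M.qr (fun x' y' => F x' y' _)]

theorem Model.s3' (F : ι → ι → ι → S) (c : ι) :
    opU M.cup (fun i j => opR M.R (fun x y => opR M.R (fun x' y' => F x x' y') y j) c i) =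
      opU M.cup (fun i j => F i j c) := by
  rw [M.tu2 (fun x y j => opR M.R (fun x' y' => F x x' y') y j) c]
  simp only [M.qr (fun x' y' => F _ x' y')]

theorem Model.s4 (f : ι → S) (c : ι) :
    opU M.cup (fun i j => opR M.R (fun x y => M.cap i x * f y) j c) = a * f c := by
  rw [M.tu (fun i x y => M.cap i x * f y) c]
  simp only [opR_smul', M.curlcapQ, mul_assoc, opU_smul, M.zz2]

theorem Model.s4' (f : ι → S) (c : ι) :
    opU M.cup (fun i j => opR M.R (fun x y => M.cap y j * f x) c i) = a * f c := by
  rw [M.tu2 (fun x y j => M.cap y j * f x) c]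
  simp only [opR_smul', M.curlcapQ, mul_assoc, opU_smul, M.zz1]

end identities

theorem Model.tu3 (M : Model ι q a) (F : ι → ι → ι → S) (c : ι) :
    opU M.cup (fun i j => opR M.R (fun x y => F i x y) j c) =
      opU M.cup (fun j y => opR M.R (fun x y' => F x y' y) c j) -
      (q - q⁻¹) * (opU M.cup (fun x y => F c x y) - opU M.cup (fun x y => F x y c)) := by
  have h1 := M.tu F c
  have e1 : ∀ i j, opR M.Q (fun x y => F x y j) c i = opR M.R (fun x y => F x y j) c i -
      (q - q⁻¹) * (F c i j - M.cap c i * opU M.cup (fun x y => F x y j)) := by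
    intro i j
    have := M.skein (fun x y => F x y j) c i
    linear_combination -this
  simp only [e1, opU_sub, opU_smul, M.zz1, M.zz2] at h1
  linear_combination h1

theorem r3_ext (M : Model ι q a) (hq : q ≠ 0) (ha : a ≠ 0) (F : Ext ι → Ext ι → Ext ι → S)
    (b c d : Ext ι) :
    op1 M.nR (op2 M.nR (op1 M.nR F)) b c d = op2 M.nR (op1 M.nR (op2 M.nR F)) b c d := by
  have e0 := M.r3 (fun x y z => F (md x) (md y) (md z))
  have eq1 : ∀ (G : ι → ι → S) (b c : ι), opR M.R (fun x y => opR M.R G x y) b c = G b c +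
    (q - q⁻¹) * opR M.R G b c - (q - q⁻¹) * a⁻¹ * M.cap b c * opU M.cup G := fun G b c =>
    M.quad G b c
  simp only [op1, op2] at e0
  unfold Model.nR
  rcases b with _|_|b <;> rcases c with _|_|c <;> rcases d with _|_|d <;>
  simp only [op1, op2, ext_pp, ext_mm, ext_pv, ext_vp, ext_mv, ext_vm, ext_pm, ext_mp, ext_vv,
    opR_sub, opU_sub, opR_add, opU_add, opU_smul, opU_smul', opR_smul, opR_smul', M.curlcap,
    zero_mul, mul_zero, opR_zero, opU_zero, one_mul, mul_assoc, M.zz1, M.zz2, M.s1, M.s2, M.s3,
    M.s3', M.s4, M.s4', M.curlcup, eq1]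
  case pl.pl.mi =>
    linear_combination (norm := (field_simp; ring))
      (-(q - q⁻¹) ^ 2 * (q⁻¹ * a⁻¹) * F pl pl mi) * M.circle
  case pl.mi.mi =>
    linear_combination (norm := (field_simp; ring))
      ((q - q⁻¹) ^ 2 * (q⁻¹ * a⁻¹) * F pl mi mi) * M.circle
  case md.md.md =>
    have e1 := M.tc (fun x => F pl (md x) mi) b c d
    have e2 := M.skein (fun x y => M.cap y d * F pl (md x) mi) b c
    rw [M.zz1 (fun x => F pl (md x) mi)] at e2
    linear_combination e0 b c d - (q - q⁻¹) * (q⁻¹ * a⁻¹) * (e2 - e1)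
  case pl.md.mi =>
    have e1 := M.tu3 (fun i j k => F (md i) (md j) (md k)) c
    linear_combination (norm := (field_simp; ring)) (q - q⁻¹) * e1
  all_goals try first | (field_simp; ring) | field_simp

/-- The enlarged model. -/
def Model.ext (M : Model ι q a) (hq : q ≠ 0) (ha : a ≠ 0) : Model (Ext ι) q (a * q ^ 2) where
  R := M.nR
  Q := M.nQ
  cap := M.nCap
  cup := M.nCup
  zz1 := zz1_ext M hq ha
  zz2 := zz2_ext M hq ha
  skein := by
    intro F b c
    rw [opR_nQ]; ring
  quad := quad_ext M hq ha
  tc := tc_ext M hq ha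
  tu := tu_ext M hq ha
  curlcap := curlcap_ext M hq ha
  curlcup := curlcup_ext M hq ha
  circle := circle_ext M hq ha
  r3 := r3_ext M hq ha

/-- The model with one state. -/
def baseModel (q : S) : Model Unit q 1 where
  R := fun _ _ _ _ => 1
  Q := fun _ _ _ _ => 1
  cap := fun _ _ => 1
  cup := fun _ _ => 1
  zz1 := by intro f c; simp [opU]
  zz2 := by intro f c; simp [opU]
  skein := by intro F b c; simp [opR, opU]
  quad := by intro F b c; simp [opR, opU]
  tc := by intro f b c d; simp [opR]
  tu := by intro F c; simp [opR, opU]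
  curlcap := by intro b c; simp [opR]
  curlcup := by intro F; simp [opR, opU]
  circle := by simp [opU]
  r3 := by intro F b c d; simp [opR, op1, op2]

/-- There are models with `a = q ^ (2 k)` for all `k`. -/
theorem exists_model (q : S) (hq : q ≠ 0) (k : ℕ) :
    ∃ (ι : Type) (_ : Fintype ι) (_ : DecidableEq ι), Nonempty (Model ι q (q ^ (2 * k))) := by
  induction k with
  | zero => exact ⟨Unit, inferInstance, inferInstance, ⟨by simpa using baseModel q⟩⟩
  | succ k ih =>
    obtain ⟨ι, h1, h2, ⟨M⟩⟩ := ih
    refine ⟨Ext ι, inferInstance, inferInstance, ⟨?_⟩⟩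
    have := M.ext hq (pow_ne_zero _ hq)
    rw [← pow_add] at this
    exact this

end Pool.Agent.Helper79.VModel
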