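import Pool.Agent.Helper79.VModelExt
import Pool.Agent.Helper79.SlicedWords

/-!
The value of a vertex model on a sliced diagram.
-/

set_option autoImplicit false
set_option linter.unusedSectionVars false

namespace Pool.Agent.Helper79.VModel

open Finset
open Pool.Agent.Helper79.Sliced

variable {S : Type} [Field S] {ι : Type} [Fintype ι] [DecidableEq ι] {q a : S}

/-- the action of a piece at position `0` on functions of lists of states -/
def base (M : Model ι q a) : Kind → (List ι → S) → List ι → S
  | .cup, F, s => opU M.cup (fun x y => F (x :: y :: s))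
  | .cap, F, x :: y :: s => M.cap x y * F s
  | .pos, F, x :: y :: s => opR M.R (fun x' y' => F (x' :: y' :: s)) x y
  | .neg, F, x :: y :: s => opR M.Q (fun x' y' => F (x' :: y' :: s)) x y
  | _, _, _ => 0

/-- the action of a piece at any position -/
def pieceOp (M : Model ι q a) (g : Kind) : ℕ → (List ι → S) → List ι → S
  | 0, F, s => base M g F s
  | _ + 1, _, [] => 0
  | i + 1, F, c :: s => pieceOp M g i (fun s => F (c :: s)) s

/-- the action of a word -/
def wordOp (M : Model ι q a) : List Piece → (List ι → S) → List ι → S
  | [], F => F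
  | p :: w, F => pieceOp M p.kind p.idx (wordOp M w F)

theorem wordOp_append (M : Model ι q a) (u v : List Piece) (F : List ι → S) :
    wordOp M (u ++ v) F = wordOp M u (wordOp M v F) := by
  induction u with
  | nil => rfl
  | cons p u ih => simp only [List.cons_append, wordOp, ih]

theorem base_lin (M : Model ι q a) (g : Kind) (F G : List ι → S) (c : S) (s : List ι) :
    base M g (fun s => F s + c * G s) s = base M g F s + c * base M g G s := by
  cases g with
  | cup => simp only [base, opU_add, opU_smul]
  | cap =>
    rcases s with _ | ⟨x, _ | ⟨y, s⟩⟩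
    · simp [base]
    · simp [base]
    · simp only [base]; ring
  | pos =>
    rcases s with _ | ⟨x, _ | ⟨y, s⟩⟩
    · simp [base]
    · simp [base]
    · simp only [base, opR_add, opR_smul]
  | neg =>
    rcases s with _ | ⟨x, _ | ⟨y, s⟩⟩
    · simp [base]
    · simp [base]
    · simp only [base, opR_add, opR_smul]

theorem pieceOp_lin (M : Model ι q a) (g : Kind) (i : ℕ) (F G : List ι → S) (c : S)
    (s : List ι) :
    pieceOp M g i (fun s => F s + c * G s) s = pieceOp M g i F s + c * pieceOp M g i G s := by
  induction i generalizing F G s with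
  | zero => exact base_lin M g F G c s
  | succ i ih =>
    cases s with
    | nil => simp [pieceOp]
    | cons x s => exact ih (fun s => F (x :: s)) (fun s => G (x :: s)) s

theorem pieceOp_zero (M : Model ι q a) (g : Kind) (i : ℕ) (s : List ι) :
    pieceOp M g i (fun _ => 0) s = 0 := by
  have h := pieceOp_lin M g i (fun _ => 0) (fun _ => 0) (-1) s
  simpa using h

theorem pieceOp_smul (M : Model ι q a) (g : Kind) (i : ℕ) (F : List ι → S) (c : S)
    (s : List ι) : pieceOp M g i (fun s => c * F s) s = c * pieceOp M g i F s := by
  have h := pieceOp_lin M g i (fun _ => 0) F c s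
  simpa [pieceOp_zero] using h

theorem pieceOp_sum {α : Type} (A : Finset α) (M : Model ι q a) (g : Kind) (i : ℕ)
    (F : α → List ι → S) (s : List ι) :
    pieceOp M g i (fun s => ∑ x ∈ A, F x s) s = ∑ x ∈ A, pieceOp M g i (F x) s := by
  classical
  induction A using Finset.induction_on with
  | empty => simpa using pieceOp_zero M g i s
  | insert x A hx ih =>
    simp only [sum_insert hx]
    rw [← ih]
    have h := pieceOp_lin M g i (F x) (fun s => ∑ x ∈ A, F x s) 1 s
    simpa using h

theorem pieceOp_opU (M : Model ι q a) (g : Kind) (i : ℕ) (U : ι → ι → S)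
    (F : ι → ι → List ι → S) (s : List ι) :
    pieceOp M g i (fun s => opU U (fun x y => F x y s)) s =
      opU U (fun x y => pieceOp M g i (F x y) s) := by
  simp only [opU, pieceOp_sum, pieceOp_smul]

theorem pieceOp_opR (M : Model ι q a) (g : Kind) (i : ℕ) (R : ι → ι → ι → ι → S)
    (F : ι → ι → List ι → S) (b c : ι) (s : List ι) :
    pieceOp M g i (fun s => opR R (fun x y => F x y s) b c) s =
      opR R (fun x y => pieceOp M g i (F x y) s) b c := by
  simp only [opR, pieceOp_sum, pieceOp_smul]

theorem pieceOp_succ (M : Model ι q a) (g : Kind) (i : ℕ) (F : List ι → S) (c : ι)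
    (s : List ι) : pieceOp M g (i + 1) F (c :: s) = pieceOp M g i (fun s => F (c :: s)) s := rfl

/-- Functions which agree on lists of the right length. -/
theorem pieceOp_congr (M : Model ι q a) (g : Kind) (i : ℕ) (F G : List ι → S) (n : ℕ)
    (hi : i + g.inn ≤ n) (h : ∀ s : List ι, s.length = n - g.inn + g.out → F s = G s)
    (s : List ι) (hs : s.length = n) : pieceOp M g i F s = pieceOp M g i G s := by
  induction i generalizing F G n s with
  | zero =>
    cases g with
    | cup =>
      simp only [pieceOp, base]
      congr 1
      funext x y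
      exact h _ (by simp [Kind.inn, Kind.out, hs])
    | cap =>
      rcases s with _ | ⟨x, _ | ⟨y, s⟩⟩
      · simp [Kind.inn] at hi hs; omega
      · simp [Kind.inn] at hi hs; omega
      · simp only [pieceOp, base]
        rw [h s (by simp [Kind.inn, Kind.out] at hs ⊢; omega)]
    | pos =>
      rcases s with _ | ⟨x, _ | ⟨y, s⟩⟩
      · simp [Kind.inn] at hi hs; omega
      · simp [Kind.inn] at hi hs; omega
      · simp only [pieceOp, base]
        congr 1
        funext x y
        exact h _ (by simp [Kind.inn, Kind.out] at hs hi ⊢; omega)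
    | neg =>
      rcases s with _ | ⟨x, _ | ⟨y, s⟩⟩
      · simp [Kind.inn] at hi hs; omega
      · simp [Kind.inn] at hi hs; omega
      · simp only [pieceOp, base]
        congr 1
        funext x y
        exact h _ (by simp [Kind.inn, Kind.out] at hs hi ⊢; omega)
  | succ i ih =>
    cases s with
    | nil => simp at hs; omega
    | cons x s =>
      simp only [List.length_cons] at hs
      rw [pieceOp_succ, pieceOp_succ]
      refine ih _ _ (n - 1) (by omega) ?_ s (by omega)
      intro s' hs'
      exact h _ (by simp only [List.length_cons]; omega)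

theorem wordOp_congr (M : Model ι q a) (w : List Piece) (F G : List ι → S) (n m : ℕ)
    (hw : strands w n = some m) (h : ∀ s : List ι, s.length = m → F s = G s)
    (s : List ι) (hs : s.length = n) : wordOp M w F s = wordOp M w G s := by
  induction w generalizing n s with
  | nil =>
    simp only [strands, Option.some.injEq] at hw
    exact h s (by omega)
  | cons p w ih =>
    simp only [strands] at hw
    split_ifs at hw with hp
    exact pieceOp_congr M p.kind p.idx _ _ n hp (fun s' hs' => ih _ hw s' hs') s hs

/-- Height exchange at position `0`. -/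
theorem far_zero (M : Model ι q a) (g h : Kind) (k : ℕ) (F : List ι → S) (s : List ι)
    (hs : g.inn ≤ s.length) :
    wordOp M [⟨g, 0⟩, ⟨h, g.out + k⟩] F s = wordOp M [⟨h, g.inn + k⟩, ⟨g, 0⟩] F s := by
  cases g with
  | cup =>
    simp only [wordOp, Kind.inn, Kind.out, zero_add]
    rw [show 2 + k = k + 1 + 1 from by omega]
    simp only [pieceOp, base, pieceOp_opU]
  | cap =>
    rcases s with _ | ⟨x, _ | ⟨y, s⟩⟩
    · simp [Kind.inn] at hs
    · simp [Kind.inn] at hs
    · simp only [wordOp, Kind.inn, Kind.out, zero_add]
      rw [show 2 + k = k + 1 + 1 from by omega]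
      simp only [pieceOp, base, pieceOp_smul]
  | pos =>
    rcases s with _ | ⟨x, _ | ⟨y, s⟩⟩
    · simp [Kind.inn] at hs
    · simp [Kind.inn] at hs
    · simp only [wordOp, Kind.inn, Kind.out]
      rw [show 2 + k = k + 1 + 1 from by omega]
      simp only [pieceOp, base, pieceOp_opR]
  | neg =>
    rcases s with _ | ⟨x, _ | ⟨y, s⟩⟩
    · simp [Kind.inn] at hs
    · simp [Kind.inn] at hs
    · simp only [wordOp, Kind.inn, Kind.out]
      rw [show 2 + k = k + 1 + 1 from by omega]
      simp only [pieceOp, base, pieceOp_opR]

theorem pieceOp_shift (M : Model ι q a) (g : Kind) (j : ℕ) (F : List ι → S) (u s : List ι) :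
    pieceOp M g (j + u.length) F (u ++ s) = pieceOp M g j (fun s => F (u ++ s)) s := by
  induction u generalizing F with
  | nil => rfl
  | cons c u ih =>
    rw [List.length_cons, ← add_assoc, List.cons_append, pieceOp_succ, ih]
    rfl

/-- move a word to the right -/
def shiftW (i : ℕ) (w : List Piece) : List Piece := w.map fun p => ⟨p.kind, p.idx + i⟩

theorem wordOp_shift (M : Model ι q a) (w : List Piece) (F : List ι → S) (u s : List ι) :
    wordOp M (shiftW u.length w) F (u ++ s) = wordOp M w (fun s => F (u ++ s)) s := by
  induction w generalizing s with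
  | nil => rfl
  | cons p w ih =>
    have e : shiftW u.length (p :: w) = ⟨p.kind, p.idx + u.length⟩ :: shiftW u.length w := rfl
    rw [e, wordOp, wordOp, pieceOp_shift]
    congr 1
    funext s
    exact ih s

/-- Moves at position `0` give moves at every position. -/
theorem move_shift (M : Model ι q a) (i n : ℕ) (l r : List Piece) (F : List ι → S)
    (s : List ι) (hs : s.length = n) (k : ℕ) (hn : i + k ≤ n)
    (h : ∀ (F : List ι → S) (s : List ι), k ≤ s.length → wordOp M l F s = wordOp M r F s) :
    wordOp M (shiftW i l) F s = wordOp M (shiftW i r) F s := by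
  have e : s = s.take i ++ s.drop i := (List.take_append_drop i s).symm
  have hi : (s.take i).length = i := by simp; omega
  have h1 := wordOp_shift M l F (s.take i) (s.drop i)
  have h2 := wordOp_shift M r F (s.take i) (s.drop i)
  rw [hi, ← e] at h1 h2
  rw [h1, h2]
  exact h _ _ (by simp; omega)

theorem regular_local (M : Model ι q a) {l r : List Piece} (h : RegularMove l r) (n m : ℕ)
    (hl : strands l n = some m) (hr : strands r n = some m) (F : List ι → S) (s : List ι)
    (hs : s.length = n) : wordOp M l F s = wordOp M r F s := by
  cases h with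
  | far g h i k =>
    have hn : i + g.inn ≤ n := by
      by_contra hcon
      simp [strands, hcon] at hl
    have := move_shift M i n [⟨g, 0⟩, ⟨h, g.out + k⟩] [⟨h, g.inn + k⟩, ⟨g, 0⟩] F s hs g.inn hn
      (fun F s hs => far_zero M g h k F s hs)
    simpa [shiftW, add_comm, add_left_comm, add_assoc] using this
  | straighten_right i =>
    have hn : i + 1 ≤ n := by
      simp [strands, cup, cap, Kind.inn, Kind.out] at hl; omega
    have := move_shift M i n [cup 0, cap 1] [] F s hs 1 hn (by
      intro F s hs
      rcases s with _ | ⟨c, s⟩
      · simp at hs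
      · exact M.zz1 (fun x => F (x :: s)) c)
    simpa [shiftW, cup, cap, add_comm] using this
  | straighten_left i =>
    have hn : i + 1 ≤ n := by
      simp [strands, cup, cap, Kind.inn, Kind.out] at hl; omega
    have := move_shift M i n [cup 1, cap 0] [] F s hs 1 hn (by
      intro F s hs
      rcases s with _ | ⟨c, s⟩
      · simp at hs
      · exact M.zz2 (fun x => F (x :: s)) c)
    simpa [shiftW, cup, cap, add_comm] using this
  | rotate_cup_pos i =>
    have hn : i + 1 ≤ n := by
      simp [strands, cup, pos, Kind.inn, Kind.out] at hl; omega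
    have := move_shift M i n [cup 0, pos 1] [cup 1, neg 0] F s hs 1 hn (by
      intro F s hs
      rcases s with _ | ⟨c, s⟩
      · simp at hs
      · exact M.tu (fun x y z => F (x :: y :: z :: s)) c)
    simpa [shiftW, cup, pos, neg, add_comm] using this
  | rotate_cup_neg i =>
    have hn : i + 1 ≤ n := by
      simp [strands, cup, neg, Kind.inn, Kind.out] at hl; omega
    have := move_shift M i n [cup 0, neg 1] [cup 1, pos 0] F s hs 1 hn (by
      intro F s hs
      rcases s with _ | ⟨c, s⟩
      · simp at hs
      · exact (M.tu2 (fun x y z => F (x :: y :: z :: s)) c).symm)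
    simpa [shiftW, cup, pos, neg, add_comm] using this
  | rotate_cap_pos i =>
    have hn : i + 3 ≤ n := by
      simp [strands, cap, pos, Kind.inn, Kind.out] at hl; omega
    have := move_shift M i n [pos 1, cap 0] [neg 0, cap 1] F s hs 3 hn (by
      intro F s hs
      rcases s with _ | ⟨b, _ | ⟨c, _ | ⟨d, s⟩⟩⟩
      · simp at hs
      · simp at hs
      · simp at hs
      · exact M.tc (fun x => F (x :: s)) b c d)
    simpa [shiftW, cap, pos, neg, add_comm] using this
  | rotate_cap_neg i =>
    have hn : i + 3 ≤ n := by
      simp [strands, cap, neg, Kind.inn, Kind.out] at hl; omega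
    have := move_shift M i n [neg 1, cap 0] [pos 0, cap 1] F s hs 3 hn (by
      intro F s hs
      rcases s with _ | ⟨b, _ | ⟨c, _ | ⟨d, s⟩⟩⟩
      · simp at hs
      · simp at hs
      · simp at hs
      · exact (M.tc2 (fun x => F (x :: s)) b c d).symm)
    simpa [shiftW, cap, pos, neg, add_comm] using this
  | reidemeister_two i =>
    have hn : i + 2 ≤ n := by
      simp [strands, pos, neg, Kind.inn, Kind.out] at hl; omega
    have := move_shift M i n [pos 0, neg 0] [] F s hs 2 hn (by
      intro F s hs
      rcases s with _ | ⟨b, _ | ⟨c, s⟩⟩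
      · simp at hs
      · simp at hs
      · exact M.rq (fun x y => F (x :: y :: s)) b c)
    simpa [shiftW, pos, neg, add_comm] using this
  | reidemeister_two' i =>
    have hn : i + 2 ≤ n := by
      simp [strands, pos, neg, Kind.inn, Kind.out] at hl; omega
    have := move_shift M i n [neg 0, pos 0] [] F s hs 2 hn (by
      intro F s hs
      rcases s with _ | ⟨b, _ | ⟨c, s⟩⟩
      · simp at hs
      · simp at hs
      · exact M.qr (fun x y => F (x :: y :: s)) b c)
    simpa [shiftW, pos, neg, add_comm] using this
  | reidemeister_three i =>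
    have hn : i + 3 ≤ n := by
      simp [strands, pos, Kind.inn, Kind.out] at hl; omega
    have := move_shift M i n [pos 0, pos 1, pos 0] [pos 1, pos 0, pos 1] F s hs 3 hn (by
      intro F s hs
      rcases s with _ | ⟨b, _ | ⟨c, _ | ⟨d, s⟩⟩⟩
      · simp at hs
      · simp at hs
      · simp at hs
      · exact M.r3 (fun x y z => F (x :: y :: z :: s)) b c d)
    simpa [shiftW, pos, neg, add_comm] using this

end Pool.Agent.Helper79.VModel
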